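import Pool.Agent.Q106.UR.Chern
import Pool.Agent.Q120.AD.Tail

/-!
# Estimates for binomial probabilities
-/

set_option autoImplicit false

namespace Pool.Agent.Q106.UR

open Finset Filter

theorem one_sub_pow_ge {P : ℝ} {η l : ℝ} {w : ℕ} (hη0 : 0 < η) (hη : η ≤ 1 / 2) (hl : 0 ≤ l) (hP0 : 0 < P) (hP : P ≤ η)
    (hw : w * P ≤ (1 + η) * l) : Real.exp (-(l * (1 + 4 * η))) ≤ (1 - P) ^ w := by
  have h1 : 0 < 1 - P := by linarith
  have h2 := Real.one_sub_inv_le_log_of_pos h1
  have h3 : -(2 * η * P + P) ≤ Real.log (1 - P) := by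
    have h4 : (1 - P)⁻¹ ≤ 1 + P + 2 * η * P := by
      rw [inv_le_iff_one_le_mul₀ h1]
      nlinarith [mul_nonneg hP0.le (show (0 : ℝ) ≤ η - P by linarith), mul_nonneg hη0.le hP0.le]
    linarith
  rw [← Real.rpow_natCast (1 - P) w, Real.rpow_def_of_pos h1]
  refine Real.exp_le_exp.2 ?_
  have hw0 : (0 : ℝ) ≤ w := Nat.cast_nonneg w
  have h4 := mul_le_mul_of_nonneg_right h3 hw0
  have h5 : (1 + 2 * η) * (w * P) ≤ (1 + 2 * η) * ((1 + η) * l) := mul_le_mul_of_nonneg_left hw (by linarith)
  have h6 : (1 + 2 * η) * (1 + η) ≤ 1 + 4 * η := by nlinarith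
  have h7 := mul_le_mul_of_nonneg_right h6 hl
  nlinarith

theorem asy {u ε : ℝ} (hu : 0 ≤ u) (hε : 0 < ε) : ∃ η, 0 < η ∧ η ≤ 1 / 2 ∧ ∃ Λ, 0 < Λ ∧
    ∀ (w m : ℕ) (l P P' r : ℝ), Λ ≤ l → m = ⌊u * l⌋₊ → (1 - η) * l ≤ w * P → w * P' ≤ (1 + η) * l → 0 < P → P ≤ P' →
    P' ≤ η → 0 ≤ r → w * r ≤ η * l → (m : ℝ) ≤ η * w →
    Real.exp (-(l * (II u + ε))) ≤ (w.choose m : ℝ) * P ^ m * (1 - P') ^ w ∧
    ∃ z g : ℝ, 0 ≤ z ∧ 0 < z ^ (2 * m) ∧ 2 * (z - 1) * P + (z - 1) ^ 2 * r ≤ g ∧
      2 * (z - 1) * P' + (z - 1) ^ 2 * r ≤ g ∧ Real.exp (w * g) / z ^ (2 * m) ≤ Real.exp (-(2 * (l * (II u - ε)))) := by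
  obtain ⟨η, hη⟩ : ∃ η, η = min (1 / 2) (ε / (7 + 5 * u + 2 * |u - 1| + (u - 1) ^ 2)) := ⟨_, rfl⟩
  have hden : 0 < 7 + 5 * u + 2 * |u - 1| + (u - 1) ^ 2 := by positivity
  have hη0 : 0 < η := by rw [hη]; exact lt_min (by norm_num) (by positivity)
  have hη1 : η ≤ 1 / 2 := by rw [hη]; exact min_le_left _ _
  have hη2 : η * (7 + 5 * u + 2 * |u - 1| + (u - 1) ^ 2) ≤ ε := by
    have h1 : η ≤ ε / (7 + 5 * u + 2 * |u - 1| + (u - 1) ^ 2) := by rw [hη]; exact min_le_right _ _
    rw [le_div_iff₀ hden] at h1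
    exact h1
  obtain ⟨Λ, hΛ⟩ : ∃ Λ, Λ = 1 + 2 * (u + 1) / η ^ 2 + 1 / (u * η) + (|1 - Real.log u| + 5 + 2 * |Real.log u|) / η := ⟨_, rfl⟩
  have hΛ0 : 0 < Λ := by rw [hΛ]; positivity
  refine ⟨η, hη0, hη1, Λ, hΛ0, ?_⟩
  intro w m l P P' r hl hm hwP hwP' hP0 hPP hPη hr0 hwr hmw
  have hl0 : 0 < l := by linarith
  have hw0 : (0 : ℝ) ≤ w := Nat.cast_nonneg w
  have hP'0 : 0 < P' := by linarith
  have hm1 : (m : ℝ) ≤ u * l := by rw [hm]; exact Nat.floor_le (by positivity)
  have hm2 : u * l - 1 ≤ m := by rw [hm]; exact (Nat.sub_one_lt_floor _).le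
  have hpow := one_sub_pow_ge hη0 hη1 hl0.le hP'0 hPη hwP'
  have hexp0 : (0 : ℝ) < (1 - P') ^ w := lt_of_lt_of_le (Real.exp_pos _) hpow
  have p1 : 0 ≤ 2 * (u + 1) / η ^ 2 := by positivity
  have p2 : 0 ≤ 1 / (u * η) := by positivity
  have p3 : 0 ≤ (|1 - Real.log u| + 5 + 2 * |Real.log u|) / η := by positivity
  have hl1 : 2 * (u + 1) ≤ η ^ 2 * l := by
    have h1 : 2 * (u + 1) / η ^ 2 ≤ l := by linarith
    rw [div_le_iff₀ (by positivity)] at h1
    linarith
  have hl3 : |1 - Real.log u| + 5 + 2 * |Real.log u| ≤ η * l := by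
    have h1 : (|1 - Real.log u| + 5 + 2 * |Real.log u|) / η ≤ l := by linarith
    rw [div_le_iff₀ (by positivity)] at h1
    linarith
  have hlone : 1 ≤ l := by linarith
  have habs0 := abs_nonneg (u - 1)
  constructor
  · rcases hu.lt_or_eq with hu0 | hu0
    · -- u > 0
      have hl2 : 1 ≤ η * (u * l) := by
        have h1 : 1 / (u * η) ≤ l := by linarith
        rw [div_le_iff₀ (by positivity)] at h1
        linarith
      have hmw' : m ≤ w := by
        have h1 : (m : ℝ) ≤ w := by nlinarith
        exact_mod_cast h1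
      have hcb := Pool.Agent.Q120.AD.choose_bound (h := w) (m := m) hP0.le hmw'
      obtain ⟨X, hX⟩ : ∃ X, X = 1 - Real.log u - 5 * η := ⟨_, rfl⟩
      have hlog1 : -(2 * η) ≤ Real.log (1 - η) := by
        have h1 := Real.one_sub_inv_le_log_of_pos (show 0 < 1 - η by linarith)
        have h2 : (1 - η)⁻¹ ≤ 1 + 2 * η := by
          rw [inv_le_iff_one_le_mul₀ (by linarith)]
          nlinarith
        linarith
      have hlog2 : Real.log (1 + η) ≤ η := by
        have := Real.log_le_sub_one_of_pos (show 0 < 1 + η by linarith)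
        linarith
      have hbase : Real.exp X ≤ (((w : ℝ) - m) * P * Real.exp 1) / ((m : ℝ) + 1) := by
        have h1 : (1 - η) ^ 2 * l ≤ ((w : ℝ) - m) * P := by
          have h2 : (1 - η) * w ≤ (w : ℝ) - m := by linarith
          have h3 := mul_le_mul_of_nonneg_right h2 hP0.le
          have h4 := mul_le_mul_of_nonneg_left hwP (show 0 ≤ 1 - η by linarith)
          nlinarith
        have h2 : (m : ℝ) + 1 ≤ u * l * (1 + η) := by linarith
        have h3 : Real.exp X ≤ (1 - η) ^ 2 / (u * (1 + η)) * Real.exp 1 := by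
          have h4 : 0 < (1 - η) ^ 2 / (u * (1 + η)) := by
            have : 0 < 1 - η := by linarith
            positivity
          rw [← Real.exp_log h4, ← Real.exp_add]
          refine Real.exp_le_exp.2 ?_
          have h5 : (1 - η) ≠ 0 := by linarith
          rw [Real.log_div (by positivity) (by positivity), Real.log_pow, Real.log_mul hu0.ne' (by positivity), hX]
          push_cast
          linarith
        refine h3.trans ?_
        rw [le_div_iff₀ (by positivity)]
        have h6 : (1 - η) ^ 2 / (u * (1 + η)) * Real.exp 1 * ((m : ℝ) + 1) ≤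
            (1 - η) ^ 2 / (u * (1 + η)) * Real.exp 1 * (u * l * (1 + η)) := mul_le_mul_of_nonneg_left h2 (by positivity)
        refine h6.trans ?_
        have h7 : (1 - η) ^ 2 / (u * (1 + η)) * Real.exp 1 * (u * l * (1 + η)) = (1 - η) ^ 2 * l * Real.exp 1 := by
          field_simp
        rw [h7]
        exact mul_le_mul_of_nonneg_right h1 (Real.exp_pos _).le
      have hpowX : Real.exp (u * l * X - |X|) ≤ ((((w : ℝ) - m) * P * Real.exp 1) / ((m : ℝ) + 1)) ^ m := by
        refine le_trans ?_ (pow_le_pow_left₀ (Real.exp_pos _).le hbase m)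
        rw [← Real.exp_nat_mul]
        refine Real.exp_le_exp.2 ?_
        have h1 : |u * l - m| ≤ 1 := by rw [abs_le]; constructor <;> linarith
        have h2 : (u * l - m) * X ≤ |X| := by
          calc (u * l - m) * X ≤ |(u * l - m) * X| := le_abs_self _
            _ = |u * l - m| * |X| := abs_mul _ _
            _ ≤ 1 * |X| := mul_le_mul_of_nonneg_right h1 (abs_nonneg _)
            _ = |X| := one_mul _
        linarith
      have hinv : Real.exp (-(η * l)) ≤ 1 / ((m : ℝ) + 1) := by
        rw [Real.exp_neg, one_div]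
        refine inv_anti₀ (by positivity) ?_
        have h1 := Real.quadratic_le_exp_of_nonneg (show 0 ≤ η * l by positivity)
        have h2 : (η * l) ^ 2 / 2 ≥ (u + 1) * l := by
          have := mul_le_mul_of_nonneg_right hl1 hl0.le
          nlinarith
        nlinarith
      have hXabs : |X| ≤ |1 - Real.log u| + 5 := by
        rw [hX]
        have h1 := abs_sub (1 - Real.log u) (5 * η)
        have h2 : |5 * η| = 5 * η := abs_of_nonneg (by positivity)
        rw [h2] at h1
        linarith
      have h1 : Real.exp (-(η * l)) * Real.exp (u * l * X - |X|) ≤ (w.choose m : ℝ) * P ^ m :=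
        le_trans (mul_le_mul hinv hpowX (Real.exp_pos _).le (by positivity)) hcb
      have h2 := mul_le_mul h1 hpow (Real.exp_pos _).le (by positivity)
      refine le_trans ?_ h2
      rw [← Real.exp_add, ← Real.exp_add]
      refine Real.exp_le_exp.2 ?_
      unfold II
      have h3 : |X| ≤ η * l := by linarith [abs_nonneg (Real.log u)]
      have h4 : η * (6 + 5 * u) ≤ ε := by
        have : 0 ≤ η * (1 + 2 * |u - 1| + (u - 1) ^ 2) := by positivity
        linarith
      have h5 := mul_le_mul_of_nonneg_right h4 hl0.le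
      rw [hX] at h3 ⊢
      linarith
    · -- u = 0
      have hm0 : m = 0 := by
        rw [hm, ← hu0]
        simp
      rw [hm0, Nat.choose_zero_right, pow_zero, mul_one, Nat.cast_one, one_mul]
      refine le_trans (Real.exp_le_exp.2 ?_) hpow
      unfold II
      rw [← hu0]
      have h4 : 4 * η ≤ ε := by
        have : 0 ≤ η * (3 + 5 * u + 2 * |u - 1| + (u - 1) ^ 2) := by positivity
        linarith
      have h5 := mul_le_mul_of_nonneg_left h4 hl0.le
      linarith
  · refine ⟨u, max (2 * (u - 1) * P) (2 * (u - 1) * P') + (u - 1) ^ 2 * r, hu, ?_, ?_, ?_, ?_⟩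
    · rcases hu.lt_or_eq with hu0 | hu0
      · positivity
      · have hm0 : m = 0 := by
          rw [hm, ← hu0]
          simp
        rw [hm0]
        norm_num
    · linarith [le_max_left (2 * (u - 1) * P) (2 * (u - 1) * P')]
    · linarith [le_max_right (2 * (u - 1) * P) (2 * (u - 1) * P')]
    · have h1 : (w : ℝ) * (max (2 * (u - 1) * P) (2 * (u - 1) * P') + (u - 1) ^ 2 * r) ≤
          2 * (u - 1) * l + 2 * |u - 1| * η * l + (u - 1) ^ 2 * η * l := by
        have hA : (w : ℝ) * ((u - 1) ^ 2 * r) ≤ (u - 1) ^ 2 * η * l := by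
          have := mul_le_mul_of_nonneg_left hwr (sq_nonneg (u - 1))
          linarith
        have hB : (w : ℝ) * max (2 * (u - 1) * P) (2 * (u - 1) * P') ≤ 2 * (u - 1) * l + 2 * |u - 1| * η * l := by
          have hwPu : w * P ≤ (1 + η) * l := le_trans (mul_le_mul_of_nonneg_left hPP hw0) hwP'
          have hwPl : (1 - η) * l ≤ w * P' := le_trans hwP (mul_le_mul_of_nonneg_left hPP hw0)
          have hgen : ∀ p : ℝ, (1 - η) * l ≤ w * p → w * p ≤ (1 + η) * l →
              (w : ℝ) * (2 * (u - 1) * p) ≤ 2 * (u - 1) * l + 2 * |u - 1| * η * l := by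
            intro p hp1 hp2
            rcases le_total 1 u with h | h
            · rw [abs_of_nonneg (by linarith : 0 ≤ u - 1)]
              have := mul_le_mul_of_nonneg_left hp2 (by linarith : 0 ≤ 2 * (u - 1))
              linarith
            · rw [abs_of_nonpos (by linarith : u - 1 ≤ 0)]
              have := mul_le_mul_of_nonpos_left hp1 (by linarith : 2 * (u - 1) ≤ 0)
              linarith
          rcases max_choice (2 * (u - 1) * P) (2 * (u - 1) * P') with h | h
          · rw [h]
            exact hgen P hwP hwPu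
          · rw [h]
            exact hgen P' hwPl hwP'
        linarith
      rcases hu.lt_or_eq with hu0 | hu0
      · have h2 : (u ^ (2 * m))⁻¹ ≤ Real.exp (-(2 * (u * l * Real.log u)) + 2 * |Real.log u|) := by
          have h3 : Real.exp (2 * (u * l * Real.log u) - 2 * |Real.log u|) ≤ u ^ (2 * m) := by
            rw [← Real.rpow_natCast u (2 * m), Real.rpow_def_of_pos hu0]
            refine Real.exp_le_exp.2 ?_
            push_cast
            have h1 : |u * l - m| ≤ 1 := by rw [abs_le]; constructor <;> linarith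
            have h2 : (u * l - m) * Real.log u ≤ |Real.log u| := by
              calc (u * l - m) * Real.log u ≤ |(u * l - m) * Real.log u| := le_abs_self _
                _ = |u * l - m| * |Real.log u| := abs_mul _ _
                _ ≤ 1 * |Real.log u| := mul_le_mul_of_nonneg_right h1 (abs_nonneg _)
                _ = |Real.log u| := one_mul _
            linarith
          refine (inv_anti₀ (Real.exp_pos _) h3).trans (le_of_eq ?_)
          rw [← Real.exp_neg]
          congr 1
          ring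
        rw [div_eq_mul_inv]
        refine (mul_le_mul (Real.exp_le_exp.2 h1) h2 (by positivity) (Real.exp_pos _).le).trans ?_
        rw [← Real.exp_add]
        refine Real.exp_le_exp.2 ?_
        unfold II
        have h3 : 2 * |Real.log u| ≤ η * l := by linarith [abs_nonneg (1 - Real.log u)]
        have h4 : η * (1 + 2 * |u - 1| + (u - 1) ^ 2) ≤ 2 * ε := by
          have : 0 ≤ η * (6 + 5 * u) := by positivity
          linarith
        have h5 := mul_le_mul_of_nonneg_right h4 hl0.le
        linarith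
      · have hm0 : m = 0 := by
          rw [hm, ← hu0]
          simp
        rw [hm0, mul_zero, pow_zero, div_one]
        refine Real.exp_le_exp.2 (h1.trans ?_)
        unfold II
        rw [← hu0]
        rw [← hu0] at hη2
        norm_num at hη2 ⊢
        nlinarith

end Pool.Agent.Q106.UR
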