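import Pool.Agent.Q106.UR.Trace
import Pool.Agent.Q106.UR.Asy

/-!
# Shifts with prescribed numbers of tuples above the critical size
-/

set_option autoImplicit false

namespace Pool.Agent.Q106.UR

open Finset MeasureTheory ProbabilityTheory Filter Pool.Agent.Q120.GM
open scoped Topology

variable {Ω : Type*} [MeasurableSpace Ω] {μ : Measure Ω} [IsProbabilityMeasure μ] {A : Ω → Set ℕ}

/-- The set of the shifts. -/
def Hj {k : ℕ} (Q α x W : ℕ) (a : Fin k → ℕ) (j : Fin k → ℕ) : Finset ℕ :=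
  univ.image (fun i : Fin k => shf Q α x W a i (j i))

theorem mem_Hj {k Q α x W : ℕ} {a j : Fin k → ℕ} {b : ℕ} : b ∈ Hj Q α x W a j ↔ ∃ i, b = shf Q α x W a i (j i) := by
  unfold Hj
  rw [mem_image]
  constructor
  · rintro ⟨i, _, h⟩
    exact ⟨i, h.symm⟩
  · rintro ⟨i, h⟩
    exact ⟨i, mem_univ i, h.symm⟩

theorem Hj_card {k Q α x W : ℕ} {a j : Fin k → ℕ} (hQ : 1 ≤ Q) (ha : ∀ i, a i ≤ α) (hx : 1 ≤ x) (hj : j ∈ GG k W) :
    (Hj Q α x W a j).card = k := by
  unfold Hj
  rw [card_image_of_injective]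
  · simp
  · intro i i' h
    exact (shf_inj hQ ha (le_refl 1) hx (le_refl 1) hx (mem_GG.1 hj i) (mem_GG.1 hj i') (congrArg (fun t => 1 + t) h)).1

theorem shf_ge {k Q α x W : ℕ} {a : Fin k → ℕ} (hQ : 1 ≤ Q) (i : Fin k) (j : ℕ) : W ≤ shf Q α x W a i j := by
  unfold shf
  have h1 : W ≤ W * (i.1 + 1) + j := (Nat.le_mul_of_pos_right W (Nat.succ_pos _)).trans (Nat.le_add_right _ _)
  have h2 : 1 ≤ Q * (x + 1 + α) := Nat.mul_pos hQ (by omega)
  calc W ≤ W * (i.1 + 1) + j := h1
    _ ≤ Q * (x + 1 + α) * (W * (i.1 + 1) + j) := Nat.le_mul_of_pos_left _ h2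
    _ ≤ _ := Nat.le_add_left _ _

theorem shf_le {k Q α x W : ℕ} {a : Fin k → ℕ} (ha : ∀ i, a i ≤ α) {i : Fin k} {j : ℕ} (hj : j < W) :
    shf Q α x W a i j ≤ α + Q * (x + 1 + α) * (W * (k + 1)) := by
  unfold shf
  have h1 : W * (i.1 + 1) + j ≤ W * (k + 1) := by
    have h2 : i.1 + 1 ≤ k := i.2
    have h3 : W * (i.1 + 1) ≤ W * k := Nat.mul_le_mul_left _ h2
    have h4 : W * (k + 1) = W * k + W := Nat.mul_succ _ _
    omega
  exact Nat.add_le_add (ha i) (Nat.mul_le_mul_left _ h1)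

theorem good_iff {k Q α x W : ℕ} {a j : Fin k → ℕ} {H₀ : Finset ℕ} (ha : ∀ i, a i ∈ H₀) (ha' : ∀ h ∈ H₀, ∃ i, a i = h)
    (n : ℕ) : Good Q (insert 0 (Hj Q α x W a j)) n ↔ Good Q (insert 0 H₀) n := by
  have key : ∀ i, (n + shf Q α x W a i (j i)).Coprime Q ↔ (n + a i).Coprime Q := by
    intro i
    have h1 : n + shf Q α x W a i (j i) = (n + a i) + Q * ((x + 1 + α) * (W * (i.1 + 1) + j i)) := by
      unfold shf
      ring
    rw [h1, Nat.coprime_add_mul_left_left]
  constructor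
  · intro h b hb
    rw [mem_insert] at hb
    rcases hb with rfl | hb
    · exact h 0 (mem_insert_self _ _)
    · obtain ⟨i, rfl⟩ := ha' b hb
      exact (key i).1 (h _ (mem_insert_of_mem (mem_Hj.2 ⟨i, rfl⟩)))
  · intro h b hb
    rw [mem_insert] at hb
    rcases hb with rfl | hb
    · exact h 0 (mem_insert_self _ _)
    · obtain ⟨i, rfl⟩ := mem_Hj.1 hb
      exact (key i).2 (h _ (mem_insert_of_mem (ha i)))

/-- Almost surely the elements are coprime to `Q`. -/
theorem ae_coprime {Q : ℕ} (hA : IsModel μ (level Q) A) : ∀ᵐ ω ∂μ, ∀ n ∈ A ω, n.Coprime Q := by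
  rw [ae_all_iff]
  intro n
  by_cases hn : n.Coprime Q
  · exact Eventually.of_forall (fun ω _ => hn)
  · have h1 : μ.real {ω | n ∈ A ω} = 0 := by
      rw [hA.prob n]
      unfold level
      rw [if_neg hn]
    have h2 : μ {ω | n ∈ A ω} = 0 := (measureReal_eq_zero_iff (measure_ne_top _ _)).1 h1
    have h3 : ∀ᵐ ω ∂μ, ω ∉ {ω | n ∈ A ω} := measure_eq_zero_iff_ae_notMem.1 h2
    filter_upwards [h3] with ω hω h4
    exact absurd h4 hω

/-- The trace. -/
noncomputable def trc (A : Ω → Set ℕ) (J : Finset ℕ) (ω : Ω) : Finset ℕ := oc A J (fun n => ({n} : Finset ℕ)) ω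

omit [MeasurableSpace Ω] in
theorem mem_trc {J : Finset ℕ} {ω : Ω} {n : ℕ} : n ∈ trc A J ω ↔ n ∈ J ∧ n ∈ A ω := by
  unfold trc
  rw [mem_oc]
  refine and_congr_right (fun _ => ?_)
  constructor
  · intro h
    exact h n (mem_singleton_self n)
  · intro h i hi
    rw [mem_singleton] at hi
    rw [hi]
    exact h

omit [MeasurableSpace Ω] in
theorem NN_eq {k Q α x W : ℕ} {a j : Fin k → ℕ} {H₀ : Finset ℕ} (ha : ∀ i, a i ∈ H₀) (ha' : ∀ h ∈ H₀, ∃ i, a i = h)
    {ω : Ω} (hω : ∀ n ∈ A ω, n.Coprime Q) :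
    NN A (insert 0 (Hj Q α x W a j)) x ω = nm A (trc A (JJ Q (insert 0 H₀) x) ω) (Uj Q α x W a j) ω := by
  unfold NN
  rw [nm_card, nm_card]
  congr 2
  ext n
  rw [mem_oc, mem_oc, mem_trc]
  have hall : ω ∈ all A (tl n (insert 0 (Hj Q α x W a j))) ↔ n ∈ A ω ∧ ω ∈ all A (Uj Q α x W a j n) := by
    constructor
    · intro h
      refine ⟨?_, fun b hb => ?_⟩
      · have := h n (mem_tl.2 ⟨0, mem_insert_self _ _, rfl⟩)
        exact this
      · obtain ⟨i, rfl⟩ := mem_Uj.1 hb
        exact h _ (mem_tl.2 ⟨_, mem_insert_of_mem (mem_Hj.2 ⟨i, rfl⟩), rfl⟩)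
    · rintro ⟨h1, h2⟩ b hb
      obtain ⟨h, hh, rfl⟩ := mem_tl.1 hb
      rw [mem_insert] at hh
      rcases hh with rfl | hh
      · exact h1
      · obtain ⟨i, rfl⟩ := mem_Hj.1 hh
        exact h2 _ (mem_Uj.2 ⟨i, rfl⟩)
  rw [hall]
  constructor
  · rintro ⟨h1, h2, h3⟩
    refine ⟨⟨?_, h2⟩, h3⟩
    unfold JJ
    rw [mem_filter]
    refine ⟨h1, (good_iff (α := α) (x := x) (W := W) (j := j) ha ha' n).1 ?_⟩
    intro b hb
    rw [mem_insert] at hb
    rcases hb with rfl | hb
    · exact hω _ h2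
    · obtain ⟨i, rfl⟩ := mem_Hj.1 hb
      exact hω _ (h3 _ (mem_Uj.2 ⟨i, rfl⟩))
  · rintro ⟨⟨h1, h2⟩, h3⟩
    unfold JJ at h1
    rw [mem_filter] at h1
    exact ⟨h1.1, h2, h3⟩

/-- A parameter close to `c`. -/
theorem exists_near {k : ℕ} {c b η : ℝ} (hc : 0 < c) (hb : b < c) (hη : 0 < η) :
    ∃ c', b < c' ∧ c / 2 < c' ∧ c' < c ∧ (c / c') ^ k ≤ 1 + η := by
  have h1 : Tendsto (fun t : ℝ => (c / t) ^ k) (𝓝 c) (𝓝 ((c / c) ^ k)) := by
    refine ContinuousAt.tendsto ?_
    exact ContinuousAt.pow (ContinuousAt.div continuousAt_const continuousAt_id hc.ne') k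
  rw [div_self hc.ne', one_pow] at h1
  have h2 := h1.eventually_lt_const (show (1 : ℝ) < 1 + η by linarith)
  obtain ⟨r, hr, h3⟩ := Metric.eventually_nhds_iff.1 h2
  obtain ⟨c', h4, h5⟩ := exists_between (show max (max b (c / 2)) (c - r) < c by
    refine max_lt (max_lt hb (by linarith)) (by linarith))
  have h6 : max b (c / 2) < c' := (le_max_left _ _).trans_lt h4
  have h7 : c - r < c' := (le_max_right _ _).trans_lt h4
  refine ⟨c', (le_max_left _ _).trans_lt h6, (le_max_right _ _).trans_lt h6, h5, (h3 ?_).le⟩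
  rw [Real.dist_eq, abs_lt]
  constructor <;> linarith

/-- **Shifts with prescribed deviations.** -/
theorem exists_dev {Q k : ℕ} (hA : IsModel μ (level Q) A) (hQ : 1 ≤ Q) (hk : 1 ≤ k) {H₀ : Finset ℕ}
    (hH₀ : H₀.card = k) (h0 : 0 ∉ H₀) (hs : 0 < sing Q (insert 0 H₀)) {c u ε₂ : ℝ} (hc : 0 < c) (hu : 0 ≤ u)
    (hcr : sing Q (insert 0 H₀) * II u < k * c ^ (k + 1)) (hε₂ : 0 < ε₂) :
    ∀ᵐ ω ∂μ, ∀ᶠ x : ℕ in atTop, ∃ H : Finset ℕ, H.card = k ∧ 0 ∉ H ∧ (∀ h ∈ H, (h : ℝ) ≤ Real.exp (c * YY k x)) ∧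
      (∀ n, Good Q (insert 0 H) n ↔ Good Q (insert 0 H₀) n) ∧ sing Q (insert 0 H) = sing Q (insert 0 H₀) ∧
      NN A (insert 0 H) x ω ≤ u * MM Q (insert 0 H) x ∧ (u - ε₂) * MM Q (insert 0 H) x ≤ NN A (insert 0 H) x ω := by
  classical
  have hq := qq_pos hQ
  have hQ0 : (0 : ℝ) < Q := by exact_mod_cast hQ
  have hk0 : (0 : ℝ) < k := by exact_mod_cast hk
  obtain ⟨s, hsd⟩ : ∃ s, s = sing Q (insert 0 H₀) := ⟨_, rfl⟩
  rw [← hsd] at hs hcr
  have hI := II_nonneg hu
  -- the parameters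
  obtain ⟨ε, hε⟩ : ∃ ε, ε = min ((k * c ^ (k + 1) - s * II u) / (2 * s)) (c ^ (k + 1) / (16 * s)) := ⟨_, rfl⟩
  have hε0 : 0 < ε := by rw [hε]; exact lt_min (by have : 0 < k * c ^ (k + 1) - s * II u := by linarith
                                                   positivity) (by positivity)
  have hε1 : s * (II u + ε) < k * c ^ (k + 1) := by
    have h1 : ε ≤ (k * c ^ (k + 1) - s * II u) / (2 * s) := by rw [hε]; exact min_le_left _ _
    rw [le_div_iff₀ (by positivity)] at h1
    linarith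
  have hε3 : 16 * (s * ε) ≤ c ^ (k + 1) := by
    have h1 : ε ≤ c ^ (k + 1) / (16 * s) := by rw [hε]; exact min_le_right _ _
    rw [le_div_iff₀ (by positivity)] at h1
    linarith
  obtain ⟨η, hη0, hη1, Λ, hΛ, hasy⟩ := asy hu hε0
  obtain ⟨η', hη'⟩ : ∃ η', η' = min (η / 3) (ε₂ / (2 * (u + 1))) := ⟨_, rfl⟩
  have hη'0 : 0 < η' := by rw [hη']; exact lt_min (by positivity) (by positivity)
  have hη'1 : η' ≤ η / 3 := by rw [hη']; exact min_le_left _ _
  have hη'2 : u * η' ≤ ε₂ / 2 := by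
    have h1 : η' ≤ ε₂ / (2 * (u + 1)) := by rw [hη']; exact min_le_right _ _
    rw [le_div_iff₀ (by positivity)] at h1
    nlinarith
  obtain ⟨c', hc'1, hc'2, hc'3, hc'4⟩ := exists_near (k := k) (b := s * (II u + ε) / (k * c ^ k)) hc (by
    rw [div_lt_iff₀ (by positivity)]
    calc s * (II u + ε) < k * c ^ (k + 1) := hε1
      _ = c * (k * c ^ k) := by ring) hη'0
  have hc'0 : 0 < c' := by linarith
  obtain ⟨δ₁, hδ₁⟩ : ∃ δ₁, δ₁ = k * c' - s * (II u + ε) / c ^ k := ⟨_, rfl⟩
  have hδ₁0 : 0 < δ₁ := by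
    have h1 : s * (II u + ε) / c ^ k < k * c' := by
      rw [div_lt_iff₀ (by positivity)] at hc'1 ⊢
      calc s * (II u + ε) < c' * (k * c ^ k) := hc'1
        _ = k * c' * c ^ k := by ring
    rw [hδ₁]
    linarith
  obtain ⟨δ₂, hδ₂⟩ : ∃ δ₂, δ₂ = c' - 4 * (s * ε) / c ^ k := ⟨_, rfl⟩
  have hδ₂0 : 0 < δ₂ := by
    have h1 : 4 * (s * ε) / c ^ k ≤ c / 4 := by
      rw [div_le_iff₀ (by positivity)]
      have : c / 4 * c ^ k = c ^ (k + 1) / 4 := by ring
      rw [this]
      linarith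
    rw [hδ₂]
    linarith
  -- the enumeration
  obtain ⟨a, ha⟩ : ∃ a : Fin k → ℕ, a = fun i => ((H₀.equivFinOfCardEq hH₀).symm i : ℕ) := ⟨_, rfl⟩
  have haH : ∀ i, a i ∈ H₀ := by
    intro i
    rw [ha]
    exact ((H₀.equivFinOfCardEq hH₀).symm i).2
  have haH' : ∀ h ∈ H₀, ∃ i, a i = h := by
    intro h hh
    refine ⟨H₀.equivFinOfCardEq hH₀ ⟨h, hh⟩, ?_⟩
    rw [ha]
    simp
  obtain ⟨α, hα⟩ : ∃ α, α = H₀.sup id := ⟨_, rfl⟩
  have haα : ∀ i, a i ≤ α := by
    intro i
    rw [hα]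
    exact Finset.le_sup (f := id) (haH i)
  obtain ⟨W, hW⟩ : ∃ W : ℕ → ℕ, W = fun x => ⌈Real.exp (c' * YY k x)⌉₊ := ⟨_, rfl⟩
  obtain ⟨l, hl⟩ : ∃ l : ℕ → ℝ, l = fun x => s * YY k x / c ^ k := ⟨_, rfl⟩
  obtain ⟨m, hm⟩ : ∃ m : ℕ → ℕ, m = fun x => ⌊u * l x⌋₊ := ⟨_, rfl⟩
  obtain ⟨C₁, hC₁⟩ : ∃ C₁ : ℝ, C₁ = 1 + 2 * Q * (k + 1) := ⟨_, rfl⟩
  have hC₁0 : 0 < C₁ := by rw [hC₁]; positivity
  -- facts for large x
  have f1 : ∀ᶠ x : ℕ in atTop, ((x : ℝ) + 1 + α) * C₁ ≤ Real.exp ((c - c') * YY k x) := by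
    have g1 := YY_log k (2 / (c - c'))
    have g2 := (tendsto_natCast_atTop_atTop (R := ℝ)).eventually_ge_atTop ((2 + (α : ℝ)) * C₁)
    filter_upwards [g1, g2, eventually_ge_atTop 1] with x h1 h2 h3
    have hx1 : (1 : ℝ) ≤ x := by exact_mod_cast h3
    have hcc : 0 < c - c' := by linarith
    have h4 : 2 * Real.log x ≤ (c - c') * YY k x := by
      have h5 := mul_le_mul_of_nonneg_left h1 hcc.le
      have h6 : (c - c') * (2 / (c - c') * Real.log x) = 2 * Real.log x := by field_simp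
      linarith
    calc ((x : ℝ) + 1 + α) * C₁ ≤ (x * (2 + α)) * C₁ := by
          refine mul_le_mul_of_nonneg_right ?_ hC₁0.le
          have : (0 : ℝ) ≤ α := Nat.cast_nonneg α
          nlinarith
      _ = x * ((2 + α) * C₁) := by ring
      _ ≤ x * x := mul_le_mul_of_nonneg_left h2 (by linarith)
      _ = Real.exp (2 * Real.log x) := by
          rw [two_mul, Real.exp_add, Real.exp_log (by linarith)]
      _ ≤ _ := Real.exp_le_exp.2 h4
  have f2 : ∀ᶠ x : ℕ in atTop, qq Q * (2 * (u + 1)) / (η * c') ≤ YY k x := (YY_tendsto k).eventually_ge_atTop _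
  have f3 : ∀ᶠ x : ℕ in atTop, (Λ + 2 / ε₂) * (c ^ k / s) ≤ YY k x := (YY_tendsto k).eventually_ge_atTop _
  have f4 := ev_small k (C := 1) one_pos hδ₁0
  have f5 := ev_small k (C := (k : ℝ)) hk0 hδ₂0
  have f6 := trace_typ (μ := μ) (A := A) hA hQ (S := insert 0 H₀) (by rw [← hsd]; exact hs) (mem_insert_self _ _)
    (η := η / 3) (by positivity) (by linarith)
  -- the probability of failure
  obtain ⟨B, hB⟩ : ∃ B : ℕ → Set Ω, B = fun x => {ω | (∀ n ∈ A ω, n.Coprime Q) ∧
    ∀ j ∈ GG k (W x), NN A (insert 0 (Hj Q α x (W x) a j)) x ω ≠ m x} := ⟨_, rfl⟩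
  -- the bounds for the shifts
  have fsh : ∀ᶠ x : ℕ in atTop, 1 ≤ x ∧ 1 ≤ Real.log x ∧ 0 < YY k x ∧ ∀ i : Fin k, ∀ j < W x,
      Real.exp (c' * YY k x) ≤ shf Q α x (W x) a i j ∧ (x : ℝ) + shf Q α x (W x) a i j ≤ Real.exp (c * YY k x) := by
    filter_upwards [f1, log_tendsto.eventually_ge_atTop 1, YY_log k 1, eventually_ge_atTop 1] with x h1 h2 h3 h4
    refine ⟨h4, h2, by linarith, ?_⟩
    intro i j hj
    have hYn := YY_nonneg k x
    have hWl : Real.exp (c' * YY k x) ≤ W x := by rw [hW]; exact Nat.le_ceil _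
    have hWu : (W x : ℝ) ≤ 2 * Real.exp (c' * YY k x) := by
      have h5 : (W x : ℝ) < Real.exp (c' * YY k x) + 1 := by rw [hW]; exact Nat.ceil_lt_add_one (Real.exp_pos _).le
      have h6 : 1 ≤ Real.exp (c' * YY k x) := Real.one_le_exp (by positivity)
      linarith
    constructor
    · have h5 : (W x : ℝ) ≤ shf Q α x (W x) a i j := by exact_mod_cast shf_ge hQ i j
      linarith
    · have h5 : (shf Q α x (W x) a i j : ℝ) ≤ α + Q * (x + 1 + α) * (W x * (k + 1)) := by
        exact_mod_cast shf_le (Q := Q) (x := x) haα hj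
      have h6 : (Q : ℝ) * (x + 1 + α) * (W x * (k + 1)) ≤ Q * (x + 1 + α) * (2 * Real.exp (c' * YY k x) * (k + 1)) := by
        refine mul_le_mul_of_nonneg_left (mul_le_mul_of_nonneg_right hWu (by positivity)) (by positivity)
      have h7 : 1 ≤ Real.exp (c' * YY k x) := Real.one_le_exp (by positivity)
      have h8 : ((x : ℝ) + α) ≤ (x + 1 + α) * Real.exp (c' * YY k x) := by
        have : (0 : ℝ) ≤ α := Nat.cast_nonneg α
        have : (0 : ℝ) ≤ x := Nat.cast_nonneg x
        nlinarith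
      have h9 : (x + 1 + α) * C₁ * Real.exp (c' * YY k x) ≤ Real.exp ((c - c') * YY k x) * Real.exp (c' * YY k x) :=
        mul_le_mul_of_nonneg_right h1 (Real.exp_pos _).le
      rw [← Real.exp_add] at h9
      have h10 : (c - c') * YY k x + c' * YY k x = c * YY k x := by ring
      rw [h10] at h9
      have h11 : (x + 1 + α) * C₁ * Real.exp (c' * YY k x) = (x + 1 + α) * Real.exp (c' * YY k x) +
          Q * (x + 1 + α) * (2 * Real.exp (c' * YY k x) * (k + 1)) := by
        rw [hC₁]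
        ring
      linarith
  have hbound : ∀ᶠ x : ℕ in atTop, μ.real (B x) ≤ 3 * (1 / (x : ℝ) ^ 2) := by
    filter_upwards [fsh, f2, f3, f4, f5, f6] with x hsh h2 h3 h4 h5 h6
    obtain ⟨hx1, hlx, hY0, hsh⟩ := hsh
    have hx0 : (0 : ℝ) < x := by exact_mod_cast hx1
    have hlx0 : 0 < Real.log x := by linarith
    obtain ⟨Y, hY⟩ : ∃ Y, Y = YY k x := ⟨_, rfl⟩
    rw [← hY] at h2 h3 h4 h5 hY0 hsh
    obtain ⟨q, hqd⟩ : ∃ q, q = qq Q / (c * Y) := ⟨_, rfl⟩
    obtain ⟨q', hq'd⟩ : ∃ q', q' = qq Q / (c' * Y) := ⟨_, rfl⟩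
    have hq0 : 0 < q := by rw [hqd]; positivity
    have hq'0 : 0 < q' := by rw [hq'd]; positivity
    have hqq' : q ≤ q' := by
      rw [hqd, hq'd]
      exact div_le_div_of_nonneg_left hq.le (by positivity) (mul_le_mul_of_nonneg_right hc'3.le hY0.le)
    have hθ : q' * (2 * (u + 1)) ≤ η := by
      rw [div_le_iff₀ (by positivity)] at h2
      rw [hq'd, div_mul_eq_mul_div, div_le_iff₀ (by positivity)]
      linarith
    have hq'η : q' ≤ η / 2 := by nlinarith
    have huq' : u * q' ≤ η / 2 := by nlinarith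
    have hq'1 : q' < 1 := by linarith
    have hlx' : l x = s * Y / c ^ k := by rw [hl, hY]
    have hlΛ : Λ + 2 / ε₂ ≤ l x := by
      rw [hlx', le_div_iff₀ (by positivity)]
      have h7 := mul_le_mul_of_nonneg_right h3 hs.le
      have h8 : (Λ + 2 / ε₂) * (c ^ k / s) * s = (Λ + 2 / ε₂) * c ^ k := by field_simp
      linarith
    have hl0 : 0 < l x := by
      have : 0 < Λ + 2 / ε₂ := by positivity
      linarith
    have hlw : l x = w0 Q (insert 0 H₀) x * q ^ k := by
      have hpw : Y ^ (k + 1) = (x : ℝ) / Real.log x := by rw [hY]; exact YY_pow k x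
      have hss : s = (cc Q (insert 0 H₀) : ℝ) / Q * qq Q ^ (k + 1) := by
        rw [hsd, sing_eq, card_insert_of_notMem h0, hH₀]
      have hw0 : w0 Q (insert 0 H₀) x = Y ^ (k + 1) * ((cc Q (insert 0 H₀) : ℝ) / Q * qq Q) := by
        unfold w0
        rw [hpw]
        ring
      rw [hlx', hw0, hss, hqd, div_pow, mul_pow, pow_succ, pow_succ]
      field_simp
    have hw0pos : 0 < w0 Q (insert 0 H₀) x := by
      have h7 : 0 < w0 Q (insert 0 H₀) x * q ^ k := by rw [← hlw]; exact hl0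
      exact (pos_iff_pos_of_mul_pos h7).2 (by positivity)
    -- the typical sets
    obtain ⟨J, hJ⟩ : ∃ J, J = JJ Q (insert 0 H₀) x := ⟨_, rfl⟩
    obtain ⟨P, hP⟩ : ∃ P : Finset (Finset ℕ), P = J.powerset.filter
      (fun t => (1 - η / 3) * w0 Q (insert 0 H₀) x ≤ t.card ∧ (t.card : ℝ) ≤ (1 + η / 3) * w0 Q (insert 0 H₀) x) := ⟨_, rfl⟩
    obtain ⟨B', hB'⟩ : ∃ B' : Finset ℕ → Set Ω, B' = fun t => {ω | ∀ j ∈ GG k (W x), nm A t (Uj Q α x (W x) a j) ω ≠ m x} :=
      ⟨_, rfl⟩
    obtain ⟨β, hβ⟩ : ∃ β, β = 1 / (x : ℝ) ^ 2 + 1 / (x : ℝ) ^ 2 := ⟨_, rfl⟩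
    have hβ0 : 0 ≤ β := by rw [hβ]; positivity
    have hW1 : 1 ≤ W x := by
      have h7 : Real.exp (c' * Y) ≤ W x := by rw [hW, hY]; exact Nat.le_ceil _
      have h8 : (0 : ℝ) < W x := lt_of_lt_of_le (Real.exp_pos _) h7
      have h9 : 0 < W x := by exact_mod_cast h8
      exact h9
    have hWl : Real.exp (c' * Y) ≤ W x := by rw [hW, hY]; exact Nat.le_ceil _
    have hJr : ∀ n ∈ J, 1 ≤ n ∧ n ≤ x ∧ Good Q (insert 0 H₀) n := by
      intro n hn
      rw [hJ] at hn
      unfold JJ at hn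
      rw [mem_filter, mem_Icc] at hn
      exact ⟨hn.1.1, hn.1.2, hn.2⟩
    have hβt : ∀ t ∈ P, μ.real (B' t) ≤ β := by
      intro t ht
      rw [hP, mem_filter, mem_powerset] at ht
      obtain ⟨htJ, ht1, ht2⟩ := ht
      have hwP : (1 - η) * l x ≤ t.card * q ^ k := by
        have h7 := mul_le_mul_of_nonneg_right ht1 (show 0 ≤ q ^ k by positivity)
        rw [mul_assoc, ← hlw] at h7
        have h8 : η / 3 * l x ≤ η * l x := mul_le_mul_of_nonneg_right (by linarith) hl0.le
        linarith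
      have hwPu : t.card * q ^ k ≤ (1 + η / 3) * l x := by
        have h7 := mul_le_mul_of_nonneg_right ht2 (show 0 ≤ q ^ k by positivity)
        rw [mul_assoc, ← hlw] at h7
        exact h7
      have hwP' : t.card * q' ^ k ≤ (1 + η) * l x := by
        have h7 : q' ^ k = q ^ k * (c / c') ^ k := by
          rw [← mul_pow, hqd, hq'd]
          congr 1
          field_simp
        rw [h7, ← mul_assoc]
        have h8 : t.card * q ^ k * (c / c') ^ k ≤ (1 + η / 3) * l x * (1 + η / 3) := by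
          refine mul_le_mul hwPu (hc'4.trans (by linarith)) (by positivity) (by positivity)
        refine h8.trans ?_
        have h9 : (1 + η / 3) * (1 + η / 3) ≤ 1 + η := by nlinarith
        nlinarith
      have hPP : q ^ k ≤ q' ^ k := pow_le_pow_left₀ hq0.le hqq' k
      have hP'η : q' ^ k ≤ η := by
        have h7 : q' ^ k ≤ q' := pow_le_of_le_one hq'0.le hq'1.le (by omega)
        linarith
      have hwr : t.card * q' ^ (k + 1) ≤ η * l x := by
        rw [pow_succ, ← mul_assoc]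
        have h8 : t.card * q' ^ k * q' ≤ (1 + η) * l x * (η / 2) := mul_le_mul hwP' hq'η hq'0.le (by positivity)
        refine h8.trans ?_
        nlinarith [mul_nonneg hη0.le hl0.le]
      have hmu : (m x : ℝ) ≤ u * l x := by rw [hm]; exact Nat.floor_le (by positivity)
      have hmw : (m x : ℝ) ≤ η * t.card := by
        have hqk : q ^ k ≤ q' := by
          have h7 : q ^ k ≤ q := pow_le_of_le_one hq0.le (by linarith) (by omega)
          linarith
        have h7 : u * l x * q ^ k ≤ η * t.card * q ^ k := by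
          calc u * l x * q ^ k ≤ u * l x * q' := mul_le_mul_of_nonneg_left hqk (by positivity)
            _ = (u * q') * l x := by ring
            _ ≤ (η / 2) * l x := mul_le_mul_of_nonneg_right huq' hl0.le
            _ ≤ η * ((1 - η) * l x) := by nlinarith [mul_nonneg hη0.le hl0.le]
            _ ≤ η * (t.card * q ^ k) := mul_le_mul_of_nonneg_left hwP hη0.le
            _ = η * t.card * q ^ k := by ring
        exact hmu.trans (le_of_mul_le_mul_right h7 (by positivity))
      obtain ⟨hlo, z, g, hz, hzm, hg1, hg2, hbb⟩ := hasy t.card (m x) (l x) (q ^ k) (q' ^ k) (q' ^ (k + 1))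
        (by have : 0 < 2 / ε₂ := by positivity
            linarith) (by rw [hm]) hwP hwP' (by positivity) hPP hP'η (by positivity) hwr hmw
      have hmt : m x ≤ t.card := by
        have h7 : (m x : ℝ) ≤ t.card := by
          have : (0 : ℝ) ≤ t.card := Nat.cast_nonneg _
          nlinarith
        exact_mod_cast h7
      have hwin := win (μ := μ) (A := A) (p := level Q) (α := α) (x := x) (W := W x) (a := a) hA hQ haα hW1 (t := t)
        (fun n hn => ⟨(hJr n (htJ hn)).1, (hJr n (htJ hn)).2.1⟩) (q := q) (q' := q') (z := z) (g := g) hq0 hq'1 (by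
          intro n hn i j hj
          obtain ⟨hn1, hn2, hng⟩ := hJr n (htJ hn)
          obtain ⟨hs1, hs2⟩ := hsh i j hj
          have hnx : (n : ℝ) ≤ x := by exact_mod_cast hn2
          have hn0 : (0 : ℝ) ≤ n := Nat.cast_nonneg n
          have hco : (n + shf Q α x (W x) a i j).Coprime Q := by
            have h7 : n + shf Q α x (W x) a i j = (n + a i) + Q * ((x + 1 + α) * (W x * (i.1 + 1) + j)) := by
              unfold shf
              ring
            rw [h7, Nat.coprime_add_mul_left_left]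
            exact hng _ (mem_insert_of_mem (haH i))
          have hlc' : Real.log (Real.exp (c' * Y)) = c' * Y := Real.log_exp _
          have hlc : Real.log (Real.exp (c * Y)) = c * Y := Real.log_exp _
          have hc'Y : 0 < c' * Y := by positivity
          have hqc : qq Q ≤ c' * Y := by
            have h7 : q' ≤ 1 := hq'1.le
            rw [hq'd, div_le_one hc'Y] at h7
            exact h7
          constructor
          · have h7 := le_level (Q := Q) (m := n + shf Q α x (W x) a i j) (x := Real.exp (c' * Y)) (y := Real.exp (c * Y))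
              (by rw [hlc']; exact hqc) (by rw [hlc']; exact hc'Y) (Real.exp_pos _) (by push_cast; linarith)
              (by push_cast; linarith) hco
            rw [hlc] at h7
            rw [hqd]
            exact h7
          · have h7 := level_le (Q := Q) (m := n + shf Q α x (W x) a i j) (x := Real.exp (c' * Y))
              (by rw [hlc']; exact hc'Y) (Real.exp_pos _) (by push_cast; linarith)
            rw [hlc'] at h7
            rw [hq'd]
            exact h7) hk hz hzm hmt (by linarith) (by linarith) hq'0.le rfl rfl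
      rw [hB']
      refine hwin.trans ?_
      obtain ⟨lo, hlod⟩ : ∃ lo, lo = (t.card.choose (m x) : ℝ) * (q ^ k) ^ (m x) * (1 - q' ^ k) ^ t.card := ⟨_, rfl⟩
      obtain ⟨b, hbd⟩ : ∃ b, b = Real.exp (t.card * g) / z ^ (2 * m x) := ⟨_, rfl⟩
      rw [← hlod] at hlo ⊢
      rw [← hbd] at hbb ⊢
      have hlo0 : 0 < lo := lt_of_lt_of_le (Real.exp_pos _) hlo
      have hW0 : (0 : ℝ) < W x := by exact_mod_cast hW1
      rw [hβ]
      refine add_le_add ?_ ?_
      · refine le_trans ?_ h4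
        rw [one_mul]
        have h7 : Real.exp (k * (c' * Y)) * Real.exp (-(l x * (II u + ε))) ≤ (W x : ℝ) ^ k * lo := by
          refine mul_le_mul ?_ hlo (Real.exp_pos _).le (by positivity)
          rw [Real.exp_nat_mul]
          exact pow_le_pow_left₀ (Real.exp_pos _).le hWl k
        rw [← Real.exp_add] at h7
        have h8 := one_div_le_one_div_of_le (Real.exp_pos _) h7
        refine h8.trans (le_of_eq ?_)
        rw [one_div, ← Real.exp_neg]
        congr 1
        rw [hδ₁, hlx']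
        ring
      · refine le_trans ?_ h5
        have h7 : k * (W x : ℝ) ^ (2 * k - 1) * b / ((W x : ℝ) ^ k * lo) ^ 2 = k * (b / lo ^ 2) * (W x : ℝ)⁻¹ := by
          have h8 : (W x : ℝ) ^ (2 * k - 1) * W x = ((W x : ℝ) ^ k) ^ 2 := by
            rw [← pow_mul, ← pow_succ]
            congr 1
            omega
          have h9 : (W x : ℝ) ^ (2 * k - 1) = ((W x : ℝ) ^ k) ^ 2 * (W x : ℝ)⁻¹ := by
            rw [← h8]
            field_simp
          rw [h9, mul_pow]
          have h10 : ((W x : ℝ) ^ k) ^ 2 ≠ 0 := by positivity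
          field_simp
        rw [h7]
        have h8 : b / lo ^ 2 ≤ Real.exp (4 * (l x * ε)) := by
          rw [div_le_iff₀ (by positivity)]
          have h9 : Real.exp (-(l x * (II u + ε))) ^ 2 ≤ lo ^ 2 := pow_le_pow_left₀ (Real.exp_pos _).le hlo 2
          have h10 : Real.exp (4 * (l x * ε)) * Real.exp (-(l x * (II u + ε))) ^ 2 ≤ Real.exp (4 * (l x * ε)) * lo ^ 2 :=
            mul_le_mul_of_nonneg_left h9 (Real.exp_pos _).le
          refine le_trans ?_ h10
          refine hbb.trans (le_of_eq ?_)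
          rw [← Real.exp_nat_mul, ← Real.exp_add]
          congr 1
          push_cast
          ring
        have h9 : (W x : ℝ)⁻¹ ≤ Real.exp (-(c' * Y)) := by
          rw [Real.exp_neg]
          exact inv_anti₀ (Real.exp_pos _) hWl
        have h10 : k * (b / lo ^ 2) * (W x : ℝ)⁻¹ ≤ k * Real.exp (4 * (l x * ε)) * Real.exp (-(c' * Y)) := by
          refine mul_le_mul (mul_le_mul_of_nonneg_left h8 hk0.le) h9 (by positivity) (by positivity)
        refine h10.trans (le_of_eq ?_)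
        rw [mul_assoc, ← Real.exp_add]
        congr 2
        rw [hδ₂, hlx']
        ring
    have hcond := cond (μ := μ) (A := A) hA J (Set.Ioi x) (by
      rw [Set.disjoint_left]
      intro n hn hn'
      have h7 := (hJr n hn).2.1
      have h8 : x < n := hn'
      omega) P (fun t ht => by
        rw [hP, mem_filter, mem_powerset] at ht
        exact ht.1) B' (fun t ht => by
        rw [hP, mem_filter, mem_powerset] at ht
        have htJ := ht.1
        have h7 : B' t = ⋂ j ∈ GG k (W x), {ω | nm A t (Uj Q α x (W x) a j) ω = m x}ᶜ := by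
          rw [hB']
          ext ω
          simp
        rw [h7]
        refine Finset.measurableSet_biInter _ (fun j hj => MeasurableSet.compl ?_)
        have h8 : Measurable[F A (Set.Ioi x)] (nm A t (Uj Q α x (W x) a j)) := by
          let _ : MeasurableSpace Ω := F A (Set.Ioi x)
          unfold nm
          refine Finset.measurable_fun_sum t (fun n hn => F_ind (fun b hb => ?_))
          obtain ⟨i, rfl⟩ := mem_Uj.1 hb
          have h9 := (hsh i (j i) (mem_GG.1 hj i)).1
          have h10 : x < n + shf Q α x (W x) a i (j i) := by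
            have hn1 := (hJr n (htJ hn)).1
            have h11 : x + 1 ≤ shf Q α x (W x) a i (j i) := by
              unfold shf
              have h12 : 1 ≤ W x * (i.1 + 1) + j i := by
                have := Nat.mul_pos hW1 (Nat.succ_pos i.1)
                have e : i.1.succ = i.1 + 1 := rfl
                rw [e] at this
                omega
              have h13 : x + 1 ≤ Q * (x + 1 + α) := by
                calc x + 1 ≤ x + 1 + α := Nat.le_add_right _ _
                  _ ≤ Q * (x + 1 + α) := Nat.le_mul_of_pos_left _ hQ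
              calc x + 1 ≤ Q * (x + 1 + α) := h13
                _ ≤ Q * (x + 1 + α) * (W x * (i.1 + 1) + j i) := Nat.le_mul_of_pos_right _ h12
                _ ≤ _ := Nat.le_add_left _ _
            omega
          exact h10
        exact h8 (measurableSet_singleton _)) hβt hβ0
    have hsub : B x ⊆ {ω | nm A (JJ Q (insert 0 H₀) x) (fun n => ({n} : Finset ℕ)) ω ≤ (1 - η / 3) * w0 Q (insert 0 H₀) x ∨
        (1 + η / 3) * w0 Q (insert 0 H₀) x ≤ nm A (JJ Q (insert 0 H₀) x) (fun n => ({n} : Finset ℕ)) ω} ∪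
        {ω | ∃ t ∈ P, (∀ n ∈ J, n ∈ A ω ↔ n ∈ t) ∧ ω ∈ B' t} := by
      intro ω hω
      rw [hB] at hω
      obtain ⟨hω1, hω2⟩ := hω
      by_cases htyp : nm A (JJ Q (insert 0 H₀) x) (fun n => ({n} : Finset ℕ)) ω ≤ (1 - η / 3) * w0 Q (insert 0 H₀) x ∨
        (1 + η / 3) * w0 Q (insert 0 H₀) x ≤ nm A (JJ Q (insert 0 H₀) x) (fun n => ({n} : Finset ℕ)) ω
      · exact Or.inl htyp
      · right
        push Not at htyp
        rw [nm_card] at htyp
        refine ⟨trc A J ω, ?_, ?_, ?_⟩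
        · rw [hP, mem_filter, mem_powerset]
          refine ⟨fun n hn => (mem_trc.1 hn).1, ?_, ?_⟩
          · rw [hJ]
            exact htyp.1.le
          · rw [hJ]
            exact htyp.2.le
        · intro n hn
          rw [mem_trc]
          exact ⟨fun h => ⟨hn, h⟩, fun h => h.2⟩
        · rw [hB']
          intro j hj
          have h7 := hω2 j hj
          rw [NN_eq haH haH' hω1, ← hJ] at h7
          exact h7
    refine (measureReal_mono hsub (measure_ne_top _ _)).trans ((measureReal_union_le _ _).trans ?_)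
    refine (add_le_add h6 hcond).trans (le_of_eq ?_)
    rw [hβ]
    ring
  filter_upwards [bc (summable_sq.mul_left 3) hbound, ae_coprime hA] with ω hω hω2
  filter_upwards [hω, fsh, f3] with x hx hsh h3
  obtain ⟨hx1, hlx, hY0, hsh⟩ := hsh
  have hex : ∃ j ∈ GG k (W x), NN A (insert 0 (Hj Q α x (W x) a j)) x ω = m x := by
    by_contra hcon
    push Not at hcon
    apply hx
    rw [hB]
    exact ⟨hω2, hcon⟩
  obtain ⟨j, hj, hNN⟩ := hex
  have hx0 : (0 : ℝ) < x := by exact_mod_cast hx1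
  have hlx0 : 0 < Real.log x := by linarith
  have hcardH := Hj_card (Q := Q) (α := α) (x := x) (W := W x) (a := a) hQ haα hx1 hj
  have h0H : 0 ∉ Hj Q α x (W x) a j := by
    intro h
    obtain ⟨i, hi⟩ := mem_Hj.1 h
    have h4 := (hsh i (j i) (mem_GG.1 hj i)).1
    rw [← hi] at h4
    have := Real.exp_pos (c' * YY k x)
    norm_num at h4
    linarith
  have hgood : ∀ n, Good Q (insert 0 (Hj Q α x (W x) a j)) n ↔ Good Q (insert 0 H₀) n := good_iff haH haH'
  have hsing : sing Q (insert 0 (Hj Q α x (W x) a j)) = sing Q (insert 0 H₀) := by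
    rw [sing_eq, sing_eq, card_insert_of_notMem h0H, card_insert_of_notMem h0, hcardH, hH₀]
    have h4 : cc Q (insert 0 (Hj Q α x (W x) a j)) = cc Q (insert 0 H₀) := by
      unfold cc
      congr 1
      refine filter_congr (fun n _ => hgood n)
    rw [h4]
  have hlog : ∀ h ∈ Hj Q α x (W x) a j, c' * YY k x ≤ Real.log ((x : ℝ) + h) ∧ Real.log ((x : ℝ) + h) ≤ c * YY k x := by
    intro h hh
    obtain ⟨i, rfl⟩ := mem_Hj.1 hh
    obtain ⟨h4, h5⟩ := hsh i (j i) (mem_GG.1 hj i)
    constructor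
    · have h6 := Real.log_le_log (Real.exp_pos _) (show Real.exp (c' * YY k x) ≤ (x : ℝ) + shf Q α x (W x) a i (j i) by linarith)
      rwa [Real.log_exp] at h6
    · have h6 := Real.log_le_log (by linarith [Real.exp_pos (c' * YY k x)]) h5
      rwa [Real.log_exp] at h6
  have hc'Y : 0 < c' * YY k x := by positivity
  have hLL : Real.log x * (c' * YY k x) ^ k ≤ LL (insert 0 (Hj Q α x (W x) a j)) x ∧
      LL (insert 0 (Hj Q α x (W x) a j)) x ≤ Real.log x * (c * YY k x) ^ k := by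
    unfold LL
    rw [prod_insert h0H]
    push_cast
    rw [add_zero]
    constructor
    · refine mul_le_mul_of_nonneg_left ?_ hlx0.le
      calc (c' * YY k x) ^ k = ∏ _h ∈ Hj Q α x (W x) a j, (c' * YY k x) := by rw [prod_const, hcardH]
        _ ≤ _ := prod_le_prod (fun _ _ => hc'Y.le) (fun h hh => (hlog h hh).1)
    · refine mul_le_mul_of_nonneg_left ?_ hlx0.le
      calc ∏ h ∈ Hj Q α x (W x) a j, Real.log ((x : ℝ) + h) ≤ ∏ _h ∈ Hj Q α x (W x) a j, (c * YY k x) :=
            prod_le_prod (fun h hh => hc'Y.le.trans (hlog h hh).1) (fun h hh => (hlog h hh).2)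
        _ = (c * YY k x) ^ k := by rw [prod_const, hcardH]
  have hpw : YY k x ^ (k + 1) = (x : ℝ) / Real.log x := YY_pow k x
  have hform : ∀ d : ℝ, 0 < d → s * x / (Real.log x * (d * YY k x) ^ k) = s * YY k x / d ^ k := by
    intro d hd
    have h4 : s * x / (Real.log x * (d * YY k x) ^ k) = s * (x / Real.log x) / (d * YY k x) ^ k := by
      rw [mul_div_assoc s, mul_div_assoc s, div_div]
    rw [h4, ← hpw, mul_pow d (YY k x) k, pow_succ, mul_comm (YY k x ^ k) (YY k x), ← mul_assoc,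
      mul_div_mul_right _ _ (by positivity)]
  have hLp : 0 < LL (insert 0 (Hj Q α x (W x) a j)) x := LL_pos hlx
  have hMlo : l x ≤ MM Q (insert 0 (Hj Q α x (W x) a j)) x := by
    unfold MM
    rw [hsing, ← hsd, hl]
    show s * YY k x / c ^ k ≤ s * x / LL (insert 0 (Hj Q α x (W x) a j)) x
    rw [← hform c hc]
    exact div_le_div_of_nonneg_left (by positivity) hLp hLL.2
  have hMhi : MM Q (insert 0 (Hj Q α x (W x) a j)) x ≤ (1 + η') * l x := by
    have h4 : MM Q (insert 0 (Hj Q α x (W x) a j)) x ≤ s * YY k x / c' ^ k := by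
      unfold MM
      rw [hsing, ← hsd, ← hform c' hc'0]
      exact div_le_div_of_nonneg_left (by positivity) (by positivity) hLL.1
    refine h4.trans ?_
    have h5 : s * YY k x / c' ^ k = (c / c') ^ k * l x := by
      rw [hl, div_pow]
      field_simp
    rw [h5]
    refine mul_le_mul_of_nonneg_right hc'4 ?_
    rw [hl]
    positivity
  have hl2 : 2 / ε₂ ≤ l x := by
    rw [hl]
    show 2 / ε₂ ≤ s * YY k x / c ^ k
    rw [le_div_iff₀ (by positivity)]
    have h7 := mul_le_mul_of_nonneg_right h3 hs.le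
    have h8 : (Λ + 2 / ε₂) * (c ^ k / s) * s = (Λ + 2 / ε₂) * c ^ k := by field_simp
    have h9 : 0 ≤ Λ * c ^ k := by positivity
    linarith
  have hl0 : 0 < l x := lt_of_lt_of_le (by positivity) hl2
  have hm1 : (m x : ℝ) ≤ u * l x := by rw [hm]; exact Nat.floor_le (by positivity)
  have hm2 : u * l x - 1 ≤ m x := by rw [hm]; exact (Nat.sub_one_lt_floor _).le
  have hone : 1 ≤ ε₂ / 2 * l x := by
    rw [div_le_iff₀ hε₂] at hl2
    linarith
  refine ⟨Hj Q α x (W x) a j, hcardH, h0H, ?_, hgood, hsing, ?_, ?_⟩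
  · intro h hh
    obtain ⟨i, rfl⟩ := mem_Hj.1 hh
    have := (hsh i (j i) (mem_GG.1 hj i)).2
    linarith
  · rw [hNN]
    exact hm1.trans (mul_le_mul_of_nonneg_left hMlo hu)
  · rw [hNN]
    obtain ⟨M, hMd⟩ : ∃ M, M = MM Q (insert 0 (Hj Q α x (W x) a j)) x := ⟨_, rfl⟩
    rw [← hMd] at hMlo hMhi ⊢
    have h4 : u * M ≤ u * ((1 + η') * l x) := mul_le_mul_of_nonneg_left hMhi hu
    have h5 : u * η' * l x ≤ ε₂ / 2 * l x := mul_le_mul_of_nonneg_right hη'2 hl0.le
    have h6 : ε₂ * l x ≤ ε₂ * M := mul_le_mul_of_nonneg_left hMlo hε₂.le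
    nlinarith

end Pool.Agent.Q106.UR
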