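import Pool.Agent.Q106.UR.Up

/-!
# The mean number of tuples and the sum over conflicting pairs
-/

set_option autoImplicit false

namespace Pool.Agent.Q106.UR

open Finset MeasureTheory ProbabilityTheory Filter Pool.Agent.Q120.GM
open scoped Topology

/-- The product of the logarithms. -/
noncomputable def LL (S : Finset ℕ) (x : ℕ) : ℝ := ∏ h ∈ S, Real.log ((x : ℝ) + h)

/-- The predicted number. -/
noncomputable def MM (Q : ℕ) (S : Finset ℕ) (x : ℕ) : ℝ := sing Q S * x / LL S x

/-- The cut. -/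
noncomputable def yy (K x : ℕ) : ℕ := ⌈(x : ℝ) / Real.log x ^ (K + 1)⌉₊

/-- The probability of the tuple. -/
noncomputable def PP (Q : ℕ) (S : Finset ℕ) (n : ℕ) : ℝ := pT (level Q) (tl n S)

theorem PP_eq (Q : ℕ) (S : Finset ℕ) (n : ℕ) : PP Q S n = ∏ h ∈ S, level Q (n + h) := prod_tl n S _

theorem PP_nonneg (Q : ℕ) (S : Finset ℕ) (n : ℕ) : 0 ≤ PP Q S n := prod_nonneg (fun _ _ => level_nonneg Q _)

theorem log_tendsto : Tendsto (fun x : ℕ => Real.log x) atTop atTop :=
  Real.tendsto_log_atTop.comp tendsto_natCast_atTop_atTop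

/-- `(log x)^a ≤ ε x` -/
theorem ev_log_pow (a : ℕ) {ε : ℝ} (hε : 0 < ε) : ∀ᶠ x : ℕ in atTop, Real.log x ^ a ≤ ε * x := by
  have h1 : (fun t : ℝ => Real.log t ^ a) =o[atTop] (fun t : ℝ => t) := by
    have := isLittleO_log_rpow_rpow_atTop (s := 1) (a : ℝ) one_pos
    simpa using this
  have h2 := (h1.comp_tendsto tendsto_natCast_atTop_atTop).def hε
  filter_upwards [h2, log_tendsto.eventually_ge_atTop 0] with x h3 h4
  simp only [Function.comp] at h3
  rw [Real.norm_of_nonneg (by positivity), Real.norm_of_nonneg (Nat.cast_nonneg x)] at h3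
  exact h3

/-- `B loglog x ≤ log x` -/
theorem ev_loglog (B : ℝ) : ∀ᶠ x : ℕ in atTop, B * Real.log (Real.log x) ≤ Real.log x := by
  have h1 := Real.isLittleO_log_id_atTop.comp_tendsto log_tendsto
  have h2 := h1.def (show (0 : ℝ) < 1 / (|B| + 1) by positivity)
  filter_upwards [h2, log_tendsto.eventually_ge_atTop 1] with x h3 h4
  simp only [Function.comp, id] at h3
  have h5 : 0 ≤ Real.log (Real.log x) := Real.log_nonneg h4
  rw [Real.norm_of_nonneg h5, Real.norm_of_nonneg (by linarith)] at h3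
  have h6 : (|B| + 1) * Real.log (Real.log x) ≤ Real.log x := by
    calc (|B| + 1) * Real.log (Real.log x) ≤ (|B| + 1) * (1 / (|B| + 1) * Real.log x) :=
          mul_le_mul_of_nonneg_left h3 (by positivity)
      _ = Real.log x := by field_simp
  have h7 : B ≤ |B| := le_abs_self B
  nlinarith

/-- The properties of the cut. -/
theorem yy_facts (K Q : ℕ) {ε B : ℝ} (hε : 0 < ε) : ∀ᶠ x : ℕ in atTop,
    1 ≤ Real.log x ∧ 1 ≤ yy K x ∧ (yy K x : ℝ) * Real.log x ^ K ≤ ε * x ∧ B ≤ Real.log (yy K x) ∧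
    Real.log x - Real.log (yy K x) ≤ ε * Real.log (yy K x) ∧ (yy K x : ℝ) + Q ≤ ε * x ∧ 1 ≤ Real.log (yy K x) := by
  obtain ⟨η, hη⟩ : ∃ η, η = ε / 4 := ⟨_, rfl⟩
  have hη0 : 0 < η := by rw [hη]; positivity
  filter_upwards [ev_log_pow K hη0, log_tendsto.eventually_ge_atTop 1, log_tendsto.eventually_ge_atTop (1 / η),
    log_tendsto.eventually_ge_atTop (2 * B), log_tendsto.eventually_ge_atTop 2,
    ev_loglog (((K : ℝ) + 1) * (2 + 2 / ε)), ev_log_pow 0 (show (0 : ℝ) < η / (Q + 1) by positivity),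
    eventually_gt_atTop 0] with x h1 h2 h3 h4 h5 h6 h7 hx0
  have hx : (0 : ℝ) < x := by exact_mod_cast hx0
  have hl0 : 0 < Real.log x := by linarith
  obtain ⟨l, hl⟩ : ∃ l, l = Real.log x := ⟨_, rfl⟩
  rw [← hl] at h1 h2 h3 h4 h5 h6 hl0 ⊢
  have hy1 : (x : ℝ) / l ^ (K + 1) ≤ yy K x := by
    unfold yy
    rw [← hl]
    exact Nat.le_ceil _
  have hy2 : (yy K x : ℝ) < (x : ℝ) / l ^ (K + 1) + 1 := by
    unfold yy
    rw [← hl]
    exact Nat.ceil_lt_add_one (by positivity)
  have hyp : (0 : ℝ) < yy K x := lt_of_lt_of_le (by positivity) hy1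
  have hy3 : 1 ≤ yy K x := by
    have : 0 < yy K x := by exact_mod_cast hyp
    omega
  have hlog : l - (K + 1) * Real.log l ≤ Real.log (yy K x) := by
    have h8 := Real.log_le_log (by positivity) hy1
    rw [Real.log_div hx.ne' (by positivity), Real.log_pow, ← hl] at h8
    push_cast at h8
    exact h8
  have hll : 0 ≤ Real.log l := Real.log_nonneg h2
  have h6a : 2 * ((K + 1) * Real.log l) ≤ l := by
    have : 0 ≤ ((K : ℝ) + 1) * (2 / ε) * Real.log l := by positivity
    nlinarith
  have h6b : (2 / ε) * ((K + 1) * Real.log l) ≤ l := by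
    have : 0 ≤ ((K : ℝ) + 1) * 2 * Real.log l := by positivity
    nlinarith
  have hlp : l ^ K * l = l ^ (K + 1) := (pow_succ l K).symm
  refine ⟨h2, hy3, ?_, by linarith, ?_, ?_, by linarith⟩
  · have h9 : (yy K x : ℝ) * l ^ K ≤ (x / l ^ (K + 1) + 1) * l ^ K := mul_le_mul_of_nonneg_right hy2.le (by positivity)
    have h10 : (x / l ^ (K + 1) + 1) * l ^ K = x / l + l ^ K := by
      rw [← hlp]
      field_simp
    have h11 : (x : ℝ) / l ≤ η * x := by
      rw [div_le_iff₀ hl0]
      have : 1 ≤ η * l := by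
        rw [div_le_iff₀ hη0] at h3
        linarith
      nlinarith
    nlinarith
  · have h12 : l - Real.log (yy K x) ≤ (K + 1) * Real.log l := by linarith
    have h13 : (K + 1) * Real.log l ≤ ε / 2 * l := by
      have h14 := mul_le_mul_of_nonneg_left h6b (show 0 ≤ ε / 2 by positivity)
      have h15 : ε / 2 * ((2 / ε) * ((K + 1) * Real.log l)) = (K + 1) * Real.log l := by field_simp
      linarith
    have h16 : l / 2 ≤ Real.log (yy K x) := by linarith
    nlinarith
  · have h17 : (x : ℝ) / l ^ (K + 1) ≤ x / l := by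
      refine div_le_div_of_nonneg_left hx.le hl0 ?_
      exact le_self_pow₀ h2 (by omega)
    have h11 : (x : ℝ) / l ≤ η * x := by
      rw [div_le_iff₀ hl0]
      have : 1 ≤ η * l := by
        rw [div_le_iff₀ hη0] at h3
        linarith
      nlinarith
    have h18 : (Q : ℝ) + 1 ≤ η * x := by
      rw [pow_zero] at h7
      have h19 := mul_le_mul_of_nonneg_left h7 (show (0 : ℝ) ≤ Q + 1 by positivity)
      have h20 : ((Q : ℝ) + 1) * (η / (Q + 1) * x) = η * x := by field_simp
      linarith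
    have : 0 ≤ η * x := by positivity
    nlinarith

theorem level_log {Q n h x : ℕ} (hn : 1 ≤ n) (hx : 1 ≤ Real.log x) :
    level Q (n + h) * Real.log ((x : ℝ) + h) ≤ 2 * (1 + qq Q) * Real.log x := by
  have hq : 0 ≤ qq Q := by unfold qq; positivity
  have hx0 : (0 : ℝ) < x := by
    rcases Nat.eq_zero_or_pos x with h0 | h0
    · rw [h0] at hx
      norm_num at hx
    · exact_mod_cast h0
  have hx2 : (2 : ℝ) ≤ x := by
    have h1 := Real.log_le_sub_one_of_pos hx0
    linarith
  have hlog2 : Real.log 2 ≤ Real.log x := Real.log_le_log (by norm_num) hx2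
  by_cases hh : h ≤ x
  · have h1 : level Q (n + h) ≤ 1 := level_le_one Q _
    have h2 : Real.log ((x : ℝ) + h) ≤ 2 * Real.log x := by
      have h3 : (x : ℝ) + h ≤ 2 * x := by
        have : (h : ℝ) ≤ x := by exact_mod_cast hh
        linarith
      have h4 := Real.log_le_log (by positivity) h3
      rw [Real.log_mul (by norm_num) hx0.ne'] at h4
      linarith
    have h3 : 0 ≤ Real.log ((x : ℝ) + h) := Real.log_nonneg (by
      have : (0 : ℝ) ≤ h := Nat.cast_nonneg h
      linarith)
    calc level Q (n + h) * Real.log ((x : ℝ) + h) ≤ 1 * Real.log ((x : ℝ) + h) := mul_le_mul_of_nonneg_right h1 h3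
      _ ≤ 2 * (1 + qq Q) * Real.log x := by nlinarith
  · have hxh : (x : ℝ) ≤ h := by
      have : x < h := by omega
      exact_mod_cast this.le
    have hh0 : (0 : ℝ) < h := by linarith
    have h1 : level Q (n + h) ≤ qq Q / Real.log h := by
      refine level_le (x := (h : ℝ)) ?_ hh0 (by push_cast; linarith [Nat.cast_nonneg (α := ℝ) n])
      have := Real.log_le_log hx0 hxh
      linarith
    have hlh : 0 < Real.log h := by
      have := Real.log_le_log hx0 hxh
      linarith
    have h2 : Real.log ((x : ℝ) + h) ≤ 2 * Real.log h := by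
      have h3 : (x : ℝ) + h ≤ 2 * h := by linarith
      have h4 := Real.log_le_log (by positivity) h3
      rw [Real.log_mul (by norm_num) hh0.ne'] at h4
      have h5 : Real.log 2 ≤ Real.log h := Real.log_le_log (by norm_num) (by linarith)
      linarith
    have h3 : 0 ≤ Real.log ((x : ℝ) + h) := Real.log_nonneg (by linarith)
    calc level Q (n + h) * Real.log ((x : ℝ) + h) ≤ qq Q / Real.log h * (2 * Real.log h) := by
          refine mul_le_mul h1 h2 h3 (by positivity)
      _ = 2 * qq Q := by field_simp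
      _ ≤ 2 * (1 + qq Q) * Real.log x := by nlinarith

theorem LL_pos {S : Finset ℕ} {x : ℕ} (hx : 1 ≤ Real.log x) : 0 < LL S x := by
  have hx0 : (0 : ℝ) < x := by
    rcases Nat.eq_zero_or_pos x with h0 | h0
    · rw [h0] at hx
      norm_num at hx
    · exact_mod_cast h0
  refine prod_pos (fun h _ => ?_)
  have h1 : Real.log x ≤ Real.log ((x : ℝ) + h) := Real.log_le_log hx0 (by
    have : (0 : ℝ) ≤ h := Nat.cast_nonneg h
    linarith)
  linarith

theorem PP_LL_le {Q n x : ℕ} (hn : 1 ≤ n) (hx : 1 ≤ Real.log x) (S : Finset ℕ) :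
    PP Q S n * LL S x ≤ (2 * (1 + qq Q)) ^ S.card * Real.log x ^ S.card := by
  have hx0 : (0 : ℝ) < x := by
    rcases Nat.eq_zero_or_pos x with h0 | h0
    · rw [h0] at hx
      norm_num at hx
    · exact_mod_cast h0
  have hx2 : (1 : ℝ) ≤ x := by
    have h1 := Real.log_le_sub_one_of_pos hx0
    linarith
  rw [PP_eq, LL, ← prod_mul_distrib, ← mul_pow, ← prod_const]
  refine prod_le_prod (fun h _ => ?_) (fun h _ => level_log hn hx)
  refine mul_nonneg (level_nonneg _ _) (Real.log_nonneg ?_)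
  have : (0 : ℝ) ≤ h := Nat.cast_nonneg h
  linarith

/-- For the integers above the cut. -/
theorem PP_LL_up {Q n x y : ℕ} {ρ : ℝ} (hy1 : 1 ≤ Real.log y) (hny : y ≤ n) (hyx : y ≤ x)
    (hρ : Real.log x - Real.log y ≤ ρ * Real.log y) (S : Finset ℕ) :
    PP Q S n * LL S x ≤ if Good Q S n then (qq Q * (1 + ρ)) ^ S.card else 0 := by
  have hq : 0 ≤ qq Q := by unfold qq; positivity
  have hy0 : (0 : ℝ) < y := by
    rcases Nat.eq_zero_or_pos y with h0 | h0
    · rw [h0] at hy1
      norm_num at hy1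
    · exact_mod_cast h0
  have hyxr : (y : ℝ) ≤ x := by exact_mod_cast hyx
  have hx0 : (0 : ℝ) < x := by linarith
  split_ifs with hg
  · rw [PP_eq, LL, ← prod_mul_distrib, ← prod_const]
    refine prod_le_prod (fun h _ => ?_) (fun h _ => ?_)
    · refine mul_nonneg (level_nonneg _ _) (Real.log_nonneg ?_)
      have : (0 : ℝ) ≤ h := Nat.cast_nonneg h
      have h1 := Real.log_le_sub_one_of_pos hy0
      linarith
    · have hh : (0 : ℝ) ≤ h := Nat.cast_nonneg h
      have h1 : Real.log y ≤ Real.log ((y : ℝ) + h) := Real.log_le_log hy0 (by linarith)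
      have h2 : level Q (n + h) ≤ qq Q / Real.log ((y : ℝ) + h) := by
        refine level_le (by linarith) (by linarith) ?_
        push_cast
        have : (y : ℝ) ≤ n := by exact_mod_cast hny
        linarith
      have h3 : Real.log ((x : ℝ) + h) - Real.log ((y : ℝ) + h) ≤ Real.log x - Real.log y := by
        rw [← Real.log_div (by linarith) (by linarith), ← Real.log_div hx0.ne' hy0.ne']
        refine Real.log_le_log (by positivity) ?_
        rw [div_le_div_iff₀ (by linarith) hy0]
        nlinarith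
      have hρ0 : 0 ≤ ρ := by
        by_contra hcon
        push Not at hcon
        have h4 : Real.log y ≤ Real.log x := Real.log_le_log hy0 hyxr
        nlinarith
      have h4 : Real.log ((x : ℝ) + h) ≤ (1 + ρ) * Real.log ((y : ℝ) + h) := by nlinarith
      have h5 : 0 < Real.log ((y : ℝ) + h) := by linarith
      have h6 : 0 ≤ Real.log ((x : ℝ) + h) := Real.log_nonneg (by
        have h1 := Real.log_le_sub_one_of_pos hy0
        linarith)
      calc level Q (n + h) * Real.log ((x : ℝ) + h) ≤ qq Q / Real.log ((y : ℝ) + h) * ((1 + ρ) * Real.log ((y : ℝ) + h)) :=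
            mul_le_mul h2 h4 h6 (by positivity)
        _ = qq Q * (1 + ρ) := by field_simp
  · have h1 : PP Q S n = 0 := tuple_zero hg
    rw [h1, zero_mul]

theorem PP_LL_low {Q n x y : ℕ} (hqy : qq Q ≤ Real.log y) (hy1 : 1 ≤ Real.log y) (hny : y ≤ n) (hnx : n ≤ x) {S : Finset ℕ}
    (hg : Good Q S n) : qq Q ^ S.card ≤ PP Q S n * LL S x := by
  have hq : 0 ≤ qq Q := by unfold qq; positivity
  have hy0 : (0 : ℝ) < y := by
    rcases Nat.eq_zero_or_pos y with h0 | h0
    · rw [h0] at hy1
      norm_num at hy1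
    · exact_mod_cast h0
  have hyn : (y : ℝ) ≤ n := by exact_mod_cast hny
  have hnxr : (n : ℝ) ≤ x := by exact_mod_cast hnx
  rw [PP_eq, LL, ← prod_mul_distrib, ← prod_const]
  refine prod_le_prod (fun h _ => hq) (fun h hh => ?_)
  have hh0 : (0 : ℝ) ≤ h := Nat.cast_nonneg h
  have h1 : qq Q / Real.log ((x : ℝ) + h) ≤ level Q (n + h) := by
    refine le_level (x := (y : ℝ)) hqy (by linarith) hy0 ?_ ?_ (hg h hh)
    · push_cast
      linarith
    · push_cast
      linarith
  have h2 : 0 < Real.log ((x : ℝ) + h) := by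
    have := Real.log_le_log hy0 (show (y : ℝ) ≤ x + h by linarith)
    linarith
  rw [div_le_iff₀ h2] at h1
  exact h1

theorem sing_ge {Q : ℕ} (hQ : 1 ≤ Q) {S : Finset ℕ} (hs : 0 < sing Q S) : 1 / (Q : ℝ) ≤ sing Q S := by
  have hQ0 : (0 : ℝ) < Q := by exact_mod_cast hQ
  have hc : 1 ≤ cc Q S := by
    by_contra hcon
    have h0 : cc Q S = 0 := by omega
    unfold sing at hs
    rw [h0] at hs
    norm_num at hs
  have hq1 : 1 ≤ qq Q := by
    unfold qq
    have h1 : 0 < Nat.totient Q := Nat.totient_pos.2 hQ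
    have h2 : (0 : ℝ) < Nat.totient Q := by exact_mod_cast h1
    rw [le_div_iff₀ h2, one_mul]
    exact_mod_cast Nat.totient_le Q
  rw [sing_eq]
  have h1 : (1 : ℝ) ≤ cc Q S := by exact_mod_cast hc
  have h2 : 1 ≤ qq Q ^ S.card := one_le_pow₀ hq1
  calc 1 / (Q : ℝ) ≤ (cc Q S : ℝ) / Q := div_le_div_of_nonneg_right h1 hQ0.le
    _ = (cc Q S : ℝ) / Q * 1 := by ring
    _ ≤ (cc Q S : ℝ) / Q * qq Q ^ S.card := mul_le_mul_of_nonneg_left h2 (by positivity)

end Pool.Agent.Q106.UR
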