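import Pool.Agent.Q106.UR.Mean

/-!
# The mean number of tuples, uniformly in the tuple
-/

set_option autoImplicit false

namespace Pool.Agent.Q106.UR

open Finset MeasureTheory ProbabilityTheory Filter Pool.Agent.Q120.GM
open scoped Topology

theorem pT_mono {T U : Finset ℕ} (Q : ℕ) (h : T ⊆ U) : pT (level Q) U ≤ pT (level Q) T := by
  unfold pT
  rw [← prod_sdiff h]
  have h1 : ∏ i ∈ U \ T, level Q i ≤ 1 := prod_le_one (fun i _ => level_nonneg Q i) (fun i _ => level_le_one Q i)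
  have h2 : 0 ≤ ∏ i ∈ T, level Q i := prod_nonneg (fun i _ => level_nonneg Q i)
  nlinarith

theorem tl_ne {S : Finset ℕ} (hS : S.Nonempty) {i j : ℕ} (hij : i ≠ j) : ¬ tl j S ⊆ tl i S := by
  intro h
  have h1 : tl j S = tl i S := eq_of_subset_of_card_le h (by rw [card_tl, card_tl])
  have h2 : ∀ a : ℕ, ∑ m ∈ tl a S, m = a * S.card + ∑ m ∈ S, m := by
    intro a
    unfold tl
    rw [sum_image (fun _ _ _ _ h => add_right_injective a h), sum_add_distrib, sum_const, smul_eq_mul, mul_comm]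
  have h3 := h2 i
  have h4 := h2 j
  rw [h1, h3] at h4
  have h5 : 0 < S.card := card_pos.2 hS
  have h6 : i * S.card = j * S.card := by omega
  exact hij (Nat.eq_of_mul_eq_mul_right h5 h6)

theorem pair_le {Q : ℕ} {S : Finset ℕ} (hS : S.Nonempty) {i j : ℕ} (hij : i ≠ j) {x : ℝ} (hx : 0 < Real.log x)
    (hx0 : 0 < x) (hj : x ≤ j) : pT (level Q) (tl i S ∪ tl j S) ≤ PP Q S i * (qq Q / Real.log x) := by
  have h1 := tl_ne hS hij
  rw [Finset.not_subset] at h1
  obtain ⟨b, hb1, hb2⟩ := h1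
  have h2 : insert b (tl i S) ⊆ tl i S ∪ tl j S := by
    intro c hc
    rw [mem_insert] at hc
    rcases hc with rfl | hc
    · exact mem_union_right _ hb1
    · exact mem_union_left _ hc
  refine (pT_mono Q h2).trans ?_
  unfold pT PP
  rw [prod_insert hb2, mul_comm]
  unfold pT
  refine mul_le_mul_of_nonneg_left ?_ (prod_nonneg (fun i _ => level_nonneg Q i))
  rw [mem_tl] at hb1
  obtain ⟨h, _, rfl⟩ := hb1
  refine level_le hx hx0 ?_
  push_cast
  have : (0 : ℝ) ≤ h := Nat.cast_nonneg h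
  linarith

theorem conf_card (S : Finset ℕ) (J : Finset ℕ) (i : ℕ) :
    (J.filter (fun j => i ≠ j ∧ ¬ Disjoint (tl i S) (tl j S))).card ≤ S.card ^ 2 := by
  rw [sq, ← card_product]
  have h4 : J.filter (fun j => i ≠ j ∧ ¬ Disjoint (tl i S) (tl j S)) ⊆
      (S ×ˢ S).image (fun q : ℕ × ℕ => i + q.1 - q.2) := by
    intro l hl
    rw [mem_filter, Finset.not_disjoint_iff] at hl
    obtain ⟨_, _, b, hi1, hi2⟩ := hl
    rw [mem_tl] at hi1 hi2
    obtain ⟨c, hc, e1⟩ := hi1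
    obtain ⟨d, hd, e2⟩ := hi2
    rw [mem_image]
    exact ⟨(c, d), mem_product.2 ⟨hc, hd⟩, by show i + c - d = l; omega⟩
  exact (card_le_card h4).trans card_image_le

theorem cf_symm_sum (J : Finset ℕ) (S : Finset ℕ) (f : ℕ → ℝ) :
    ∑ e ∈ cf J (fun n => tl n S), f e.2 = ∑ e ∈ cf J (fun n => tl n S), f e.1 := by
  refine sum_nbij' (fun e => (e.2, e.1)) (fun e => (e.2, e.1)) ?_ ?_ ?_ ?_ ?_
  · intro e he
    unfold cf at he ⊢
    rw [mem_filter, mem_product] at he ⊢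
    exact ⟨⟨he.1.2, he.1.1⟩, he.2.1.symm, fun h => he.2.2 h.symm⟩
  · intro e he
    unfold cf at he ⊢
    rw [mem_filter, mem_product] at he ⊢
    exact ⟨⟨he.1.2, he.1.1⟩, he.2.1.symm, fun h => he.2.2 h.symm⟩
  · intro e _
    rfl
  · intro e _
    rfl
  · intro e _
    rfl

theorem cf_sum_le (J : Finset ℕ) (S : Finset ℕ) (f : ℕ → ℝ) (hf : ∀ n, 0 ≤ f n) :
    ∑ e ∈ cf J (fun n => tl n S), f e.1 ≤ (S.card : ℝ) ^ 2 * ∑ n ∈ J, f n := by
  rw [sum_cf, mul_sum]
  refine sum_le_sum (fun j _ => ?_)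
  simp only [sum_const, nsmul_eq_mul]
  refine mul_le_mul_of_nonneg_right ?_ (hf j)
  exact_mod_cast conf_card S J j

theorem exists_eps (K : ℕ) {B ε : ℝ} (hε : 0 < ε) : ∃ η, 0 < η ∧ η ≤ 1 ∧ η ≤ ε ∧ B * η + (1 + η) ^ K ≤ 1 + ε := by
  have h1 : Tendsto (fun η : ℝ => B * η + (1 + η) ^ K) (𝓝 0) (𝓝 1) := by
    have h2 : Continuous (fun η : ℝ => B * η + (1 + η) ^ K) := by fun_prop
    have h3 := h2.tendsto 0
    simpa using h3
  have h4 := h1.eventually_lt_const (show (1 : ℝ) < 1 + ε by linarith)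
  obtain ⟨r, hr, h5⟩ := Metric.eventually_nhds_iff.1 h4
  refine ⟨min (r / 2) (min 1 ε), by positivity, (min_le_right _ _).trans (min_le_left _ _),
    (min_le_right _ _).trans (min_le_right _ _), ?_⟩
  refine (h5 ?_).le
  rw [dist_zero_right, Real.norm_of_nonneg (by positivity)]
  exact (min_le_left _ _).trans_lt (by linarith)

theorem mean_facts {Q K : ℕ} (hQ : 1 ≤ Q) (hK : 1 ≤ K) {ε : ℝ} (hε : 0 < ε) : ∀ᶠ x : ℕ in atTop,
    1 ≤ Real.log x ∧ ∀ S : Finset ℕ, S.card = K → 0 < sing Q S →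
    0 < MM Q S x ∧ ∑ n ∈ Icc 1 x, PP Q S n ≤ (1 + ε) * MM Q S x ∧
    (1 - ε) * MM Q S x ≤ ∑ n ∈ Ico (yy K x) (x + 1), PP Q S n ∧
    ∑ e ∈ cf (Icc 1 x) (fun n => tl n S), pT (level Q) (tl e.1 S ∪ tl e.2 S) ≤ ε * MM Q S x ∧
    (∀ n ∈ Ico (yy K x) (x + 1), PP Q S n ≤ ε) ∧ 1 ≤ yy K x := by
  have hq := qq_pos hQ
  have hQ0 : (0 : ℝ) < Q := by exact_mod_cast hQ
  have hK0 : (1 : ℝ) ≤ K := by exact_mod_cast hK
  obtain ⟨C, hC⟩ : ∃ C, C = (2 * (1 + qq Q)) ^ K := ⟨_, rfl⟩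
  have hC0 : 0 < C := by rw [hC]; positivity
  -- the small parameters
  obtain ⟨η, hη0, hη1, hηε, hη⟩ := exists_eps (K + 1) (B := C * Q + (K : ℝ) ^ 2 * (2 + 2 * C * Q)) hε
  obtain ⟨θ, hθ⟩ : ∃ θ, θ = ε / ((K : ℝ) ^ 2 * ((1 + ε) + 2 * C * Q)) := ⟨_, rfl⟩
  have hθ0 : 0 < θ := by rw [hθ]; positivity
  obtain ⟨τ, hτ⟩ : ∃ τ, τ = min η θ := ⟨_, rfl⟩
  have hτ0 : 0 < τ := by rw [hτ]; exact lt_min hη0 hθ0
  have hτη : τ ≤ η := by rw [hτ]; exact min_le_left _ _
  have hτθ : τ ≤ θ := by rw [hτ]; exact min_le_right _ _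
  filter_upwards [yy_facts K Q (B := qq Q + qq Q / τ) hτ0] with x hx
  obtain ⟨hx1, hy1, hyl, hyB, hyd, hyQ, hly⟩ := hx
  refine ⟨hx1, fun S hS hs => ?_⟩
  have hx0 : (0 : ℝ) < x := by
    rcases Nat.eq_zero_or_pos x with h0 | h0
    · rw [h0] at hx1
      norm_num at hx1
    · exact_mod_cast h0
  have hyr : (yy K x : ℝ) ≤ x := by
    have : τ ≤ 1 := hτη.trans hη1
    nlinarith
  have hyx : yy K x ≤ x := by exact_mod_cast hyr
  have hy0 : (0 : ℝ) < yy K x := by exact_mod_cast hy1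
  have hL := LL_pos (S := S) hx1
  obtain ⟨L, hLd⟩ : ∃ L, L = LL S x := ⟨_, rfl⟩
  obtain ⟨s, hsd⟩ : ∃ s, s = sing Q S := ⟨_, rfl⟩
  have hsq : 1 / (Q : ℝ) ≤ s := by rw [hsd]; exact sing_ge hQ hs
  have hs1 : 1 ≤ Q * s := by
    rw [div_le_iff₀ hQ0] at hsq
    linarith
  have hSne : S.Nonempty := by
    rw [← card_pos, hS]
    omega
  have hM : MM Q S x * L = s * x := by
    unfold MM
    rw [← hLd, ← hsd]
    rw [← hLd] at hL
    field_simp
  rw [← hLd] at hL
  rw [← hsd] at hs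
  have hMpos : 0 < MM Q S x := by
    have : 0 < MM Q S x * L := by rw [hM]; positivity
    exact (pos_iff_pos_of_mul_pos this).2 hL
  have hpart1 : ∀ n ∈ Ico 1 (yy K x), PP Q S n * L ≤ C * Real.log x ^ K := by
    intro n hn
    rw [mem_Ico] at hn
    have := PP_LL_le (Q := Q) hn.1 hx1 S
    rw [hS, ← hC, ← hLd] at this
    exact this
  have hsum1 : (∑ n ∈ Ico 1 (yy K x), PP Q S n) * L ≤ C * (τ * x) := by
    rw [sum_mul]
    refine (sum_le_sum hpart1).trans ?_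
    rw [sum_const, nsmul_eq_mul, Nat.card_Ico]
    have h1 : ((yy K x - 1 : ℕ) : ℝ) ≤ yy K x := by exact_mod_cast Nat.sub_le _ _
    have h2 : 0 ≤ C * Real.log x ^ K := by positivity
    calc ((yy K x - 1 : ℕ) : ℝ) * (C * Real.log x ^ K) ≤ yy K x * (C * Real.log x ^ K) := mul_le_mul_of_nonneg_right h1 h2
      _ = C * (yy K x * Real.log x ^ K) := by ring
      _ ≤ C * (τ * x) := mul_le_mul_of_nonneg_left hyl hC0.le
  have hcnt := count_real hQ S (yy K x) (x + 1 - yy K x)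
  rw [show yy K x + (x + 1 - yy K x) = x + 1 by omega] at hcnt
  have hcast : (((x + 1 - yy K x : ℕ)) : ℝ) = x + 1 - yy K x := by
    rw [Nat.cast_sub (by omega)]
    push_cast
    ring
  rw [hcast] at hcnt
  have hsing : (cc Q S : ℝ) / Q * qq Q ^ K = s := by rw [hsd, sing_eq, hS]
  have hsum2 : (∑ n ∈ Ico (yy K x) (x + 1), PP Q S n) * L ≤ (1 + τ) ^ K * ((1 + τ) * (s * x)) := by
    rw [sum_mul]
    have h1 : ∀ n ∈ Ico (yy K x) (x + 1), PP Q S n * L ≤ if Good Q S n then (qq Q * (1 + τ)) ^ K else 0 := by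
      intro n hn
      rw [mem_Ico] at hn
      have := PP_LL_up (Q := Q) (n := n) (x := x) hly hn.1 hyx hyd S
      rw [hS, ← hLd] at this
      exact this
    refine (sum_le_sum h1).trans ?_
    rw [← sum_filter, sum_const, nsmul_eq_mul]
    have h2 : ((((Ico (yy K x) (x + 1)).filter (Good Q S)).card : ℕ) : ℝ) * (qq Q * (1 + τ)) ^ K ≤
        ((x + 1 - yy K x + Q) * ((cc Q S : ℝ) / Q)) * (qq Q * (1 + τ)) ^ K :=
      mul_le_mul_of_nonneg_right hcnt.2 (by positivity)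
    refine h2.trans ?_
    rw [mul_pow]
    have h3 : (x + 1 - yy K x + Q) * ((cc Q S : ℝ) / Q) * (qq Q ^ K * (1 + τ) ^ K) =
        (1 + τ) ^ K * ((x + 1 - yy K x + Q) * ((cc Q S : ℝ) / Q * qq Q ^ K)) := by ring
    rw [h3, hsing]
    refine mul_le_mul_of_nonneg_left ?_ (by positivity)
    have h4 : (1 : ℝ) ≤ yy K x := by exact_mod_cast hy1
    nlinarith
  have hsum3 : (1 - τ) * (s * x) ≤ (∑ n ∈ Ico (yy K x) (x + 1), PP Q S n) * L := by
    rw [sum_mul]
    have h1 : ∑ n ∈ (Ico (yy K x) (x + 1)).filter (Good Q S), qq Q ^ K ≤ ∑ n ∈ Ico (yy K x) (x + 1), PP Q S n * L := by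
      refine (sum_le_sum (fun n hn => ?_)).trans (sum_le_sum_of_subset_of_nonneg (filter_subset _ _) (fun n _ _ =>
        mul_nonneg (PP_nonneg _ _ _) hL.le))
      rw [mem_filter, mem_Ico] at hn
      have h2 : qq Q ≤ Real.log (yy K x) := by
        have : 0 ≤ qq Q / τ := by positivity
        linarith
      have := PP_LL_low (Q := Q) h2 hly hn.1.1 (show n ≤ x by omega) hn.2
      rw [hS, ← hLd] at this
      exact this
    refine le_trans ?_ h1
    rw [sum_const, nsmul_eq_mul]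
    have h2 : ((x + 1 - yy K x - Q) * ((cc Q S : ℝ) / Q)) * qq Q ^ K ≤
        ((((Ico (yy K x) (x + 1)).filter (Good Q S)).card : ℕ) : ℝ) * qq Q ^ K :=
      mul_le_mul_of_nonneg_right hcnt.1 (by positivity)
    refine le_trans ?_ h2
    rw [mul_assoc, hsing]
    nlinarith
  have hunion : Icc 1 x = Ico 1 (yy K x) ∪ Ico (yy K x) (x + 1) := by
    rw [Ico_union_Ico_eq_Ico hy1 (by omega)]
    ext n
    rw [mem_Icc, mem_Ico]
    omega
  have hsum4 : (∑ n ∈ Icc 1 x, PP Q S n) * L ≤ (1 + ε) * (s * x) := by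
    rw [hunion, sum_union (Ico_disjoint_Ico_consecutive _ _ _), add_mul]
    refine (add_le_add hsum1 hsum2).trans ?_
    have h1 : C * (τ * x) ≤ C * Q * τ * (s * x) := by
      have : 0 ≤ C * (τ * x) := by positivity
      nlinarith
    have h2 : (1 + τ) ^ K * ((1 + τ) * (s * x)) = (1 + τ) ^ (K + 1) * (s * x) := by ring
    have h3 : (1 + τ) ^ (K + 1) ≤ (1 + η) ^ (K + 1) := pow_le_pow_left₀ (by linarith) (by linarith) _
    have h4 : C * Q * τ + (1 + τ) ^ (K + 1) ≤ 1 + ε := by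
      have h5 : C * Q * τ ≤ C * Q * η := mul_le_mul_of_nonneg_left hτη (by positivity)
      have h6 : 0 ≤ (K : ℝ) ^ 2 * (2 + 2 * C * Q) * η := by positivity
      nlinarith
    have h5 : 0 < s * x := by positivity
    nlinarith
  refine ⟨hMpos, ?_, ?_, ?_, ?_, hy1⟩
  · rw [← mul_le_mul_iff_of_pos_right hL]
    calc (∑ n ∈ Icc 1 x, PP Q S n) * L ≤ (1 + ε) * (s * x) := hsum4
      _ = (1 + ε) * MM Q S x * L := by rw [← hM]; ring
  · rw [← mul_le_mul_iff_of_pos_right hL]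
    calc (1 - ε) * MM Q S x * L = (1 - ε) * (s * x) := by rw [← hM]; ring
      _ ≤ (1 - τ) * (s * x) := mul_le_mul_of_nonneg_right (by linarith) (by positivity)
      _ ≤ _ := hsum3
  · have h1 : ∀ e ∈ cf (Icc 1 x) (fun n => tl n S), pT (level Q) (tl e.1 S ∪ tl e.2 S) ≤
        PP Q S e.1 * τ + ((if e.1 < yy K x then PP Q S e.1 else 0) + (if e.2 < yy K x then PP Q S e.2 else 0)) := by
      intro e he
      unfold cf at he
      rw [mem_filter] at he
      have hp1 := PP_nonneg Q S e.1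
      have hp2 := PP_nonneg Q S e.2
      have h3 : 0 ≤ PP Q S e.1 * τ := by positivity
      by_cases h1 : e.1 < yy K x
      · rw [if_pos h1]
        have h2 : pT (level Q) (tl e.1 S ∪ tl e.2 S) ≤ PP Q S e.1 := pT_mono Q subset_union_left
        split_ifs <;> linarith
      · by_cases h2 : e.2 < yy K x
        · rw [if_pos h2, if_neg h1]
          have h2 : pT (level Q) (tl e.1 S ∪ tl e.2 S) ≤ PP Q S e.2 := pT_mono Q subset_union_right
          linarith
        · rw [if_neg h1, if_neg h2, add_zero, add_zero]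
          have h4 := pair_le (Q := Q) hSne he.2.1 (show 0 < Real.log (yy K x) by linarith) hy0
            (show (yy K x : ℝ) ≤ e.2 by exact_mod_cast not_lt.1 h2)
          refine h4.trans (mul_le_mul_of_nonneg_left ?_ hp1)
          rw [div_le_iff₀ (by linarith)]
          have h5 : qq Q / τ ≤ Real.log (yy K x) := by linarith
          rw [div_le_iff₀ hτ0] at h5
          linarith
    refine (sum_le_sum h1).trans ?_
    rw [sum_add_distrib, sum_add_distrib]
    have h2 := cf_sum_le (Icc 1 x) S (fun n => PP Q S n * τ) (fun n => mul_nonneg (PP_nonneg _ _ _) hτ0.le)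
    have h3 := cf_sum_le (Icc 1 x) S (fun n => if n < yy K x then PP Q S n else 0) (fun n => by
      split_ifs
      · exact PP_nonneg _ _ _
      · exact le_refl _)
    have h4 := cf_symm_sum (Icc 1 x) S (fun n => if n < yy K x then PP Q S n else 0)
    have h5 : ∑ n ∈ Icc 1 x, (if n < yy K x then PP Q S n else 0) = ∑ n ∈ Ico 1 (yy K x), PP Q S n := by
      rw [← sum_filter]
      refine sum_congr ?_ (fun _ _ => rfl)
      ext n
      rw [mem_filter, mem_Icc, mem_Ico]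
      omega
    rw [h4]
    rw [hS] at h2 h3
    rw [h5] at h3
    refine (add_le_add h2 (add_le_add h3 h3)).trans ?_
    rw [← mul_le_mul_iff_of_pos_right hL, ← sum_mul]
    have h6 : (((K : ℝ) ^ 2 * ((∑ n ∈ Icc 1 x, PP Q S n) * τ)) + ((K : ℝ) ^ 2 * ∑ n ∈ Ico 1 (yy K x), PP Q S n +
        (K : ℝ) ^ 2 * ∑ n ∈ Ico 1 (yy K x), PP Q S n)) * L = (K : ℝ) ^ 2 * (τ * ((∑ n ∈ Icc 1 x, PP Q S n) * L) +
        2 * ((∑ n ∈ Ico 1 (yy K x), PP Q S n) * L)) := by ring
    rw [h6]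
    have h7 : τ * ((∑ n ∈ Icc 1 x, PP Q S n) * L) + 2 * ((∑ n ∈ Ico 1 (yy K x), PP Q S n) * L) ≤
        τ * ((1 + ε) * (s * x)) + 2 * (C * (τ * x)) := by
      have := mul_le_mul_of_nonneg_left hsum4 hτ0.le
      linarith
    refine (mul_le_mul_of_nonneg_left h7 (by positivity)).trans ?_
    have h8 : C * (τ * x) ≤ C * Q * τ * (s * x) := by
      have : 0 ≤ C * (τ * x) := by positivity
      nlinarith
    have h9 : ε * MM Q S x * L = ε * (s * x) := by rw [← hM]; ring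
    rw [h9]
    have h10 : (K : ℝ) ^ 2 * (τ * ((1 + ε) * (s * x)) + 2 * (C * (τ * x))) ≤
        (K : ℝ) ^ 2 * ((1 + ε) + 2 * C * Q) * τ * (s * x) := by
      have : (K : ℝ) ^ 2 * (τ * ((1 + ε) * (s * x)) + 2 * (C * (τ * x))) ≤
        (K : ℝ) ^ 2 * (τ * ((1 + ε) * (s * x)) + 2 * (C * Q * τ * (s * x))) :=
          mul_le_mul_of_nonneg_left (by linarith) (by positivity)
      refine this.trans (le_of_eq (by ring))
    refine h10.trans (mul_le_mul_of_nonneg_right ?_ (by positivity))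
    have h11 : (K : ℝ) ^ 2 * ((1 + ε) + 2 * C * Q) * τ ≤ (K : ℝ) ^ 2 * ((1 + ε) + 2 * C * Q) * θ :=
      mul_le_mul_of_nonneg_left hτθ (by positivity)
    refine h11.trans (le_of_eq ?_)
    rw [hθ]
    field_simp
  · intro n hn
    rw [mem_Ico] at hn
    obtain ⟨h, hh⟩ := hSne
    have h1 : PP Q S n ≤ level Q (n + h) := by
      have h2 : ({n + h} : Finset ℕ) ⊆ tl n S := by
        rw [singleton_subset_iff, mem_tl]
        exact ⟨h, hh, rfl⟩
      have h3 := pT_mono Q h2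
      unfold pT at h3
      rw [prod_singleton] at h3
      exact h3
    refine h1.trans ?_
    have h2 : level Q (n + h) ≤ qq Q / Real.log (yy K x) := by
      refine level_le (by linarith) hy0 ?_
      push_cast
      have h3 : (yy K x : ℝ) ≤ n := by exact_mod_cast hn.1
      have : (0 : ℝ) ≤ h := Nat.cast_nonneg h
      linarith
    refine h2.trans ?_
    rw [div_le_iff₀ (by linarith)]
    have h5 : qq Q / τ ≤ Real.log (yy K x) := by linarith
    rw [div_le_iff₀ hτ0] at h5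
    have h6 : τ ≤ ε := hτη.trans hηε
    have h7 : Real.log (yy K x) * τ ≤ Real.log (yy K x) * ε := mul_le_mul_of_nonneg_left h6 (by linarith)
    linarith

end Pool.Agent.Q106.UR
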