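import Pool.Agent.Q106.UR.Sec

/-!
# Many shifts in disjoint windows
-/

set_option autoImplicit false

namespace Pool.Agent.Q106.UR

open Finset MeasureTheory ProbabilityTheory Filter Pool.Agent.Q120.GM

variable {Ω : Type*} [MeasurableSpace Ω] {μ : Measure Ω} [IsProbabilityMeasure μ] {A : Ω → Set ℕ}

/-- The shifts. -/
def shf {k : ℕ} (Q α x W : ℕ) (a : Fin k → ℕ) (i : Fin k) (j : ℕ) : ℕ :=
  a i + Q * (x + 1 + α) * (W * (i.1 + 1) + j)

/-- The shifted points. -/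
def Uj {k : ℕ} (Q α x W : ℕ) (a : Fin k → ℕ) (j : Fin k → ℕ) (n : ℕ) : Finset ℕ :=
  univ.image (fun i : Fin k => n + shf Q α x W a i (j i))

/-- The choices of the shifts. -/
def GG (k W : ℕ) : Finset (Fin k → ℕ) := Fintype.piFinset (fun _ : Fin k => range W)

variable {k Q α x W : ℕ} {a : Fin k → ℕ}

theorem shf_inj (hQ : 1 ≤ Q) (ha : ∀ i, a i ≤ α) {n n' : ℕ} (hn : 1 ≤ n) (hnx : n ≤ x) (hn' : 1 ≤ n') (hnx' : n' ≤ x)
    {i i' : Fin k} {j j' : ℕ} (hj : j < W) (hj' : j' < W)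
    (h : n + shf Q α x W a i j = n' + shf Q α x W a i' j') : i = i' ∧ j = j' ∧ n = n' := by
  unfold shf at h
  obtain ⟨R, hR⟩ : ∃ R, R = x + 1 + α := ⟨_, rfl⟩
  obtain ⟨v, hv⟩ : ∃ v, v = W * (i.1 + 1) + j := ⟨_, rfl⟩
  obtain ⟨v', hv'⟩ : ∃ v', v' = W * (i'.1 + 1) + j' := ⟨_, rfl⟩
  rw [← hR, ← hv, ← hv'] at h
  have key : ∀ u u' : ℕ, u < u' → Q * R * u + R ≤ Q * R * u' := by
    intro u u' huu
    calc Q * R * u + R ≤ Q * R * u + Q * R := Nat.add_le_add_left (Nat.le_mul_of_pos_left R hQ) _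
      _ = Q * R * (u + 1) := by ring
      _ ≤ Q * R * u' := Nat.mul_le_mul_left _ huu
  have h1 := ha i
  have h2 := ha i'
  have hvv : v = v' := by
    rcases lt_trichotomy v v' with hlt | heq | hgt
    · have := key v v' hlt
      omega
    · exact heq
    · have := key v' v hgt
      omega
  have hW : 0 < W := by omega
  have h3 : i.1 + 1 = i'.1 + 1 := by
    have e1 : v / W = i.1 + 1 := by
      rw [hv, Nat.mul_add_div hW, Nat.div_eq_of_lt hj, add_zero]
    have e2 : v' / W = i'.1 + 1 := by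
      rw [hv', Nat.mul_add_div hW, Nat.div_eq_of_lt hj', add_zero]
    rw [← e1, ← e2, hvv]
  have h4 : i = i' := Fin.ext (by omega)
  subst h4
  refine ⟨rfl, by omega, ?_⟩
  rw [hvv] at h
  omega

theorem mem_GG {j : Fin k → ℕ} : j ∈ GG k W ↔ ∀ i, j i < W := by
  unfold GG
  rw [Fintype.mem_piFinset]
  simp only [mem_range]

theorem card_GG : (GG k W).card = W ^ k := by
  unfold GG
  rw [Fintype.card_piFinset]
  simp

/-- The pairs with a common shift. -/
def shp (k W : ℕ) : Finset ((Fin k → ℕ) × (Fin k → ℕ)) :=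
  (GG k W ×ˢ GG k W).filter (fun e => ∃ i, e.1 i = e.2 i)

theorem card_shp : ((shp k W).card : ℝ) ≤ k * (W : ℝ) ^ (2 * k - 1) := by
  have h1 : shp k W ⊆ (univ : Finset (Fin k)).biUnion (fun i => (GG k W ×ˢ GG k W).filter (fun e => e.1 i = e.2 i)) := by
    intro e he
    unfold shp at he
    rw [mem_filter] at he
    obtain ⟨he, i, hi⟩ := he
    exact mem_biUnion.2 ⟨i, mem_univ i, mem_filter.2 ⟨he, hi⟩⟩
  have h2 : ∀ i : Fin k, ((GG k W ×ˢ GG k W).filter (fun e => e.1 i = e.2 i)).card ≤ W ^ (2 * k - 1) := by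
    intro i
    have hk : 1 ≤ k := by
      have := i.2
      omega
    have h3 : ((GG k W ×ˢ GG k W).filter (fun e => e.1 i = e.2 i)) ⊆
        (GG k W).biUnion (fun j => ((GG k W).filter (fun j' => j' i = j i)).image (fun j' => (j, j'))) := by
      intro e he
      rw [mem_filter, mem_product] at he
      rw [mem_biUnion]
      refine ⟨e.1, he.1.1, mem_image.2 ⟨e.2, mem_filter.2 ⟨he.1.2, he.2.symm⟩, rfl⟩⟩
    refine (card_le_card h3).trans ((card_biUnion_le_card_mul _ _ (W ^ (k - 1)) (fun j hj => ?_)).trans ?_)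
    · refine card_image_le.trans ?_
      have h4 := Fintype.card_filter_piFinset_const_eq_of_mem (ι := Fin k) (range W) i (x := j i)
        (mem_range.2 (mem_GG.1 hj i))
      unfold GG
      rw [h4]
      simp
    · rw [card_GG, ← pow_add]
      exact le_of_eq (by congr 1; omega)
  have h3 : (shp k W).card ≤ k * W ^ (2 * k - 1) := by
    refine (card_le_card h1).trans ((card_biUnion_le_card_mul _ _ _ (fun i _ => h2 i)).trans (le_of_eq ?_))
    simp
  exact_mod_cast h3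

theorem Uj_card (hQ : 1 ≤ Q) (ha : ∀ i, a i ≤ α) {n : ℕ} (hn : 1 ≤ n) (hnx : n ≤ x) {j : Fin k → ℕ} (hj : j ∈ GG k W) :
    (Uj Q α x W a j n).card = k := by
  unfold Uj
  rw [card_image_of_injective]
  · simp
  · intro i i' h
    exact (shf_inj hQ ha hn hnx hn hnx (mem_GG.1 hj i) (mem_GG.1 hj i') h).1

theorem mem_Uj {j : Fin k → ℕ} {n b : ℕ} : b ∈ Uj Q α x W a j n ↔ ∃ i, b = n + shf Q α x W a i (j i) := by
  unfold Uj
  rw [mem_image]
  constructor
  · rintro ⟨i, _, h⟩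
    exact ⟨i, h.symm⟩
  · rintro ⟨i, h⟩
    exact ⟨i, mem_univ i, h.symm⟩

theorem Uj_disj (hQ : 1 ≤ Q) (ha : ∀ i, a i ≤ α) {n n' : ℕ} (hn : 1 ≤ n) (hnx : n ≤ x) (hn' : 1 ≤ n') (hnx' : n' ≤ x)
    {j j' : Fin k → ℕ} (hj : j ∈ GG k W) (hj' : j' ∈ GG k W) (h : n ≠ n' ∨ ∀ i, j i ≠ j' i) :
    Disjoint (Uj Q α x W a j n) (Uj Q α x W a j' n') := by
  rw [Finset.disjoint_left]
  intro b hb hb'
  rw [mem_Uj] at hb hb'
  obtain ⟨i, e⟩ := hb
  obtain ⟨i', e'⟩ := hb'
  obtain ⟨h1, h2, h3⟩ := shf_inj hQ ha hn hnx hn' hnx' (mem_GG.1 hj i) (mem_GG.1 hj' i') (e.symm.trans e')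
  subst h1
  rcases h with h | h
  · exact h h3
  · exact h i h2

/-- **The windows.** -/
theorem win {p : ℕ → ℝ} (hA : IsModel μ p A) (hQ : 1 ≤ Q) (ha : ∀ i, a i ≤ α) (hW : 1 ≤ W) {t : Finset ℕ}
    (ht : ∀ n ∈ t, 1 ≤ n ∧ n ≤ x) {q q' z g : ℝ} (hq : 0 < q) (hq1 : q' < 1)
    (hp : ∀ n ∈ t, ∀ i : Fin k, ∀ j < W, q ≤ p (n + shf Q α x W a i j) ∧ p (n + shf Q α x W a i j) ≤ q')
    (hk : 1 ≤ k) {m : ℕ} (hz : 0 ≤ z) (hzm : 0 < z ^ (2 * m)) (hm : m ≤ t.card)
    (hg1 : 2 * (z - 1) * q ^ k + (z - 1) ^ 2 * q' ^ (k + 1) ≤ g)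
    (hg2 : 2 * (z - 1) * q' ^ k + (z - 1) ^ 2 * q' ^ (k + 1) ≤ g) (hqq : 0 ≤ q') {lo b : ℝ}
    (hlo : lo = (t.card.choose m : ℝ) * (q ^ k) ^ m * (1 - q' ^ k) ^ t.card)
    (hb : b = Real.exp (t.card * g) / z ^ (2 * m)) :
    μ.real {ω | ∀ j ∈ GG k W, nm A t (Uj Q α x W a j) ω ≠ m} ≤
      1 / ((W : ℝ) ^ k * lo) + k * (W : ℝ) ^ (2 * k - 1) * b / ((W : ℝ) ^ k * lo) ^ 2 := by
  have hW0 : (0 : ℝ) < W := by exact_mod_cast hW
  have hq'k : q' ^ k < 1 := pow_lt_one₀ hqq hq1 (by omega)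
  have hlo0 : 0 < lo := by
    rw [hlo]
    have h1 : 0 < t.card.choose m := Nat.choose_pos hm
    have h2 : (0 : ℝ) < t.card.choose m := by exact_mod_cast h1
    have h3 : 0 < 1 - q' ^ k := by linarith
    positivity
  have hpU : ∀ n ∈ t, ∀ j ∈ GG k W, q ^ k ≤ pT p (Uj Q α x W a j n) ∧ pT p (Uj Q α x W a j n) ≤ q' ^ k := by
    intro n hn j hj
    have hc := Uj_card (Q := Q) (α := α) (x := x) (W := W) (a := a) hQ ha (ht n hn).1 (ht n hn).2 hj
    have hb : ∀ b ∈ Uj Q α x W a j n, q ≤ p b ∧ p b ≤ q' := by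
      intro b hb
      rw [mem_Uj] at hb
      obtain ⟨i, rfl⟩ := hb
      exact hp n hn i (j i) (mem_GG.1 hj i)
    unfold pT
    have e1 : ∏ _b ∈ Uj Q α x W a j n, q = q ^ k := by rw [prod_const, hc]
    have e2 : ∏ _b ∈ Uj Q α x W a j n, q' = q' ^ k := by rw [prod_const, hc]
    rw [← e1, ← e2]
    exact ⟨prod_le_prod (fun _ _ => hq.le) (fun b hb' => (hb b hb').1),
      prod_le_prod (fun b _ => p_nonneg hA b) (fun b hb' => (hb b hb').2)⟩
  have hUnion : ∀ n ∈ t, ∀ i ∈ GG k W, ∀ j ∈ GG k W, i ≠ j →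
      pT p (Uj Q α x W a i n ∪ Uj Q α x W a j n) ≤ q' ^ (k + 1) := by
    intro n hn i hi j hj hij
    have hci := Uj_card (Q := Q) (α := α) (x := x) (W := W) (a := a) hQ ha (ht n hn).1 (ht n hn).2 hi
    have hex : ∃ l, i l ≠ j l := by
      by_contra hcon
      push Not at hcon
      exact hij (funext hcon)
    obtain ⟨l, hl⟩ := hex
    have hnot : n + shf Q α x W a l (j l) ∉ Uj Q α x W a i n := by
      intro h
      rw [mem_Uj] at h
      obtain ⟨l', e⟩ := h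
      obtain ⟨h1, h2, _⟩ := shf_inj hQ ha (ht n hn).1 (ht n hn).2 (ht n hn).1 (ht n hn).2 (mem_GG.1 hj l)
        (mem_GG.1 hi l') e
      subst h1
      exact hl h2.symm
    have hsub : insert (n + shf Q α x W a l (j l)) (Uj Q α x W a i n) ⊆ Uj Q α x W a i n ∪ Uj Q α x W a j n := by
      intro b hb
      rw [mem_insert] at hb
      rcases hb with rfl | hb
      · exact mem_union_right _ (mem_Uj.2 ⟨l, rfl⟩)
      · exact mem_union_left _ hb
    have h1 : pT p (Uj Q α x W a i n ∪ Uj Q α x W a j n) ≤ pT p (insert (n + shf Q α x W a l (j l)) (Uj Q α x W a i n)) := by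
      unfold pT
      rw [← prod_sdiff hsub]
      have h1 : ∏ i ∈ (Uj Q α x W a i n ∪ Uj Q α x W a j n) \ insert (n + shf Q α x W a l (j l)) (Uj Q α x W a i n), p i ≤ 1 :=
        prod_le_one (fun i _ => p_nonneg hA i) (fun i _ => p_le_one hA i)
      have h2 : 0 ≤ ∏ i ∈ insert (n + shf Q α x W a l (j l)) (Uj Q α x W a i n), p i := prod_nonneg (fun i _ => p_nonneg hA i)
      nlinarith
    refine h1.trans ?_
    unfold pT
    rw [prod_insert hnot, pow_succ, mul_comm]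
    exact mul_le_mul (hpU n hn i hi).2 (hp n hn l (j l) (mem_GG.1 hj l)).2 (p_nonneg hA _) (by positivity)
  have hGne : (GG k W).Nonempty := ⟨fun _ => 0, mem_GG.2 (fun _ => by omega)⟩
  have hcardG : ((GG k W).card : ℝ) = (W : ℝ) ^ k := by
    rw [card_GG]
    push_cast
    ring
  have hb0 : 0 ≤ b := by rw [hb]; positivity
  have h := second (μ := μ) (GG k W) (fun j => {ω | nm A t (Uj Q α x W a j) ω = m})
    (fun j _ => (meas_nm hA t _) (measurableSet_singleton _)) (shp k W) ?_ (a := lo) (b := b) hlo0 ?_ hGne ?_ hb0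
    (n := k * (W : ℝ) ^ (2 * k - 1)) card_shp
  · rw [hcardG] at h
    exact h
  · -- independence
    intro i hi j hj _ hsh
    have hne : ∀ l, i l ≠ j l := by
      intro l hl
      apply hsh
      unfold shp
      rw [mem_filter, mem_product]
      exact ⟨⟨hi, hj⟩, l, hl⟩
    have hmeas : ∀ j : Fin k → ℕ, MeasurableSet[F A ((t.biUnion (Uj Q α x W a j) : Finset ℕ) : Set ℕ)]
        {ω | nm A t (Uj Q α x W a j) ω = m} := by
      intro j
      have h1 : Measurable[F A ((t.biUnion (Uj Q α x W a j) : Finset ℕ) : Set ℕ)] (nm A t (Uj Q α x W a j)) := by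
        let _ : MeasurableSpace Ω := F A ((t.biUnion (Uj Q α x W a j) : Finset ℕ) : Set ℕ)
        unfold nm
        exact Finset.measurable_fun_sum t (fun n hn => F_ind (fun b hb => mem_coe.2 (mem_biUnion.2 ⟨n, hn, hb⟩)))
      exact h1 (measurableSet_singleton _)
    refine indep_real hA (S := ((t.biUnion (Uj Q α x W a i) : Finset ℕ) : Set ℕ))
      (T := ((t.biUnion (Uj Q α x W a j) : Finset ℕ) : Set ℕ)) ?_ (hmeas i) (hmeas j)
    rw [Finset.disjoint_coe, disjoint_biUnion_left]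
    intro n hn
    rw [disjoint_biUnion_right]
    intro n' hn'
    exact Uj_disj hQ ha (ht n hn).1 (ht n hn).2 (ht n' hn').1 (ht n' hn').2 hi hj (Or.inr hne)
  · intro j hj
    rw [hlo]
    exact exact_low hA t (Uj Q α x W a j) (fun n hn n' hn' hne => Uj_disj hQ ha (ht n hn).1 (ht n hn).2 (ht n' hn').1
      (ht n' hn').2 hj hj (Or.inl hne)) (by positivity) hq'k.le (fun n hn => (hpU n hn j hj).1)
      (fun n hn => (hpU n hn j hj).2) (by positivity) m
  · intro i hi j hj hij _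
    have h1 := pair_up hA t (Uj Q α x W a i) (Uj Q α x W a j) (fun n hn n' hn' hne => by
      rw [disjoint_union_left, disjoint_union_right, disjoint_union_right]
      exact ⟨⟨Uj_disj hQ ha (ht n hn).1 (ht n hn).2 (ht n' hn').1 (ht n' hn').2 hi hi (Or.inl hne),
        Uj_disj hQ ha (ht n hn).1 (ht n hn).2 (ht n' hn').1 (ht n' hn').2 hi hj (Or.inl hne)⟩,
        ⟨Uj_disj hQ ha (ht n hn).1 (ht n hn).2 (ht n' hn').1 (ht n' hn').2 hj hi (Or.inl hne),
        Uj_disj hQ ha (ht n hn).1 (ht n hn).2 (ht n' hn').1 (ht n' hn').2 hj hj (Or.inl hne)⟩⟩) (z := z) (g := g) hz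
      (fun n hn => by
        obtain ⟨h1, h2⟩ := hpU n hn i hi
        obtain ⟨h3, h4⟩ := hpU n hn j hj
        have h5 := hUnion n hn i hi j hj hij
        have h6 := mul_le_mul_of_nonneg_left h5 (sq_nonneg (z - 1))
        rcases le_total 1 z with hz1 | hz1
        · have h7 : (z - 1) * (pT p (Uj Q α x W a i n) + pT p (Uj Q α x W a j n)) ≤ (z - 1) * (2 * q' ^ k) :=
            mul_le_mul_of_nonneg_left (by linarith) (by linarith)
          linarith
        · have h7 : (z - 1) * (pT p (Uj Q α x W a i n) + pT p (Uj Q α x W a j n)) ≤ (z - 1) * (2 * q ^ k) :=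
            mul_le_mul_of_nonpos_left (by linarith) (by linarith)
          linarith) m
    rw [hb, le_div_iff₀ hzm, mul_comm]
    exact h1

end Pool.Agent.Q106.UR
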