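import Pool.Agent.Q106.UR.Tail

/-!
# No deviations below the critical size of the shifts
-/

set_option autoImplicit false

namespace Pool.Agent.Q106.UR

open Finset MeasureTheory ProbabilityTheory Filter Pool.Agent.Q120.GM
open scoped Topology

variable {Ω : Type*} [MeasurableSpace Ω] {μ : Measure Ω} [IsProbabilityMeasure μ] {A : Ω → Set ℕ}

/-- `(x / log x)^(1/(k+1))` -/
noncomputable def YY (k x : ℕ) : ℝ := ((x : ℝ) / Real.log x) ^ (1 / ((k : ℝ) + 1))

theorem YY_nonneg (k x : ℕ) : 0 ≤ YY k x := by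
  unfold YY
  exact Real.rpow_nonneg (div_nonneg (Nat.cast_nonneg _) (Real.log_natCast_nonneg _)) _

theorem YY_pow (k x : ℕ) : YY k x ^ (k + 1) = (x : ℝ) / Real.log x := by
  unfold YY
  rw [← Real.rpow_natCast, ← Real.rpow_mul (div_nonneg (Nat.cast_nonneg _) (Real.log_natCast_nonneg _))]
  have h1 : 1 / ((k : ℝ) + 1) * ((k + 1 : ℕ) : ℝ) = 1 := by
    push_cast
    field_simp
  rw [h1, Real.rpow_one]

/-- `B log x ≤ Y` -/
theorem YY_log (k : ℕ) (B : ℝ) : ∀ᶠ x : ℕ in atTop, B * Real.log x ≤ YY k x := by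
  obtain ⟨b, hb⟩ : ∃ b, b = |B| + 1 := ⟨_, rfl⟩
  have hb0 : 0 < b := by rw [hb]; positivity
  filter_upwards [ev_log_pow (k + 2) (show 0 < 1 / b ^ (k + 1) by positivity), log_tendsto.eventually_ge_atTop 1]
    with x h1 h2
  have hl : 0 < Real.log x := by linarith
  have h3 : (b * Real.log x) ^ (k + 1) ≤ YY k x ^ (k + 1) := by
    rw [YY_pow, le_div_iff₀ hl, mul_pow]
    have h4 := mul_le_mul_of_nonneg_left h1 (show 0 ≤ b ^ (k + 1) by positivity)
    calc b ^ (k + 1) * Real.log x ^ (k + 1) * Real.log x = b ^ (k + 1) * Real.log x ^ (k + 2) := by ring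
      _ ≤ b ^ (k + 1) * (1 / b ^ (k + 1) * x) := h4
      _ = x := by field_simp
  have h5 : b * Real.log x ≤ YY k x := le_of_pow_le_pow_left₀ (by omega) (YY_nonneg k x) h3
  have h6 : B ≤ b := by rw [hb]; linarith [le_abs_self B]
  nlinarith

theorem YY_tendsto (k : ℕ) : Tendsto (fun x => YY k x) atTop atTop := by
  refine tendsto_atTop_mono' _ (YY_log k 1) ?_
  simpa using log_tendsto

/-- The predicted number for shifts of size at most `exp (c Y)`. -/
theorem MM_ge {Q k : ℕ} {c ε : ℝ} (hc : 0 < c) (hε : 0 < ε) : ∀ᶠ x : ℕ in atTop,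
    ∀ H : Finset ℕ, H.card = k → 0 ∉ H → (∀ h ∈ H, (h : ℝ) ≤ Real.exp (c * YY k x)) → ∀ s, 0 ≤ s →
    s ≤ sing Q (insert 0 H) → s * YY k x / ((1 + ε) * c) ^ k ≤ MM Q (insert 0 H) x := by
  have h2c : Tendsto (fun x => ε * c * YY k x) atTop atTop := (YY_tendsto k).const_mul_atTop (by positivity)
  filter_upwards [YY_log k (1 / c), h2c.eventually_ge_atTop (Real.log 2), log_tendsto.eventually_ge_atTop 1]
    with x h1 h2 h3 H hH h0 hb s hs0 hs
  have hx0 : (0 : ℝ) < x := by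
    rcases Nat.eq_zero_or_pos x with h0 | h0
    · rw [h0] at h3
      norm_num at h3
    · exact_mod_cast h0
  obtain ⟨Y, hY⟩ : ∃ Y, Y = YY k x := ⟨_, rfl⟩
  rw [← hY] at h1 h2 hb ⊢
  have hY0 : 0 < Y := by
    have : 0 < 1 / c * Real.log x := by positivity
    linarith
  have hxe : (x : ℝ) ≤ Real.exp (c * Y) := by
    have h4 : Real.log x ≤ c * Y := by
      have h5 := mul_le_mul_of_nonneg_left h1 hc.le
      have h6 : c * (1 / c * Real.log x) = Real.log x := by field_simp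
      linarith
    calc (x : ℝ) = Real.exp (Real.log x) := (Real.exp_log hx0).symm
      _ ≤ _ := Real.exp_le_exp.2 h4
  have hL : LL (insert 0 H) x ≤ Real.log x * ((1 + ε) * c * Y) ^ k := by
    unfold LL
    rw [prod_insert h0, ← hH, ← prod_const]
    push_cast
    rw [add_zero]
    refine mul_le_mul_of_nonneg_left ?_ (by linarith)
    refine prod_le_prod (fun h hh => ?_) (fun h hh => ?_)
    · refine Real.log_nonneg ?_
      have h4 : (0 : ℝ) ≤ h := Nat.cast_nonneg h
      have h5 := Real.log_le_sub_one_of_pos hx0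
      linarith
    · have h4 : (x : ℝ) + h ≤ 2 * Real.exp (c * Y) := by linarith [hb h hh]
      have h5 := Real.log_le_log (by have : (0 : ℝ) ≤ h := Nat.cast_nonneg h
                                     linarith) h4
      rw [Real.log_mul (by norm_num) (Real.exp_pos _).ne', Real.log_exp] at h5
      nlinarith
  have hLp := LL_pos (S := insert 0 H) h3
  have hpw : Y ^ (k + 1) = (x : ℝ) / Real.log x := by rw [hY]; exact YY_pow k x
  have hl : 0 < Real.log x := by linarith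
  have hden : 0 < Real.log x * ((1 + ε) * c * Y) ^ k := by positivity
  unfold MM
  calc s * Y / ((1 + ε) * c) ^ k = s * x / (Real.log x * ((1 + ε) * c * Y) ^ k) := by
        have h4 : s * x / (Real.log x * ((1 + ε) * c * Y) ^ k) = s * (x / Real.log x) / ((1 + ε) * c * Y) ^ k := by
          rw [mul_div_assoc s, mul_div_assoc s, div_div]
        rw [h4, ← hpw, mul_pow ((1 + ε) * c) Y k, pow_succ, mul_comm (Y ^ k) Y, ← mul_assoc, mul_div_mul_right _ _ (by positivity)]
    _ ≤ s * x / LL (insert 0 H) x := div_le_div_of_nonneg_left (by positivity) hLp hL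
    _ ≤ sing Q (insert 0 H) * x / LL (insert 0 H) x :=
        div_le_div_of_nonneg_right (mul_le_mul_of_nonneg_right hs hx0.le) hLp.le

theorem summable_sq : Summable (fun x : ℕ => 1 / (x : ℝ) ^ 2) := Real.summable_one_div_nat_pow.2 (by norm_num)

/-- `C exp (-δ Y) ≤ x^(-2)` -/
theorem ev_small (k : ℕ) {C δ : ℝ} (hC : 0 < C) (hδ : 0 < δ) :
    ∀ᶠ x : ℕ in atTop, C * Real.exp (-(δ * YY k x)) ≤ 1 / (x : ℝ) ^ 2 := by
  filter_upwards [YY_log k (3 / δ), log_tendsto.eventually_ge_atTop (Real.log C), eventually_gt_atTop 0] with x h1 h2 hx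
  have hx0 : (0 : ℝ) < x := by exact_mod_cast hx
  have h3 : 3 * Real.log x ≤ δ * YY k x := by
    have h4 := mul_le_mul_of_nonneg_left h1 hδ.le
    have h5 : δ * (3 / δ * Real.log x) = 3 * Real.log x := by field_simp
    linarith
  have h4 : C * Real.exp (-(δ * YY k x)) ≤ Real.exp (-(2 * Real.log x)) := by
    calc C * Real.exp (-(δ * YY k x)) = Real.exp (Real.log C) * Real.exp (-(δ * YY k x)) := by rw [Real.exp_log hC]
      _ = Real.exp (Real.log C + -(δ * YY k x)) := (Real.exp_add _ _).symm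
      _ ≤ _ := Real.exp_le_exp.2 (by linarith)
  refine h4.trans (le_of_eq ?_)
  rw [Real.exp_neg, mul_comm, Real.exp_mul, Real.exp_log hx0, one_div]
  norm_num

/-- **No exceptional events below the critical size.** -/
theorem union_bc {Q k : ℕ} {c s κ C : ℝ} (hc : 0 < c) (hκ : 0 < κ) (hC : 0 < C) (hs : 0 < s)
    (hcr : k * c ^ (k + 1) < s * κ) {E : Finset ℕ → ℕ → Set Ω}
    (hE : ∀ᶠ x : ℕ in atTop, ∀ S : Finset ℕ, S.card = k + 1 → 0 < sing Q S →
      μ.real (E S x) ≤ C * Real.exp (-(MM Q S x * κ))) :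
    ∀ᵐ ω ∂μ, ∀ᶠ x : ℕ in atTop, ∀ H : Finset ℕ, H.card = k → 0 ∉ H → (∀ h ∈ H, (h : ℝ) ≤ Real.exp (c * YY k x)) →
      s ≤ sing Q (insert 0 H) → ω ∉ E (insert 0 H) x := by
  -- the room
  obtain ⟨ε, hε0, hε⟩ : ∃ ε, 0 < ε ∧ (k : ℝ) * c < s * κ / ((1 + ε) * c) ^ k := by
    have h1 : Tendsto (fun ε : ℝ => s * κ / ((1 + ε) * c) ^ k) (𝓝 0) (𝓝 (s * κ / ((1 + 0) * c) ^ k)) := by
      refine ContinuousAt.tendsto ?_
      refine ContinuousAt.div (by fun_prop) (by fun_prop) ?_
      positivity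
    have h2 : (k : ℝ) * c < s * κ / ((1 + 0) * c) ^ k := by
      rw [lt_div_iff₀ (by positivity), add_zero, one_mul]
      calc (k : ℝ) * c * c ^ k = k * c ^ (k + 1) := by ring
        _ < s * κ := hcr
    obtain ⟨r, hr, h5⟩ := Metric.eventually_nhds_iff.1 (h1.eventually_const_lt h2)
    refine ⟨r / 2, by positivity, h5 ?_⟩
    rw [dist_zero_right, Real.norm_of_nonneg (by positivity)]
    linarith
  obtain ⟨δ, hδ⟩ : ∃ δ, δ = s * κ / ((1 + ε) * c) ^ k - k * c := ⟨_, rfl⟩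
  have hδ0 : 0 < δ := by rw [hδ]; linarith
  classical
  obtain ⟨D, hD⟩ : ∃ D : ℕ → ℕ, D = fun x => ⌊Real.exp (c * YY k x)⌋₊ := ⟨_, rfl⟩
  obtain ⟨P, hP⟩ : ∃ P : ℕ → Finset (Finset ℕ), P = fun x => ((Icc 1 (D x)).powersetCard k).filter
    (fun H => s ≤ sing Q (insert 0 H)) := ⟨_, rfl⟩
  have hbound : ∀ᶠ x : ℕ in atTop, μ.real (⋃ H ∈ P x, E (insert 0 H) x) ≤ 1 / (x : ℝ) ^ 2 := by
    filter_upwards [hE, MM_ge (Q := Q) (k := k) hc hε0, ev_small k hC hδ0] with x h1 h2 h3
    refine (measureReal_biUnion_finset_le _ _).trans (le_trans ?_ h3)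
    have hDx : (D x : ℝ) ≤ Real.exp (c * YY k x) := by
      rw [hD]
      exact Nat.floor_le (Real.exp_pos _).le
    have h4 : ∀ H ∈ P x, μ.real (E (insert 0 H) x) ≤ C * Real.exp (-(s * YY k x / ((1 + ε) * c) ^ k * κ)) := by
      intro H hH
      rw [hP, mem_filter, mem_powersetCard] at hH
      obtain ⟨⟨hH1, hH2⟩, hH3⟩ := hH
      have h0 : 0 ∉ H := by
        intro h
        have := mem_Icc.1 (hH1 h)
        omega
      have h5 := h1 (insert 0 H) (by rw [card_insert_of_notMem h0, hH2]) (lt_of_lt_of_le hs hH3)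
      have h6 := h2 H hH2 h0 (fun h hh => by
        have h7 := (mem_Icc.1 (hH1 hh)).2
        have h8 : (h : ℝ) ≤ D x := by exact_mod_cast h7
        exact h8.trans hDx) s hs.le hH3
      refine h5.trans (mul_le_mul_of_nonneg_left (Real.exp_le_exp.2 ?_) hC.le)
      have := mul_le_mul_of_nonneg_right h6 hκ.le
      linarith
    refine (sum_le_sum h4).trans ?_
    rw [sum_const, nsmul_eq_mul]
    have h5 : ((P x).card : ℝ) ≤ Real.exp (k * (c * YY k x)) := by
      have h6 : (P x).card ≤ (D x) ^ k := by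
        rw [hP]
        refine (card_filter_le _ _).trans ?_
        rw [card_powersetCard, Nat.card_Icc]
        exact Nat.choose_le_pow _ _
      have h7 : ((P x).card : ℝ) ≤ (D x : ℝ) ^ k := by exact_mod_cast h6
      refine h7.trans ?_
      rw [Real.exp_nat_mul]
      exact pow_le_pow_left₀ (Nat.cast_nonneg _) hDx k
    refine (mul_le_mul_of_nonneg_right h5 (by positivity)).trans (le_of_eq ?_)
    rw [mul_left_comm, ← Real.exp_add]
    congr 2
    rw [hδ]
    ring
  filter_upwards [bc summable_sq hbound] with ω hω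
  filter_upwards [hω] with x hx H hH h0 hb hs' hcon
  refine hx (Set.mem_biUnion (x := H) ?_ hcon)
  show H ∈ P x
  rw [hP, mem_filter, mem_powersetCard]
  refine ⟨⟨fun h hh => ?_, hH⟩, hs'⟩
  rw [mem_Icc]
  constructor
  · rcases Nat.eq_zero_or_pos h with h1 | h1
    · rw [h1] at hh
      exact absurd hh h0
    · exact h1
  · rw [hD]
    exact Nat.le_floor (hb h hh)

theorem II_pos {u : ℝ} (hu : 0 ≤ u) (h1 : u ≠ 1) : 0 < II u := by
  unfold II
  rcases hu.lt_or_eq with h | h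
  · have h2 : Real.log u⁻¹ < u⁻¹ - 1 := by
      refine Real.log_lt_sub_one_of_pos (by positivity) ?_
      intro h3
      exact h1 (inv_eq_one.1 h3)
    rw [Real.log_inv] at h2
    have h3 : u * (u⁻¹ - 1 + Real.log u) > 0 := mul_pos h (by linarith)
    have h4 : u * (u⁻¹ - 1 + Real.log u) = 1 - u + u * Real.log u := by field_simp
    linarith
  · rw [← h]
    norm_num

/-- **Upper deviations.** -/
theorem no_up {Q k : ℕ} (hA : IsModel μ (level Q) A) (hQ : 1 ≤ Q) {c s u : ℝ} (hc : 0 < c) (hs : 0 < s) (hu : 1 < u)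
    (hcr : k * c ^ (k + 1) < s * II u) :
    ∀ᵐ ω ∂μ, ∀ᶠ x : ℕ in atTop, ∀ H : Finset ℕ, H.card = k → 0 ∉ H → (∀ h ∈ H, (h : ℝ) ≤ Real.exp (c * YY k x)) →
      s ≤ sing Q (insert 0 H) → NN A (insert 0 H) x ω < u * MM Q (insert 0 H) x := by
  have hI := II_pos (by linarith : (0 : ℝ) ≤ u) (by linarith : u ≠ 1)
  obtain ⟨κ, hκ1, hκ2, hκ3⟩ : ∃ κ, 0 < κ ∧ κ < II u ∧ k * c ^ (k + 1) < s * κ := by
    have h1 : k * c ^ (k + 1) / s < II u := by
      rw [div_lt_iff₀ hs]
      linarith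
    obtain ⟨κ, h2, h3⟩ := exists_between (max_lt h1 hI)
    refine ⟨κ, (le_max_right _ _).trans_lt h2, h3, ?_⟩
    have h4 := (le_max_left _ _).trans_lt h2
    rw [div_lt_iff₀ hs] at h4
    linarith
  have h1 := tail_up (K := k + 1) hA hQ (by omega) hu.le (show 0 < II u - κ by linarith)
  have h2 := union_bc (μ := μ) (Q := Q) (k := k) hc hκ1 (show 0 < u + 1 by linarith) hs hκ3
    (E := fun S x => {ω | u * MM Q S x ≤ NN A S x ω}) (by
      filter_upwards [h1] with x hx S hS hs'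
      refine (hx S hS hs').trans (le_of_eq ?_)
      rw [sub_sub_cancel])
  filter_upwards [h2] with ω hω
  filter_upwards [hω] with x hx H hH h0 hb hs'
  exact not_le.1 (hx H hH h0 hb hs')

/-- **Lower deviations.** -/
theorem no_dn {Q k : ℕ} (hA : IsModel μ (level Q) A) (hQ : 1 ≤ Q) {c s u : ℝ} (hc : 0 < c) (hs : 0 < s) (hu0 : 0 < u)
    (hu : u < 1) (hcr : k * c ^ (k + 1) < s * II u) :
    ∀ᵐ ω ∂μ, ∀ᶠ x : ℕ in atTop, ∀ H : Finset ℕ, H.card = k → 0 ∉ H → (∀ h ∈ H, (h : ℝ) ≤ Real.exp (c * YY k x)) →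
      s ≤ sing Q (insert 0 H) → u * MM Q (insert 0 H) x < NN A (insert 0 H) x ω := by
  have hI := II_pos hu0.le hu.ne
  obtain ⟨κ, hκ1, hκ2, hκ3⟩ : ∃ κ, 0 < κ ∧ κ < II u ∧ k * c ^ (k + 1) < s * κ := by
    have h1 : k * c ^ (k + 1) / s < II u := by
      rw [div_lt_iff₀ hs]
      linarith
    obtain ⟨κ, h2, h3⟩ := exists_between (max_lt h1 hI)
    refine ⟨κ, (le_max_right _ _).trans_lt h2, h3, ?_⟩
    have h4 := (le_max_left _ _).trans_lt h2
    rw [div_lt_iff₀ hs] at h4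
    linarith
  have h1 := tail_dn (K := k + 1) hA hQ (by omega) hu0 hu.le (show 0 < II u - κ by linarith)
  have h2 := union_bc (μ := μ) (Q := Q) (k := k) hc hκ1 one_pos hs hκ3
    (E := fun S x => {ω | NN A S x ω ≤ u * MM Q S x}) (by
      filter_upwards [h1] with x hx S hS hs'
      refine (hx S hS hs').trans (le_of_eq ?_)
      rw [sub_sub_cancel, one_mul])
  filter_upwards [h2] with ω hω
  filter_upwards [hω] with x hx H hH h0 hb hs'
  exact not_le.1 (hx H hH h0 hb hs')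

end Pool.Agent.Q106.UR
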