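import Pool.Agent.Q106.UR.Exi

/-!
# The law of the numbers of tuples, for all parameters at once
-/

set_option autoImplicit false

namespace Pool.Agent.Q106.UR

open Finset MeasureTheory ProbabilityTheory Filter Pool.Agent.Q120.GM
open scoped Topology

variable {Ω : Type*} [MeasurableSpace Ω] {μ : Measure Ω} [IsProbabilityMeasure μ] {A : Ω → Set ℕ}

theorem II_cont : Continuous II := by
  unfold II
  exact (continuous_const.sub continuous_id).add Real.continuous_mul_log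

/-- The sets of `k` positive shifts up to `D` of class at least `s`. -/
def Sh (Q k : ℕ) (D s : ℝ) (H : Finset ℕ) : Prop :=
  H.card = k ∧ 0 ∉ H ∧ (∀ h ∈ H, (h : ℝ) ≤ D) ∧ s ≤ sing Q (insert 0 H)

theorem c_near_up {k : ℕ} {c b : ℝ} (hb : k * c ^ (k + 1) < b) : ∃ c' : ℚ, c < c' ∧ k * (c' : ℝ) ^ (k + 1) < b := by
  have h1 : Continuous (fun t : ℝ => (k : ℝ) * t ^ (k + 1)) := by fun_prop
  obtain ⟨r, hr, h2⟩ := Metric.eventually_nhds_iff.1 ((h1.tendsto c).eventually_lt_const hb)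
  obtain ⟨c', h3, h4⟩ := exists_rat_btwn (show c < c + r by linarith)
  refine ⟨c', h3, h2 ?_⟩
  rw [Real.dist_eq, abs_lt]
  constructor <;> linarith

theorem c_near_dn {k : ℕ} {c b : ℝ} (hc : 0 < c) (hb : b < k * c ^ (k + 1)) :
    ∃ c' : ℚ, 0 < (c' : ℝ) ∧ (c' : ℝ) < c ∧ b < k * (c' : ℝ) ^ (k + 1) := by
  have h1 : Continuous (fun t : ℝ => (k : ℝ) * t ^ (k + 1)) := by fun_prop
  obtain ⟨r, hr, h2⟩ := Metric.eventually_nhds_iff.1 ((h1.tendsto c).eventually_const_lt hb)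
  obtain ⟨c', h3, h4⟩ := exists_rat_btwn (show max 0 (c - r) < c by exact max_lt hc (by linarith))
  refine ⟨c', (le_max_left _ _).trans_lt h3, h4, h2 ?_⟩
  have h5 := (le_max_right 0 (c - r)).trans_lt h3
  rw [Real.dist_eq, abs_lt]
  constructor <;> linarith

/-- The first part for all parameters. -/
theorem all_up {Q : ℕ} (hA : IsModel μ (level Q) A) (hQ : 1 ≤ Q) :
    ∀ᵐ ω ∂μ, ∀ (k : ℕ) (c s u : ℝ), 0 < c → 0 < s → 1 < u → k * c ^ (k + 1) < s * II u →
      ∀ᶠ x : ℕ in atTop, ∀ H : Finset ℕ, Sh Q k (Real.exp (c * YY k x)) s H →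
        NN A (insert 0 H) x ω < u * MM Q (insert 0 H) x := by
  have h1 : ∀ᵐ ω ∂μ, ∀ (k : ℕ) (c s u : ℚ), 0 < (c : ℝ) → 0 < (s : ℝ) → 1 < (u : ℝ) →
      k * (c : ℝ) ^ (k + 1) < s * II u → ∀ᶠ x : ℕ in atTop, ∀ H : Finset ℕ, H.card = k → 0 ∉ H →
      (∀ h ∈ H, (h : ℝ) ≤ Real.exp (c * YY k x)) → (s : ℝ) ≤ sing Q (insert 0 H) →
      NN A (insert 0 H) x ω < u * MM Q (insert 0 H) x := by
    rw [ae_all_iff]
    intro k
    rw [ae_all_iff]
    intro c
    rw [ae_all_iff]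
    intro s
    rw [ae_all_iff]
    intro u
    by_cases hc : 0 < (c : ℝ)
    · by_cases hs : 0 < (s : ℝ)
      · by_cases hu : 1 < (u : ℝ)
        · by_cases hcr : k * (c : ℝ) ^ (k + 1) < s * II u
          · filter_upwards [no_up hA hQ hc hs hu hcr] with ω hω _ _ _ _
            exact hω
          · exact Eventually.of_forall (fun ω _ _ _ h => absurd h hcr)
        · exact Eventually.of_forall (fun ω _ _ h => absurd h hu)
      · exact Eventually.of_forall (fun ω _ h => absurd h hs)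
    · exact Eventually.of_forall (fun ω h => absurd h hc)
  filter_upwards [h1] with ω hω k c s u hc hs hu hcr
  obtain ⟨r, hr, h2⟩ := Metric.eventually_nhds_iff.1
    (((continuous_const.mul II_cont).tendsto u).eventually_const_lt (f := fun t => s * II t) hcr)
  obtain ⟨u', h3, h4⟩ := exists_rat_btwn (show max 1 (u - r) < u by exact max_lt hu (by linarith))
  have h5 := (le_max_left 1 (u - r)).trans_lt h3
  have h6 := (le_max_right 1 (u - r)).trans_lt h3
  have h7 : k * c ^ (k + 1) < s * II u' := h2 (by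
    rw [Real.dist_eq, abs_lt]
    constructor <;> linarith)
  have hI := II_pos (by linarith : (0 : ℝ) ≤ u') (by linarith : (u' : ℝ) ≠ 1)
  obtain ⟨s', h8, h9⟩ := exists_rat_btwn (show k * c ^ (k + 1) / II u' < s by
    rw [div_lt_iff₀ hI]
    exact h7)
  have hs' : 0 < (s' : ℝ) := lt_of_le_of_lt (by positivity) h8
  rw [div_lt_iff₀ hI] at h8
  obtain ⟨c', h10, h11⟩ := c_near_up h8
  have h12 := hω k c' s' u' (by linarith) hs' h5 h11
  filter_upwards [h12, log_tendsto.eventually_ge_atTop 1] with x hx hlx H hH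
  obtain ⟨e1, e2, e3, e4⟩ := hH
  have hYn := YY_nonneg k x
  have e5 := hx H e1 e2 (fun h hh => (e3 h hh).trans (Real.exp_le_exp.2 (mul_le_mul_of_nonneg_right h10.le hYn)))
    (h9.le.trans e4)
  refine e5.trans_le (mul_le_mul_of_nonneg_right h4.le ?_)
  unfold MM
  have := LL_pos (S := insert 0 H) hlx
  have h13 : 0 ≤ sing Q (insert 0 H) := by linarith
  positivity

theorem all_dn {Q : ℕ} (hA : IsModel μ (level Q) A) (hQ : 1 ≤ Q) :
    ∀ᵐ ω ∂μ, ∀ (k : ℕ) (c s u : ℝ), 0 < c → 0 < s → 0 ≤ u → u < 1 → k * c ^ (k + 1) < s * II u →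
      ∀ᶠ x : ℕ in atTop, ∀ H : Finset ℕ, Sh Q k (Real.exp (c * YY k x)) s H →
        u * MM Q (insert 0 H) x < NN A (insert 0 H) x ω := by
  have h1 : ∀ᵐ ω ∂μ, ∀ (k : ℕ) (c s u : ℚ), 0 < (c : ℝ) → 0 < (s : ℝ) → 0 < (u : ℝ) → (u : ℝ) < 1 →
      k * (c : ℝ) ^ (k + 1) < s * II u → ∀ᶠ x : ℕ in atTop, ∀ H : Finset ℕ, H.card = k → 0 ∉ H →
      (∀ h ∈ H, (h : ℝ) ≤ Real.exp (c * YY k x)) → (s : ℝ) ≤ sing Q (insert 0 H) →
      u * MM Q (insert 0 H) x < NN A (insert 0 H) x ω := by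
    rw [ae_all_iff]
    intro k
    rw [ae_all_iff]
    intro c
    rw [ae_all_iff]
    intro s
    rw [ae_all_iff]
    intro u
    by_cases hc : 0 < (c : ℝ)
    · by_cases hs : 0 < (s : ℝ)
      · by_cases hu : 0 < (u : ℝ)
        · by_cases hu1 : (u : ℝ) < 1
          · by_cases hcr : k * (c : ℝ) ^ (k + 1) < s * II u
            · filter_upwards [no_dn hA hQ hc hs hu hu1 hcr] with ω hω _ _ _ _ _
              exact hω
            · exact Eventually.of_forall (fun ω _ _ _ _ h => absurd h hcr)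
          · exact Eventually.of_forall (fun ω _ _ _ h => absurd h hu1)
        · exact Eventually.of_forall (fun ω _ _ h => absurd h hu)
      · exact Eventually.of_forall (fun ω _ h => absurd h hs)
    · exact Eventually.of_forall (fun ω h => absurd h hc)
  filter_upwards [h1] with ω hω k c s u hc hs hu0 hu hcr
  obtain ⟨r, hr, h2⟩ := Metric.eventually_nhds_iff.1
    (((continuous_const.mul II_cont).tendsto u).eventually_const_lt (f := fun t => s * II t) hcr)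
  obtain ⟨u', h3, h4⟩ := exists_rat_btwn (show u < min 1 (u + r) by exact lt_min hu (by linarith))
  have h5 := h4.trans_le (min_le_left 1 (u + r))
  have h6 := h4.trans_le (min_le_right 1 (u + r))
  have h7 : k * c ^ (k + 1) < s * II u' := h2 (by
    rw [Real.dist_eq, abs_lt]
    constructor <;> linarith)
  have hI := II_pos (by linarith : (0 : ℝ) ≤ u') (by linarith : (u' : ℝ) ≠ 1)
  obtain ⟨s', h8, h9⟩ := exists_rat_btwn (show k * c ^ (k + 1) / II u' < s by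
    rw [div_lt_iff₀ hI]
    exact h7)
  have hs' : 0 < (s' : ℝ) := lt_of_le_of_lt (by positivity) h8
  rw [div_lt_iff₀ hI] at h8
  obtain ⟨c', h10, h11⟩ := c_near_up h8
  have h12 := hω k c' s' u' (by linarith) hs' (by linarith) h5 h11
  filter_upwards [h12, log_tendsto.eventually_ge_atTop 1] with x hx hlx H hH
  obtain ⟨e1, e2, e3, e4⟩ := hH
  have hYn := YY_nonneg k x
  have e5 := hx H e1 e2 (fun h hh => (e3 h hh).trans (Real.exp_le_exp.2 (mul_le_mul_of_nonneg_right h10.le hYn)))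
    (h9.le.trans e4)
  refine lt_of_le_of_lt (mul_le_mul_of_nonneg_right h3.le ?_) e5
  unfold MM
  have := LL_pos (S := insert 0 H) hlx
  have h13 : 0 ≤ sing Q (insert 0 H) := by linarith
  positivity

theorem all_ex {Q : ℕ} (hA : IsModel μ (level Q) A) (hQ : 1 ≤ Q) :
    ∀ᵐ ω ∂μ, ∀ (k : ℕ) (H₀ : Finset ℕ) (c u ε : ℝ), 1 ≤ k → H₀.card = k → 0 ∉ H₀ → 0 < sing Q (insert 0 H₀) →
      0 < c → 0 ≤ u → sing Q (insert 0 H₀) * II u < k * c ^ (k + 1) → 0 < ε →
      ∀ᶠ x : ℕ in atTop, ∃ H : Finset ℕ, Sh Q k (Real.exp (c * YY k x)) (sing Q (insert 0 H₀)) H ∧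
        (∀ n, Good Q (insert 0 H) n ↔ Good Q (insert 0 H₀) n) ∧ sing Q (insert 0 H) = sing Q (insert 0 H₀) ∧
        |NN A (insert 0 H) x ω - u * MM Q (insert 0 H) x| ≤ ε * MM Q (insert 0 H) x ∧
        (u = 0 → NN A (insert 0 H) x ω = 0) := by
  have h1 : ∀ᵐ ω ∂μ, ∀ (k : ℕ) (H₀ : Finset ℕ) (c u ε : ℚ), 1 ≤ k → H₀.card = k → 0 ∉ H₀ →
      0 < sing Q (insert 0 H₀) → 0 < (c : ℝ) → 0 ≤ (u : ℝ) → sing Q (insert 0 H₀) * II u < k * (c : ℝ) ^ (k + 1) →
      0 < (ε : ℝ) → ∀ᶠ x : ℕ in atTop, ∃ H : Finset ℕ, H.card = k ∧ 0 ∉ H ∧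
      (∀ h ∈ H, (h : ℝ) ≤ Real.exp (c * YY k x)) ∧
      (∀ n, Good Q (insert 0 H) n ↔ Good Q (insert 0 H₀) n) ∧ sing Q (insert 0 H) = sing Q (insert 0 H₀) ∧
      NN A (insert 0 H) x ω ≤ u * MM Q (insert 0 H) x ∧ (u - ε) * MM Q (insert 0 H) x ≤ NN A (insert 0 H) x ω := by
    rw [ae_all_iff]
    intro k
    rw [ae_all_iff]
    intro H₀
    rw [ae_all_iff]
    intro c
    rw [ae_all_iff]
    intro u
    rw [ae_all_iff]
    intro ε
    by_cases hall : 1 ≤ k ∧ H₀.card = k ∧ 0 ∉ H₀ ∧ 0 < sing Q (insert 0 H₀) ∧ 0 < (c : ℝ) ∧ 0 ≤ (u : ℝ) ∧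
        sing Q (insert 0 H₀) * II u < k * (c : ℝ) ^ (k + 1) ∧ 0 < (ε : ℝ)
    · obtain ⟨a1, a2, a3, a4, a5, a6, a7, a8⟩ := hall
      filter_upwards [exists_dev hA hQ a1 a2 a3 a4 a5 a6 a7 a8] with ω hω _ _ _ _ _ _ _ _
      exact hω
    · exact Eventually.of_forall (fun ω a1 a2 a3 a4 a5 a6 a7 a8 => absurd ⟨a1, a2, a3, a4, a5, a6, a7, a8⟩ hall)
  filter_upwards [h1] with ω hω k H₀ c u ε hk hH₀ h0 hs hc hu hcr hε
  have hmain : ∃ u' c' ε' : ℚ, 0 < (c' : ℝ) ∧ (c' : ℝ) < c ∧ 0 ≤ (u' : ℝ) ∧ 0 < (ε' : ℝ) ∧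
      sing Q (insert 0 H₀) * II u' < k * (c' : ℝ) ^ (k + 1) ∧ (u' : ℝ) ≤ u + ε ∧ u - ε ≤ u' - ε' ∧ (u = 0 → (u' : ℝ) = 0) := by
    rcases hu.lt_or_eq with hu0 | hu0
    · obtain ⟨r, hr, h2⟩ := Metric.eventually_nhds_iff.1
        (((continuous_const.mul II_cont).tendsto u).eventually_lt_const (f := fun t => sing Q (insert 0 H₀) * II t) hcr)
      obtain ⟨u', h3, h4⟩ := exists_rat_btwn (show u < min (u + r) (u + ε) by exact lt_min (by linarith) (by linarith))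
      have h5 := h4.trans_le (min_le_left (u + r) (u + ε))
      have h6 := h4.trans_le (min_le_right (u + r) (u + ε))
      have h7 : sing Q (insert 0 H₀) * II u' < k * c ^ (k + 1) := h2 (by
        rw [Real.dist_eq, abs_lt]
        constructor <;> linarith)
      obtain ⟨c', h8, h9, h10⟩ := c_near_dn hc h7
      obtain ⟨ε', h11, h12⟩ := exists_rat_btwn hε
      exact ⟨u', c', ε', h8, h9, by linarith, h11, h10, h6.le, by linarith, fun h => absurd h hu0.ne'⟩
    · rw [← hu0] at hcr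
      obtain ⟨c', h8, h9, h10⟩ := c_near_dn hc hcr
      obtain ⟨ε', h11, h12⟩ := exists_rat_btwn hε
      refine ⟨0, c', ε', h8, h9, by norm_num, h11, by push_cast; exact h10, ?_, ?_, fun _ => by norm_num⟩
      · push_cast
        linarith
      · push_cast
        linarith
  obtain ⟨u', c', ε', b1, b2, b3, b4, b5, b6, b7, b8⟩ := hmain
  filter_upwards [hω k H₀ c' u' ε' hk hH₀ h0 hs b1 b3 b5 b4, log_tendsto.eventually_ge_atTop 1] with x hx hlx
  obtain ⟨H, e1, e2, e3, e4, e5, e6, e7⟩ := hx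
  have hYn := YY_nonneg k x
  have hM : 0 ≤ MM Q (insert 0 H) x := by
    unfold MM
    have := LL_pos (S := insert 0 H) hlx
    rw [e5]
    positivity
  refine ⟨H, ⟨e1, e2, fun h hh => (e3 h hh).trans (Real.exp_le_exp.2 (mul_le_mul_of_nonneg_right b2.le hYn)), e5.ge⟩,
    e4, e5, ?_, ?_⟩
  · rw [abs_le]
    constructor
    · have := mul_le_mul_of_nonneg_right b7 hM
      linarith
    · have := mul_le_mul_of_nonneg_right b6 hM
      linarith
  · intro h
    rw [b8 h, zero_mul] at e6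
    exact le_antisymm e6 (nm_nonneg _ _ _)

end Pool.Agent.Q106.UR
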