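import Pool.Agent.Q120.GM.Level
import Pool.Agent.Q120.GM.Free

/-!
# Products of functions of disjoint blocks of a random set, and families of disjoint events
-/

set_option autoImplicit false

namespace Pool.Agent.Q106.UR

open Finset MeasureTheory ProbabilityTheory Filter Pool.Agent.Q120.GM

variable {Ω : Type*} [MeasurableSpace Ω] {μ : Measure Ω} [IsProbabilityMeasure μ] {ι κ : Type*}
  {p : ι → ℝ} {A : Ω → Set ι}

/-- The indicator of `T ⊆ A`. -/
noncomputable def ind (A : Ω → Set ι) (T : Finset ι) (ω : Ω) : ℝ := (all A T).indicator (fun _ => (1 : ℝ)) ω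

/-- The number of the `j ∈ J` with `T j ⊆ A`. -/
noncomputable def nm (A : Ω → Set ι) (J : Finset κ) (T : κ → Finset ι) (ω : Ω) : ℝ := ∑ j ∈ J, ind A (T j) ω

/-- The probability of `T ⊆ A`. -/
noncomputable def pT (p : ι → ℝ) (T : Finset ι) : ℝ := ∏ i ∈ T, p i

theorem pT_nonneg (hA : IsModel μ p A) (T : Finset ι) : 0 ≤ pT p T := prod_nonneg (fun i _ => p_nonneg hA i)

theorem pT_le_one (hA : IsModel μ p A) (T : Finset ι) : pT p T ≤ 1 :=
  prod_le_one (fun i _ => p_nonneg hA i) (fun i _ => p_le_one hA i)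

omit [MeasurableSpace Ω] in
theorem ind_zero_or (T : Finset ι) (ω : Ω) :
    ind A T ω = 0 ∧ ω ∉ all A T ∨ ind A T ω = 1 ∧ ω ∈ all A T := by
  unfold ind
  by_cases h : ω ∈ all A T
  · right
    exact ⟨Set.indicator_of_mem h _, h⟩
  · left
    exact ⟨Set.indicator_of_notMem h _, h⟩

omit [MeasurableSpace Ω] in
theorem ind_nonneg (T : Finset ι) (ω : Ω) : 0 ≤ ind A T ω := by
  rcases ind_zero_or (A := A) T ω with h | h <;> rw [h.1] <;> norm_num

omit [MeasurableSpace Ω] in
theorem ind_le_one (T : Finset ι) (ω : Ω) : ind A T ω ≤ 1 := by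
  rcases ind_zero_or (A := A) T ω with h | h <;> rw [h.1] <;> norm_num

omit [MeasurableSpace Ω] in
theorem ind_mul [DecidableEq ι] (T U : Finset ι) (ω : Ω) : ind A T ω * ind A U ω = ind A (T ∪ U) ω := by
  have h1 : ω ∈ all A (T ∪ U) ↔ ω ∈ all A T ∧ ω ∈ all A U := by
    constructor
    · intro h
      exact ⟨fun i hi => h i (mem_union_left _ hi), fun i hi => h i (mem_union_right _ hi)⟩
    · rintro ⟨h1, h2⟩ i hi
      rw [mem_union] at hi
      rcases hi with hi | hi
      · exact h1 i hi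
      · exact h2 i hi
  rcases ind_zero_or (A := A) T ω with h | h <;> rcases ind_zero_or (A := A) U ω with h' | h' <;>
    rcases ind_zero_or (A := A) (T ∪ U) ω with h'' | h'' <;> rw [h.1, h'.1, h''.1] <;> norm_num
  · exact h.2 (h1.1 h''.2).1
  · exact h.2 (h1.1 h''.2).1
  · exact h'.2 (h1.1 h''.2).2
  · exact h''.2 (h1.2 ⟨h.2, h'.2⟩)

omit [MeasurableSpace Ω] in
theorem F_ind {S : Set ι} {T : Finset ι} (hT : ∀ i ∈ T, i ∈ S) : Measurable[F A S] (ind A T) := by
  letI : MeasurableSpace Ω := F A S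
  exact (measurable_const (a := (1 : ℝ))).indicator (F_all hT)

theorem meas_ind (hA : IsModel μ p A) (T : Finset ι) : Measurable (ind A T) :=
  (F_ind (S := Set.univ) (fun _ _ => Set.mem_univ _)).mono (F_le hA _) le_rfl

theorem meas_nm (hA : IsModel μ p A) (J : Finset κ) (T : κ → Finset ι) : Measurable (nm A J T) := by
  unfold nm
  exact Finset.measurable_fun_sum J (fun j _ => meas_ind hA (T j))

omit [MeasurableSpace Ω] in
theorem nm_nonneg (J : Finset κ) (T : κ → Finset ι) (ω : Ω) : 0 ≤ nm A J T ω :=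
  sum_nonneg (fun j _ => ind_nonneg _ _)

omit [MeasurableSpace Ω] in
theorem nm_le (J : Finset κ) (T : κ → Finset ι) (ω : Ω) : nm A J T ω ≤ J.card := by
  unfold nm
  refine (sum_le_sum (g := fun _ => (1 : ℝ)) (fun j _ => ind_le_one _ _)).trans (by simp)

/-- The number of the occurring events. -/
noncomputable def oc (A : Ω → Set ι) (J : Finset κ) (T : κ → Finset ι) (ω : Ω) : Finset κ := by
  classical
  exact J.filter (fun j => ω ∈ all A (T j))

omit [MeasurableSpace Ω] in
theorem mem_oc {J : Finset κ} {T : κ → Finset ι} {ω : Ω} {j : κ} :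
    j ∈ oc A J T ω ↔ j ∈ J ∧ ω ∈ all A (T j) := by
  classical
  unfold oc
  rw [mem_filter]

omit [MeasurableSpace Ω] in
theorem nm_card (J : Finset κ) (T : κ → Finset ι) (ω : Ω) : nm A J T ω = ((oc A J T ω).card : ℝ) := by
  classical
  unfold nm oc
  rw [card_filter]
  push_cast
  refine sum_congr rfl (fun j _ => ?_)
  rcases ind_zero_or (A := A) (T j) ω with h | h
  · rw [h.1, if_neg h.2]
  · rw [h.1, if_pos h.2]

theorem int_ind (hA : IsModel μ p A) (T : Finset ι) : Integrable (ind A T) μ ∧ ∫ ω, ind A T ω ∂μ = pT p T := by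
  have h1 : MeasurableSet (all A T) := meas_all hA T
  refine ⟨(integrable_const 1).indicator h1, ?_⟩
  unfold ind
  rw [integral_indicator_const _ h1, real_all hA]
  simp [pT]

/-- Products of functions of disjoint blocks. -/
theorem int_mul (hA : IsModel μ p A) {S T : Set ι} (hST : Disjoint S T) {f g : Ω → ℝ}
    (hf : Measurable[F A S] f) (hg : Measurable[F A T] g) :
    ∫ ω, f ω * g ω ∂μ = (∫ ω, f ω ∂μ) * ∫ ω, g ω ∂μ := by
  have h1 : Indep (F A S) (F A T) μ := by
    refine indep_iSup_of_disjoint (m := fun i => MeasurableSpace.generateFrom {{ω | i ∈ A ω}}) (fun i => ?_)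
      hA.indep hST
    rw [MeasurableSpace.generateFrom_le_iff]
    intro s hs
    rw [Set.mem_singleton_iff] at hs
    rw [hs]
    exact hA.meas i
  have h2 : IndepFun f g μ := by
    rw [IndepFun_iff_Indep]
    exact indep_of_indep_of_le_left (indep_of_indep_of_le_right h1 hg.comap_le) hf.comap_le
  exact h2.integral_fun_mul_eq_mul_integral ((hf.mono (F_le hA _) le_rfl).aestronglyMeasurable)
    ((hg.mono (F_le hA _) le_rfl).aestronglyMeasurable)

theorem int_prod (hA : IsModel μ p A) [DecidableEq κ] (J : Finset κ) (S : κ → Set ι)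
    (hd : ∀ i ∈ J, ∀ j ∈ J, i ≠ j → Disjoint (S i) (S j)) (f : κ → Ω → ℝ)
    (hf : ∀ j ∈ J, Measurable[F A (S j)] (f j)) :
    ∫ ω, ∏ j ∈ J, f j ω ∂μ = ∏ j ∈ J, ∫ ω, f j ω ∂μ := by
  induction J using Finset.induction_on with
  | empty => simp
  | insert a J ha ih =>
    rw [prod_insert ha, ← ih (fun i hi j hj => hd i (mem_insert_of_mem hi) j (mem_insert_of_mem hj))
      (fun i hi => hf i (mem_insert_of_mem hi))]
    have h1 : ∀ ω, ∏ j ∈ insert a J, f j ω = f a ω * ∏ j ∈ J, f j ω := fun ω => prod_insert ha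
    simp_rw [h1]
    refine int_mul hA (S := S a) (T := ⋃ i ∈ J, S i) ?_ (hf a (mem_insert_self _ _)) ?_
    · rw [Set.disjoint_iUnion₂_right]
      intro i hi
      refine hd a (mem_insert_self _ _) i (mem_insert_of_mem hi) ?_
      rintro rfl
      exact ha hi
    · refine Finset.measurable_fun_prod J (fun i hi => ?_)
      exact (hf i (mem_insert_of_mem hi)).mono (F_mono (Set.subset_biUnion_of_mem (u := S) hi)) le_rfl

/-- The rate function of the Poisson law. -/
noncomputable def II (u : ℝ) : ℝ := 1 - u + u * Real.log u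

/-- The probability that `s` of the events with pairwise disjoint `T j` occur. -/
theorem fam [DecidableEq κ] [DecidableEq ι] (hA : IsModel μ p A) (J : Finset κ) (T : κ → Finset ι) {m z : ℝ}
    (hm : ∑ j ∈ J, pT p (T j) ≤ m) (hz : 1 ≤ z) (s : ℕ) :
    μ.real {ω | ∃ S ⊆ oc A J T ω, s ≤ S.card ∧ ∀ i ∈ S, ∀ j ∈ S, i ≠ j → Disjoint (T i) (T j)} ≤
      Real.exp ((z - 1) * m) / z ^ s := by
  have hz0 : 0 < z := by linarith
  obtain ⟨E, hE⟩ : ∃ E, E = {ω | ∃ S ⊆ oc A J T ω, s ≤ S.card ∧ ∀ i ∈ S, ∀ j ∈ S, i ≠ j → Disjoint (T i) (T j)} :=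
    ⟨_, rfl⟩
  obtain ⟨P, hP⟩ : ∃ P : Finset (Finset κ), P = J.powerset.filter
    (fun S => ∀ i ∈ S, ∀ j ∈ S, i ≠ j → Disjoint (T i) (T j)) := ⟨_, rfl⟩
  obtain ⟨g, hg⟩ : ∃ g : Ω → ℝ, g = fun ω => ∑ S ∈ P, (z - 1) ^ S.card * ind A (S.biUnion T) ω := ⟨_, rfl⟩
  have hall : ∀ (S : Finset κ) (ω : Ω), ω ∈ all A (S.biUnion T) ↔ ∀ j ∈ S, ω ∈ all A (T j) := by
    intro S ω
    constructor
    · intro h j hj i hi
      exact h i (mem_biUnion.2 ⟨j, hj, hi⟩)
    · intro h i hi
      rw [mem_biUnion] at hi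
      obtain ⟨j, hj, hi⟩ := hi
      exact h j hj i hi
  have hg0 : ∀ ω, 0 ≤ g ω := by
    intro ω
    rw [hg]
    exact sum_nonneg (fun S _ => mul_nonneg (pow_nonneg (by linarith) _) (ind_nonneg _ _))
  have hgE : ∀ ω ∈ E, z ^ s ≤ g ω := by
    intro ω hω
    rw [hE] at hω
    obtain ⟨S, hS1, hS2, hS3⟩ := hω
    have h1 : ∑ S' ∈ S.powerset, (z - 1) ^ S'.card ≤ g ω := by
      rw [hg]
      have h2 : S.powerset ⊆ P := by
        intro S' hS'
        rw [mem_powerset] at hS'
        rw [hP, mem_filter, mem_powerset]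
        refine ⟨fun j hj => (mem_oc.1 (hS1 (hS' hj))).1, fun i hi j hj => hS3 i (hS' hi) j (hS' hj)⟩
      refine le_trans (le_of_eq ?_) (sum_le_sum_of_subset_of_nonneg h2 (fun S _ _ =>
        mul_nonneg (pow_nonneg (by linarith) _) (ind_nonneg _ _)))
      refine sum_congr rfl (fun S' hS' => ?_)
      rw [mem_powerset] at hS'
      have h3 : ω ∈ all A (S'.biUnion T) := (hall S' ω).2 (fun j hj => (mem_oc.1 (hS1 (hS' hj))).2)
      rcases ind_zero_or (A := A) (S'.biUnion T) ω with h | h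
      · exact absurd h3 h.2
      · rw [h.1, mul_one]
    have h4 : ∑ S' ∈ S.powerset, (z - 1) ^ S'.card = z ^ S.card := by
      have h5 := Finset.prod_add (fun _ : κ => z - 1) (fun _ => (1 : ℝ)) S
      simp only [prod_const, one_pow, mul_one] at h5
      rw [← h5]
      congr 1
      ring
    rw [h4] at h1
    exact (pow_le_pow_right₀ hz hS2).trans h1
  have hint : Integrable g μ := by
    rw [hg]
    exact integrable_finsetSum _ (fun S _ => (int_ind hA _).1.const_mul _)
  have hEg : ∫ ω, g ω ∂μ ≤ Real.exp ((z - 1) * m) := by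
    rw [hg]
    rw [integral_finsetSum _ (fun S _ => (int_ind hA _).1.const_mul _)]
    have h1 : ∀ S ∈ P, ∫ ω, (z - 1) ^ S.card * ind A (S.biUnion T) ω ∂μ = ∏ j ∈ S, ((z - 1) * pT p (T j)) := by
      intro S hS
      rw [hP, mem_filter] at hS
      rw [integral_const_mul, (int_ind hA _).2, prod_mul_distrib, prod_const]
      congr 1
      unfold pT
      exact prod_biUnion (fun i hi j hj hij => hS.2 i hi j hj hij)
    rw [sum_congr rfl h1]
    have h2 : ∑ S ∈ P, ∏ j ∈ S, ((z - 1) * pT p (T j)) ≤ ∑ S ∈ J.powerset, ∏ j ∈ S, ((z - 1) * pT p (T j)) := by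
      rw [hP]
      exact sum_le_sum_of_subset_of_nonneg (filter_subset _ _) (fun S _ _ => prod_nonneg (fun j _ =>
        mul_nonneg (by linarith) (pT_nonneg hA _)))
    refine h2.trans ?_
    have h3 := Finset.prod_add (fun j : κ => (z - 1) * pT p (T j)) (fun _ => (1 : ℝ)) J
    simp only [prod_const_one, mul_one] at h3
    rw [← h3]
    have h4 : ∏ j ∈ J, ((z - 1) * pT p (T j) + 1) ≤ ∏ j ∈ J, Real.exp ((z - 1) * pT p (T j)) := by
      refine prod_le_prod (fun j _ => ?_) (fun j _ => Real.add_one_le_exp _)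
      have := mul_nonneg (show (0 : ℝ) ≤ z - 1 by linarith) (pT_nonneg hA (T j))
      linarith
    refine h4.trans ?_
    rw [← Real.exp_sum, ← mul_sum]
    exact Real.exp_le_exp.2 (mul_le_mul_of_nonneg_left hm (by linarith))
  have h5 := mul_meas_ge_le_integral_of_nonneg (μ := μ) (f := g) (Eventually.of_forall hg0) hint (z ^ s)
  have h6 : μ.real E ≤ μ.real {ω | z ^ s ≤ g ω} := measureReal_mono hgE (measure_ne_top _ _)
  rw [← hE, le_div_iff₀ (by positivity), mul_comm]
  exact (mul_le_mul_of_nonneg_left h6 (by positivity)).trans (h5.trans hEg)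

end Pool.Agent.Q106.UR
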