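import Pool.Agent.Q106.UR.Up

/-!
# A second moment bound, and the number of independent events which occur
-/

set_option autoImplicit false

namespace Pool.Agent.Q106.UR

open Finset MeasureTheory ProbabilityTheory Filter Pool.Agent.Q120.GM

variable {Ω : Type*} [MeasurableSpace Ω] {μ : Measure Ω} [IsProbabilityMeasure μ]

/-- **Second moments.** -/
theorem second {κ : Type*} [DecidableEq κ] (G : Finset κ) (X : κ → Set Ω) (hX : ∀ j ∈ G, MeasurableSet (X j))
    (sh : Finset (κ × κ)) (hi : ∀ i ∈ G, ∀ j ∈ G, i ≠ j → (i, j) ∉ sh → μ.real (X i ∩ X j) = μ.real (X i) * μ.real (X j))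
    {a b : ℝ} (ha : 0 < a) (hXa : ∀ j ∈ G, a ≤ μ.real (X j)) (hG : G.Nonempty)
    (hb : ∀ i ∈ G, ∀ j ∈ G, i ≠ j → (i, j) ∈ sh → μ.real (X i ∩ X j) ≤ b) (hb0 : 0 ≤ b) {n : ℝ} (hn : (sh.card : ℝ) ≤ n) :
    μ.real {ω | ∀ j ∈ G, ω ∉ X j} ≤ 1 / (G.card * a) + n * b / (G.card * a) ^ 2 := by
  obtain ⟨S, hSd⟩ : ∃ S, S = ∑ j ∈ G, μ.real (X j) := ⟨_, rfl⟩
  have hG0 : (0 : ℝ) < G.card := by exact_mod_cast card_pos.2 hG
  have hS1 : (G.card : ℝ) * a ≤ S := by
    rw [hSd]
    calc (G.card : ℝ) * a = ∑ _j ∈ G, a := by rw [sum_const, nsmul_eq_mul]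
      _ ≤ _ := sum_le_sum hXa
  have hS : 0 < S := lt_of_lt_of_le (by positivity) hS1
  obtain ⟨h1, h2⟩ := num_int (μ := μ) G X hX
  rw [← hSd] at h2
  have hind : ∀ (E E' : Set Ω) (ω : Ω), E.indicator (fun _ => (1 : ℝ)) ω * E'.indicator (fun _ => (1 : ℝ)) ω =
      (E ∩ E').indicator (fun _ => (1 : ℝ)) ω := by
    intro E E' ω
    by_cases h1 : ω ∈ E <;> by_cases h2 : ω ∈ E' <;> simp [h1, h2]
  have hsq : ∀ ω, (num G X ω - S) ^ 2 = (∑ i ∈ G, ∑ j ∈ G, (X i ∩ X j).indicator (fun _ => (1 : ℝ)) ω) -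
      2 * S * num G X ω + S ^ 2 := by
    intro ω
    have h3 : num G X ω ^ 2 = ∑ i ∈ G, ∑ j ∈ G, (X i ∩ X j).indicator (fun _ => (1 : ℝ)) ω := by
      rw [sq]
      unfold num
      rw [sum_mul_sum]
      exact sum_congr rfl (fun i _ => sum_congr rfl (fun j _ => hind _ _ _))
    rw [← h3]
    ring
  have hi1 : ∀ i ∈ G, ∀ j ∈ G, Integrable ((X i ∩ X j).indicator (fun _ => (1 : ℝ))) μ := fun i hi j hj =>
    (integrable_const 1).indicator ((hX i hi).inter (hX j hj))
  have hi2 : ∀ i ∈ G, Integrable (fun ω => ∑ j ∈ G, (X i ∩ X j).indicator (fun _ => (1 : ℝ)) ω) μ := fun i hi =>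
    integrable_finsetSum _ (fun j hj => hi1 i hi j hj)
  have hi3 : Integrable (fun ω => ∑ i ∈ G, ∑ j ∈ G, (X i ∩ X j).indicator (fun _ => (1 : ℝ)) ω) μ :=
    integrable_finsetSum _ hi2
  have hi4 : Integrable (fun ω => 2 * S * num G X ω) μ := h1.const_mul _
  have hi5 : Integrable (fun ω => (∑ i ∈ G, ∑ j ∈ G, (X i ∩ X j).indicator (fun _ => (1 : ℝ)) ω) -
      2 * S * num G X ω) μ := hi3.sub hi4
  have hi6 : Integrable (fun ω => (num G X ω - S) ^ 2) μ :=
    (hi5.add (integrable_const (S ^ 2))).congr (Eventually.of_forall (fun ω => by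
      simp only [Pi.add_apply]
      rw [hsq ω]))
  have hint : ∫ ω, (num G X ω - S) ^ 2 ∂μ = (∑ i ∈ G, ∑ j ∈ G, μ.real (X i ∩ X j)) - 2 * S * S + S ^ 2 := by
    calc ∫ ω, (num G X ω - S) ^ 2 ∂μ = ∫ ω, ((∑ i ∈ G, ∑ j ∈ G, (X i ∩ X j).indicator (fun _ => (1 : ℝ)) ω) -
          2 * S * num G X ω + S ^ 2) ∂μ := integral_congr_ae (Eventually.of_forall hsq)
      _ = _ := by
        rw [integral_add hi5 (integrable_const _), integral_sub hi3 hi4, integral_const_mul, h2, integral_const]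
        rw [integral_finsetSum _ hi2]
        congr 1
        · congr 1
          refine sum_congr rfl (fun i hi => ?_)
          rw [integral_finsetSum _ (fun j hj => hi1 i hi j hj)]
          refine sum_congr rfl (fun j hj => ?_)
          rw [integral_indicator_const _ ((hX i hi).inter (hX j hj))]
          simp
        · simp
  have hdb : ∑ i ∈ G, ∑ j ∈ G, μ.real (X i ∩ X j) ≤ S + n * b + S * S := by
    have h5 : ∀ i ∈ G, ∀ j ∈ G, μ.real (X i ∩ X j) ≤ (if j = i then μ.real (X i) else 0) +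
        (if (i, j) ∈ sh then b else 0) + μ.real (X i) * μ.real (X j) := by
      intro i hi' j hj'
      have hp : 0 ≤ μ.real (X i) * μ.real (X j) := mul_nonneg measureReal_nonneg measureReal_nonneg
      by_cases hji : j = i
      · subst hji
        rw [if_pos rfl, Set.inter_self]
        split_ifs <;> linarith
      · rw [if_neg hji, zero_add]
        by_cases hs : (i, j) ∈ sh
        · rw [if_pos hs]
          have := hb i hi' j hj' (Ne.symm hji) hs
          linarith
        · rw [if_neg hs, zero_add]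
          exact le_of_eq (hi i hi' j hj' (Ne.symm hji) hs)
    have h6 : ∑ i ∈ G, ∑ j ∈ G, μ.real (X i ∩ X j) ≤ ∑ i ∈ G, ∑ j ∈ G, ((if j = i then μ.real (X i) else 0) +
        (if (i, j) ∈ sh then b else 0) + μ.real (X i) * μ.real (X j)) :=
      sum_le_sum (fun i hi => sum_le_sum (fun j hj => h5 i hi j hj))
    refine h6.trans ?_
    have h7 : ∀ i ∈ G, ∑ j ∈ G, ((if j = i then μ.real (X i) else 0) + (if (i, j) ∈ sh then b else 0) +
        μ.real (X i) * μ.real (X j)) = μ.real (X i) + (∑ j ∈ G, if (i, j) ∈ sh then b else 0) + μ.real (X i) * S := by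
      intro i hi'
      rw [sum_add_distrib, sum_add_distrib, sum_ite_eq', if_pos hi', ← mul_sum, ← hSd]
    rw [sum_congr rfl h7, sum_add_distrib, sum_add_distrib, ← sum_mul, ← hSd]
    have h8 : ∑ i ∈ G, ∑ j ∈ G, (if (i, j) ∈ sh then b else 0) ≤ n * b := by
      rw [← sum_product', ← sum_filter, sum_const, nsmul_eq_mul]
      refine mul_le_mul_of_nonneg_right ?_ hb0
      have h9 : (filter (fun e : κ × κ => (e.1, e.2) ∈ sh) (G ×ˢ G)).card ≤ sh.card :=
        card_le_card (fun e he => (mem_filter.1 he).2)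
      have h10 : ((filter (fun e : κ × κ => (e.1, e.2) ∈ sh) (G ×ˢ G)).card : ℝ) ≤ sh.card := by exact_mod_cast h9
      exact h10.trans hn
    linarith
  have hvar : ∫ ω, (num G X ω - S) ^ 2 ∂μ ≤ S + n * b := by
    rw [hint]
    nlinarith
  have h3 := mul_meas_ge_le_integral_of_nonneg (μ := μ) (f := fun ω => (num G X ω - S) ^ 2)
    (Eventually.of_forall (fun ω => sq_nonneg _)) hi6 (S ^ 2)
  have h4 : {ω | ∀ j ∈ G, ω ∉ X j} ⊆ {ω | S ^ 2 ≤ (num G X ω - S) ^ 2} := by
    intro ω hω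
    have hω' : ∀ j ∈ G, ω ∉ X j := hω
    have h5 : num G X ω = 0 := by
      unfold num
      exact sum_eq_zero (fun j hj => Set.indicator_of_notMem (hω' j hj) _)
    show S ^ 2 ≤ (num G X ω - S) ^ 2
    rw [h5]
    nlinarith
  have h5 : μ.real {ω | ∀ j ∈ G, ω ∉ X j} ≤ μ.real {ω | S ^ 2 ≤ (num G X ω - S) ^ 2} :=
    measureReal_mono h4 (measure_ne_top _ _)
  have h6 : S ^ 2 * μ.real {ω | ∀ j ∈ G, ω ∉ X j} ≤ S + n * b :=
    (mul_le_mul_of_nonneg_left h5 (by positivity)).trans (h3.trans hvar)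
  have h7 : μ.real {ω | ∀ j ∈ G, ω ∉ X j} ≤ 1 / S + n * b / S ^ 2 := by
    have h8 : 1 / S + n * b / S ^ 2 = (S + n * b) / S ^ 2 := by field_simp
    rw [h8, le_div_iff₀ (by positivity)]
    linarith
  refine h7.trans (add_le_add ?_ ?_)
  · exact one_div_le_one_div_of_le (by positivity) hS1
  · have hnb : 0 ≤ n * b := mul_nonneg ((Nat.cast_nonneg _).trans hn) hb0
    exact div_le_div_of_nonneg_left hnb (by positivity) (pow_le_pow_left₀ (by positivity) hS1 2)

variable {ι κ : Type*} [DecidableEq ι] [DecidableEq κ] {p : ι → ℝ} {A : Ω → Set ι}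

/-- **The probability that exactly `m` events occur, from below.** -/
theorem exact_low (hA : IsModel μ p A) (t : Finset κ) (U : κ → Finset ι)
    (hd : ∀ i ∈ t, ∀ j ∈ t, i ≠ j → Disjoint (U i) (U j)) {q q' : ℝ} (hq : 0 ≤ q) (hq' : q' ≤ 1)
    (hlo : ∀ n ∈ t, q ≤ pT p (U n)) (hhi : ∀ n ∈ t, pT p (U n) ≤ q') (hqq : 0 ≤ q') (m : ℕ) :
    (t.card.choose m : ℝ) * q ^ m * (1 - q') ^ t.card ≤ μ.real {ω | nm A t U ω = m} := by
  obtain ⟨E, hE⟩ : ∃ E : Finset κ → Set Ω, E = fun S => all A (S.biUnion U) ∩ none A (t \ S) U := ⟨_, rfl⟩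
  have hEm : ∀ S, MeasurableSet (E S) := by
    intro S
    rw [hE]
    exact (meas_all hA _).inter (meas_none hA _ _)
  have hoc : ∀ S ∈ t.powersetCard m, ∀ ω ∈ E S, oc A t U ω = S := by
    intro S hS ω hω
    rw [mem_powersetCard] at hS
    rw [hE] at hω
    obtain ⟨h1, h2⟩ := hω
    ext j
    rw [mem_oc]
    constructor
    · rintro ⟨h3, h4⟩
      by_contra h5
      exact h2 j (mem_sdiff.2 ⟨h3, h5⟩) h4
    · intro h3
      refine ⟨hS.1 h3, fun i hi => h1 i ?_⟩
      exact mem_biUnion.2 ⟨j, h3, hi⟩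
  have hsub : (⋃ S ∈ t.powersetCard m, E S) ⊆ {ω | nm A t U ω = m} := by
    intro ω hω
    rw [Set.mem_iUnion₂] at hω
    obtain ⟨S, hS, hω⟩ := hω
    show nm A t U ω = m
    rw [nm_card, hoc S hS ω hω, (mem_powersetCard.1 hS).2]
  refine le_trans ?_ (measureReal_mono hsub (measure_ne_top _ _))
  have hdis : (t.powersetCard m : Set (Finset κ)).PairwiseDisjoint E := by
    intro S hS S' hS' hne
    rw [Function.onFun, Set.disjoint_left]
    intro ω h1 h2
    exact hne ((hoc S hS ω h1).symm.trans (hoc S' hS' ω h2))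
  rw [measureReal_biUnion_finset hdis (fun S _ => hEm S)]
  have h1 : ∀ S ∈ t.powersetCard m, q ^ m * (1 - q') ^ t.card ≤ μ.real (E S) := by
    intro S hS
    rw [mem_powersetCard] at hS
    rw [hE]
    show q ^ m * (1 - q') ^ t.card ≤ μ.real (all A (S.biUnion U) ∩ none A (t \ S) U)
    have hdd : ∀ j ∈ t \ S, Disjoint (U j) (S.biUnion U) := by
      intro j hj
      have hj' := Finset.mem_sdiff.1 hj
      rw [disjoint_biUnion_right]
      intro i hi
      refine hd j hj'.1 i (hS.1 hi) ?_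
      rintro rfl
      exact hj'.2 hi
    rw [inter_none_disjoint hA (S.biUnion U) (t \ S) U hdd, real_all hA, real_none_disjoint hA (t \ S) U (fun i hi j hj =>
        hd i (mem_sdiff.1 hi).1 j (mem_sdiff.1 hj).1), prod_biUnion (fun i hi j hj => hd i (hS.1 hi) j (hS.1 hj))]
    have h2 : q ^ m ≤ ∏ j ∈ S, ∏ i ∈ U j, p i := by
      rw [← hS.2, ← prod_const]
      exact prod_le_prod (fun _ _ => hq) (fun j hj => hlo j (hS.1 hj))
    have h3 : (1 - q') ^ t.card ≤ ∏ j ∈ t \ S, (1 - ∏ i ∈ U j, p i) := by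
      have h4 : (1 - q') ^ t.card ≤ (1 - q') ^ (t \ S).card :=
        pow_le_pow_of_le_one (by linarith) (by linarith) (card_le_card sdiff_subset)
      refine h4.trans ?_
      rw [← prod_const]
      refine prod_le_prod (fun _ _ => by linarith) (fun j hj => ?_)
      have := hhi j (mem_sdiff.1 hj).1
      unfold pT at this
      linarith
    exact mul_le_mul h2 h3 (pow_nonneg (by linarith) _) (prod_nonneg (fun j _ => pT_nonneg hA _))
  calc (t.card.choose m : ℝ) * q ^ m * (1 - q') ^ t.card = ∑ _S ∈ t.powersetCard m, q ^ m * (1 - q') ^ t.card := by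
        rw [sum_const, nsmul_eq_mul, card_powersetCard]
        ring
    _ ≤ _ := sum_le_sum h1

/-- **Two families.** -/
theorem pair_up (hA : IsModel μ p A) (t : Finset κ) (U V : κ → Finset ι)
    (hd : ∀ i ∈ t, ∀ j ∈ t, i ≠ j → Disjoint (U i ∪ V i) (U j ∪ V j)) {z g : ℝ} (hz : 0 ≤ z)
    (hg : ∀ n ∈ t, (z - 1) * (pT p (U n) + pT p (V n)) + (z - 1) ^ 2 * pT p (U n ∪ V n) ≤ g) (m : ℕ) :
    z ^ (2 * m) * μ.real ({ω | nm A t U ω = m} ∩ {ω | nm A t V ω = m}) ≤ Real.exp (t.card * g) := by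
  obtain ⟨f, hf⟩ : ∃ f : κ → Ω → ℝ, f = fun n ω => (1 - (1 - z) * ind A (U n) ω) * (1 - (1 - z) * ind A (V n) ω) :=
    ⟨_, rfl⟩
  have hprod : ∀ ω, ∏ n ∈ t, f n ω = z ^ (oc A t U ω).card * z ^ (oc A t V ω).card := by
    intro ω
    rw [hf, prod_mul_distrib, prod_pow, prod_pow]
  have hfm : ∀ n ∈ t, Measurable[F A ((U n ∪ V n : Finset ι) : Set ι)] (f n) := by
    intro n _
    rw [hf]
    let _ : MeasurableSpace Ω := F A ((U n ∪ V n : Finset ι) : Set ι)
    have h1 : Measurable (ind A (U n)) := F_ind (fun i hi => mem_coe.2 (mem_union_left _ hi))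
    have h2 : Measurable (ind A (V n)) := F_ind (fun i hi => mem_coe.2 (mem_union_right _ hi))
    exact ((h1.const_mul _).const_sub _).mul ((h2.const_mul _).const_sub _)
  have hint : ∀ n ∈ t, ∫ ω, f n ω ∂μ = 1 + ((z - 1) * (pT p (U n) + pT p (V n)) + (z - 1) ^ 2 * pT p (U n ∪ V n)) := by
    intro n _
    have h1 : ∀ ω, f n ω = 1 + ((z - 1) * (ind A (U n) ω + ind A (V n) ω) + (z - 1) ^ 2 * ind A (U n ∪ V n) ω) := by
      intro ω
      rw [hf, ← ind_mul]
      ring
    simp_rw [h1]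
    have i1 := (int_ind hA (U n)).1
    have i2 := (int_ind hA (V n)).1
    have i3 := (int_ind hA (U n ∪ V n)).1
    have i4 : Integrable (fun ω => (z - 1) * (ind A (U n) ω + ind A (V n) ω)) μ := (i1.add i2).const_mul _
    have i5 : Integrable (fun ω => (z - 1) ^ 2 * ind A (U n ∪ V n) ω) μ := i3.const_mul _
    have i6 : Integrable (fun ω => (z - 1) * (ind A (U n) ω + ind A (V n) ω) + (z - 1) ^ 2 * ind A (U n ∪ V n) ω) μ :=
      i4.add i5
    rw [integral_add (integrable_const _) i6, integral_add i4 i5, integral_const_mul, integral_const_mul,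
      integral_add i1 i2, (int_ind hA _).2, (int_ind hA _).2, (int_ind hA _).2]
    simp
  have hE : ∫ ω, ∏ n ∈ t, f n ω ∂μ ≤ Real.exp (t.card * g) := by
    rw [int_prod hA t (fun n => ((U n ∪ V n : Finset ι) : Set ι)) (fun i hi j hj hij => by
      rw [Finset.disjoint_coe]
      exact hd i hi j hj hij) f hfm, prod_congr rfl hint]
    have h1 : ∏ n ∈ t, (1 + ((z - 1) * (pT p (U n) + pT p (V n)) + (z - 1) ^ 2 * pT p (U n ∪ V n))) ≤
        ∏ _n ∈ t, Real.exp g := by
      refine prod_le_prod (fun n hn => ?_) (fun n hn => ?_)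
      · rw [← hint n hn]
        refine integral_nonneg (fun ω => ?_)
        rw [hf]
        show 0 ≤ (1 - (1 - z) * ind A (U n) ω) * (1 - (1 - z) * ind A (V n) ω)
        refine mul_nonneg ?_ ?_
        · rcases ind_zero_or (A := A) (U n) ω with h | h <;> rw [h.1] <;> linarith
        · rcases ind_zero_or (A := A) (V n) ω with h | h <;> rw [h.1] <;> linarith
      · have h2 := Real.add_one_le_exp g
        have h3 := hg n hn
        linarith
    refine h1.trans (le_of_eq ?_)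
    rw [prod_const, ← Real.exp_nat_mul]
  have hbd : ∀ ω, ∏ n ∈ t, f n ω ≤ (max 1 z) ^ (2 * t.card) := by
    intro ω
    have h1 : ∀ j : ℕ, j ≤ t.card → z ^ j ≤ (max 1 z) ^ t.card := fun j hj =>
      (pow_le_pow_left₀ hz (le_max_right _ _) j).trans (pow_le_pow_right₀ (le_max_left _ _) hj)
    have hc : ∀ T : κ → Finset ι, (oc A t T ω).card ≤ t.card := fun T => card_le_card (fun j hj => (mem_oc.1 hj).1)
    rw [hprod, two_mul, pow_add]
    exact mul_le_mul (h1 _ (hc U)) (h1 _ (hc V)) (by positivity) (by positivity)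
  have hI : Integrable (fun ω => ∏ n ∈ t, f n ω) μ := by
    refine Integrable.of_bound (C := (max 1 z) ^ (2 * t.card)) ?_ ?_
    · refine (Finset.measurable_fun_prod t (fun n hn => ?_)).aestronglyMeasurable
      exact (hfm n hn).mono (F_le hA _) le_rfl
    · refine Eventually.of_forall (fun ω => ?_)
      rw [Real.norm_of_nonneg (by rw [hprod]; positivity)]
      exact hbd ω
  have h5 := mul_meas_ge_le_integral_of_nonneg (μ := μ) (f := fun ω => ∏ n ∈ t, f n ω)
    (Eventually.of_forall (fun ω => by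
      rw [Pi.zero_apply]
      show 0 ≤ ∏ n ∈ t, f n ω
      rw [hprod]
      positivity)) hI (z ^ (2 * m))
  have h6 : μ.real ({ω | nm A t U ω = m} ∩ {ω | nm A t V ω = m}) ≤ μ.real {ω | z ^ (2 * m) ≤ ∏ n ∈ t, f n ω} := by
    refine measureReal_mono (fun ω hω => ?_) (measure_ne_top _ _)
    have h7 : nm A t U ω = m := hω.1
    have h8 : nm A t V ω = m := hω.2
    rw [nm_card] at h7 h8
    have h9 : (oc A t U ω).card = m := by exact_mod_cast h7
    have h10 : (oc A t V ω).card = m := by exact_mod_cast h8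
    show z ^ (2 * m) ≤ ∏ n ∈ t, f n ω
    rw [hprod, h9, h10, two_mul, pow_add]
  exact (mul_le_mul_of_nonneg_left h6 (by positivity)).trans (h5.trans hE)

end Pool.Agent.Q106.UR
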