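import Pool.Agent.Q106.UR.Mean2

/-!
# The tails of the number of tuples, uniformly in the tuple
-/

set_option autoImplicit false

namespace Pool.Agent.Q106.UR

open Finset MeasureTheory ProbabilityTheory Filter Pool.Agent.Q120.GM
open scoped Topology

variable {Ω : Type*} [MeasurableSpace Ω] {μ : Measure Ω} [IsProbabilityMeasure μ] {A : Ω → Set ℕ}

/-- The number of the tuples `n + S`, `n ≤ x`, in `A`. -/
noncomputable def NN (A : Ω → Set ℕ) (S : Finset ℕ) (x : ℕ) (ω : Ω) : ℝ := nm A (Icc 1 x) (fun n => tl n S) ω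

theorem cover_card (S J : Finset ℕ) (b : ℕ) : (J.filter (fun j => b ∈ tl j S)).card ≤ S.card := by
  have h1 : J.filter (fun j => b ∈ tl j S) ⊆ S.image (fun h => b - h) := by
    intro j hj
    rw [mem_filter, mem_tl] at hj
    obtain ⟨_, h, hh, e⟩ := hj
    rw [mem_image]
    exact ⟨h, hh, by omega⟩
  exact (card_le_card h1).trans card_image_le

theorem II_nonneg {u : ℝ} (hu : 0 ≤ u) : 0 ≤ II u := by
  unfold II
  rcases hu.lt_or_eq with h | h
  · have h1 := Real.one_sub_inv_le_log_of_pos h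
    have h2 := mul_le_mul_of_nonneg_left h1 hu
    have h3 : u * (1 - u⁻¹) = u - 1 := by field_simp
    linarith
  · rw [← h]
    norm_num

theorem tail_up {Q K : ℕ} (hA : IsModel μ (level Q) A) (hQ : 1 ≤ Q) (hK : 1 ≤ K) {u ε : ℝ} (hu : 1 ≤ u)
    (hε : 0 < ε) : ∀ᶠ x : ℕ in atTop, ∀ S : Finset ℕ, S.card = K → 0 < sing Q S →
    μ.real {ω | u * MM Q S x ≤ NN A S x ω} ≤ (u + 1) * Real.exp (-(MM Q S x * (II u - ε))) := by
  have hK0 : (1 : ℝ) ≤ K := by exact_mod_cast hK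
  have hu0 : 0 < u := by linarith
  have hlu : 0 ≤ Real.log u := Real.log_nonneg hu
  obtain ⟨η, hη⟩ : ∃ η, η = min (ε / (2 * (Real.log u + 1))) (u / 2) := ⟨_, rfl⟩
  have hη0 : 0 < η := by rw [hη]; exact lt_min (by positivity) (by positivity)
  have hη1 : η * Real.log u ≤ ε / 2 := by
    have h1 : η ≤ ε / (2 * (Real.log u + 1)) := by rw [hη]; exact min_le_left _ _
    have h2 : η * (2 * (Real.log u + 1)) ≤ ε := by
      rw [le_div_iff₀ (by positivity)] at h1
      exact h1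
    nlinarith
  have hη2 : η ≤ u := by
    have : η ≤ u / 2 := by rw [hη]; exact min_le_right _ _
    linarith
  obtain ⟨B, hB⟩ : ∃ B, B = 2 * (K : ℝ) ^ 2 * (1 + II u) / η := ⟨_, rfl⟩
  have hB0 : 0 ≤ B := by
    have := II_nonneg hu0.le
    rw [hB]
    positivity
  obtain ⟨δ, hδ⟩ : ∃ δ, δ = min (Real.exp (-B)) (ε / (2 * u)) := ⟨_, rfl⟩
  have hδ0 : 0 < δ := by rw [hδ]; exact lt_min (Real.exp_pos _) (by positivity)
  have hδ1 : δ ≤ Real.exp (-B) := by rw [hδ]; exact min_le_left _ _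
  have hδ2 : (u - 1) * δ ≤ ε / 2 := by
    have h1 : δ ≤ ε / (2 * u) := by rw [hδ]; exact min_le_right _ _
    have h2 : δ * (2 * u) ≤ ε := by
      rw [le_div_iff₀ (by positivity)] at h1
      exact h1
    nlinarith
  filter_upwards [mean_facts hQ hK hδ0] with x hx S hS hs
  obtain ⟨hM, h1, _, h3, _, _⟩ := hx.2 S hS hs
  obtain ⟨M, hMd⟩ : ∃ M, M = MM Q S x := ⟨_, rfl⟩
  rw [← hMd] at hM h1 h3 ⊢
  obtain ⟨a, ha⟩ : ∃ a, a = ⌊(u - η) * M⌋₊ := ⟨_, rfl⟩
  obtain ⟨r, hr⟩ : ∃ r, r = ⌊η * M / (2 * (K : ℝ) ^ 2)⌋₊ := ⟨_, rfl⟩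
  have ha1 : (a : ℝ) ≤ (u - η) * M := by
    rw [ha]
    exact Nat.floor_le (mul_nonneg (by linarith) hM.le)
  have ha2 : (u - η) * M - 1 ≤ a := by
    rw [ha]
    exact (Nat.sub_one_lt_floor _).le
  have hr1 : (r : ℝ) ≤ η * M / (2 * (K : ℝ) ^ 2) := by
    rw [hr]
    exact Nat.floor_le (by positivity)
  have hr2 : η * M / (2 * (K : ℝ) ^ 2) ≤ ((r + 1 : ℕ) : ℝ) := by
    rw [hr]
    push_cast
    exact (Nat.lt_floor_add_one _).le
  have hexpB : 1 ≤ Real.exp B := Real.one_le_exp hB0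
  have h4 := upper hA (Icc 1 x) (fun n => tl n S) (K := K) (m := (1 + δ) * M) (D := δ * M) (z := u) (y := Real.exp B)
    (fun j _ => by rw [card_tl, hS]) (fun b => by rw [← hS]; exact cover_card S _ b) h1 h3 hu hexpB a r
  have h5 : {ω | u * M ≤ NN A S x ω} ⊆ {ω | (a : ℝ) + 2 * (K : ℝ) ^ 2 * r ≤ nm A (Icc 1 x) (fun n => tl n S) ω} := by
    intro ω hω
    have hω' : u * M ≤ nm A (Icc 1 x) (fun n => tl n S) ω := hω
    show (a : ℝ) + 2 * (K : ℝ) ^ 2 * r ≤ nm A (Icc 1 x) (fun n => tl n S) ω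
    have h6 : 2 * (K : ℝ) ^ 2 * r ≤ η * M := by
      rw [le_div_iff₀ (by positivity)] at hr1
      linarith
    linarith
  refine (measureReal_mono h5 (measure_ne_top _ _)).trans (h4.trans ?_)
  have hsplit : (u + 1) * Real.exp (-(M * (II u - ε))) = u * Real.exp (-(M * (II u - ε))) +
      Real.exp (-(M * (II u - ε))) := by ring
  rw [hsplit]
  refine add_le_add ?_ ?_
  · -- the first term
    have h6 : (u ^ a)⁻¹ ≤ u * Real.exp (-((u - η) * M * Real.log u)) := by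
      have h7 : Real.exp (((u - η) * M - 1) * Real.log u) ≤ u ^ a := by
        rw [← Real.rpow_natCast u a, Real.rpow_def_of_pos hu0]
        refine Real.exp_le_exp.2 ?_
        rw [mul_comm (Real.log u)]
        exact mul_le_mul_of_nonneg_right ha2 hlu
      refine (inv_anti₀ (Real.exp_pos _) h7).trans (le_of_eq ?_)
      rw [← Real.exp_neg]
      have h8 : Real.exp (Real.log u) = u := Real.exp_log hu0
      calc Real.exp (-(((u - η) * M - 1) * Real.log u)) =
          Real.exp (Real.log u + -((u - η) * M * Real.log u)) := by congr 1; ring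
        _ = Real.exp (Real.log u) * Real.exp (-((u - η) * M * Real.log u)) := Real.exp_add _ _
        _ = u * Real.exp (-((u - η) * M * Real.log u)) := by rw [h8]
    rw [div_eq_mul_inv]
    refine (mul_le_mul_of_nonneg_left h6 (Real.exp_pos _).le).trans ?_
    have h8 : Real.exp ((u - 1) * ((1 + δ) * M)) * (u * Real.exp (-((u - η) * M * Real.log u))) =
        u * Real.exp ((u - 1) * ((1 + δ) * M) + -((u - η) * M * Real.log u)) := by
      rw [Real.exp_add]
      ring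
    rw [h8]
    refine mul_le_mul_of_nonneg_left (Real.exp_le_exp.2 ?_) hu0.le
    unfold II
    have h9 := mul_le_mul_of_nonneg_right hη1 hM.le
    have h10 := mul_le_mul_of_nonneg_right hδ2 hM.le
    linarith
  · rw [div_eq_mul_inv, ← Real.exp_nat_mul, ← Real.exp_neg, ← Real.exp_add]
    refine Real.exp_le_exp.2 ?_
    have h6 : (Real.exp B - 1) * (δ * M) ≤ M := by
      have h7 : Real.exp B * δ ≤ 1 := by
        calc Real.exp B * δ ≤ Real.exp B * Real.exp (-B) := mul_le_mul_of_nonneg_left hδ1 (Real.exp_pos _).le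
          _ = 1 := by rw [← Real.exp_add]; norm_num
      have h8 : 0 ≤ δ * M := by positivity
      have h9 := mul_le_mul_of_nonneg_right h7 hM.le
      nlinarith
    have h7 : M * (1 + II u) ≤ ((r + 1 : ℕ) : ℝ) * B := by
      have h8 := mul_le_mul_of_nonneg_right hr2 hB0
      refine le_trans (le_of_eq ?_) h8
      rw [hB]
      field_simp
    nlinarith

theorem tail_dn {Q K : ℕ} (hA : IsModel μ (level Q) A) (hQ : 1 ≤ Q) (hK : 1 ≤ K) {u ε : ℝ} (hu0 : 0 < u)
    (hu : u ≤ 1) (hε : 0 < ε) : ∀ᶠ x : ℕ in atTop, ∀ S : Finset ℕ, S.card = K → 0 < sing Q S →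
    μ.real {ω | NN A S x ω ≤ u * MM Q S x} ≤ Real.exp (-(MM Q S x * (II u - ε))) := by
  obtain ⟨δ, hδ⟩ : ∃ δ, δ = min 1 (ε / 3) := ⟨_, rfl⟩
  have hδ0 : 0 < δ := by rw [hδ]; exact lt_min one_pos (by positivity)
  have hδ1 : δ ≤ 1 := by rw [hδ]; exact min_le_left _ _
  have hδ2 : 3 * δ ≤ ε := by
    have h1 : δ ≤ ε / 3 := by rw [hδ]; exact min_le_right _ _
    linarith
  filter_upwards [mean_facts hQ hK hδ0] with x hx S hS hs
  obtain ⟨hM, _, h2, h3, h4, h5⟩ := hx.2 S hS hs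
  obtain ⟨M, hMd⟩ : ∃ M, M = MM Q S x := ⟨_, rfl⟩
  rw [← hMd] at hM h2 h3 ⊢
  obtain ⟨J, hJ⟩ : ∃ J, J = Ico (yy K x) (x + 1) := ⟨_, rfl⟩
  rw [← hJ] at h2 h4
  have hJs : J ⊆ Icc 1 x := by
    intro n hn
    rw [hJ, mem_Ico] at hn
    rw [mem_Icc]
    omega
  have hD : ∑ e ∈ cf J (fun n => tl n S), pT (level Q) (tl e.1 S ∪ tl e.2 S) ≤ δ * M :=
    (sum_le_sum_of_subset_of_nonneg (cf_mono hJs _) (fun e _ _ => pT_nonneg hA _)).trans h3
  obtain ⟨v, hv⟩ : ∃ v, v = ⌊u * M⌋₊ := ⟨_, rfl⟩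
  have hv1 : (v : ℝ) ≤ u * M := by rw [hv]; exact Nat.floor_le (by positivity)
  have h6 := lower hA J (fun n => tl n S) (m := (1 - δ) * M) (D := δ * M) (δ := δ) h2 h4 hδ1 hD hu0 hu v
  have h7 : {ω | NN A S x ω ≤ u * M} ⊆ {ω | nm A J (fun n => tl n S) ω ≤ v} := by
    intro ω hω
    have hω' : nm A (Icc 1 x) (fun n => tl n S) ω ≤ u * M := hω
    show nm A J (fun n => tl n S) ω ≤ v
    have h8 : nm A J (fun n => tl n S) ω ≤ nm A (Icc 1 x) (fun n => tl n S) ω :=
      sum_le_sum_of_subset_of_nonneg hJs (fun n _ _ => ind_nonneg _ _)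
    have h9 := h8.trans hω'
    rw [nm_card] at h9 ⊢
    have h10 : (oc A J (fun n => tl n S) ω).card ≤ v := by
      rw [hv]
      exact Nat.le_floor h9
    exact_mod_cast h10
  refine (measureReal_mono h7 (measure_ne_top _ _)).trans (h6.trans ?_)
  have hlu : Real.log u ≤ 0 := Real.log_nonpos hu0.le hu
  have h8 : (u ^ v)⁻¹ ≤ Real.exp (-(u * M * Real.log u)) := by
    have h9 : Real.exp (u * M * Real.log u) ≤ u ^ v := by
      rw [← Real.rpow_natCast u v, Real.rpow_def_of_pos hu0]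
      refine Real.exp_le_exp.2 ?_
      rw [mul_comm (Real.log u)]
      exact mul_le_mul_of_nonpos_right hv1 hlu
    rw [Real.exp_neg]
    exact inv_anti₀ (Real.exp_pos _) h9
  rw [div_eq_mul_inv]
  refine (mul_le_mul_of_nonneg_left h8 (Real.exp_pos _).le).trans ?_
  rw [← Real.exp_add]
  refine Real.exp_le_exp.2 ?_
  unfold II
  have h9 : (1 - u) * ((1 - δ) * ((1 - δ) * M)) ≥ (1 - u) * M - 2 * δ * M := by
    have h10 : (1 - δ) * ((1 - δ) * M) ≥ M - 2 * δ * M := by nlinarith [mul_nonneg hM.le (sq_nonneg δ)]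
    have h11 : 0 ≤ δ * M := by positivity
    have h12 := mul_le_mul_of_nonneg_left h10 (show 0 ≤ 1 - u by linarith)
    nlinarith
  have h10 := mul_le_mul_of_nonneg_right hδ2 hM.le
  linarith

end Pool.Agent.Q106.UR
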