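import Pool.Agent.Q106.UR.Uni
import Pool.Agent.Q106.UR.Win

/-!
# Conditioning on the part of the random set in `[1, x]`
-/

set_option autoImplicit false

namespace Pool.Agent.Q106.UR

open Finset MeasureTheory ProbabilityTheory Filter Pool.Agent.Q120.GM
open scoped Topology

variable {Ω : Type*} [MeasurableSpace Ω] {μ : Measure Ω} [IsProbabilityMeasure μ] {ι : Type*} [DecidableEq ι]
  {p : ι → ℝ} {A : Ω → Set ι}

/-- Conditioning. -/
theorem cond (hA : IsModel μ p A) (J : Finset ι) (S : Set ι) (hS : Disjoint (J : Set ι) S) (P : Finset (Finset ι))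
    (hP : ∀ t ∈ P, t ⊆ J) (B : Finset ι → Set Ω) (hB : ∀ t ∈ P, MeasurableSet[F A S] (B t)) {β : ℝ}
    (hβ : ∀ t ∈ P, μ.real (B t) ≤ β) (hβ0 : 0 ≤ β) :
    μ.real {ω | ∃ t ∈ P, (∀ n ∈ J, n ∈ A ω ↔ n ∈ t) ∧ ω ∈ B t} ≤ β := by
  obtain ⟨T, hT⟩ : ∃ T : Finset ι → Set Ω, T = fun t => all A t ∩ free A (J \ t) := ⟨_, rfl⟩
  have hTm : ∀ t, MeasurableSet (T t) := by
    intro t
    rw [hT]
    exact (meas_all hA _).inter (meas_free hA _)
  have hTi : ∀ t ∈ P, ∀ ω, ω ∈ T t ↔ ∀ n ∈ J, n ∈ A ω ↔ n ∈ t := by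
    intro t ht ω
    rw [hT]
    constructor
    · rintro ⟨h1, h2⟩ n hn
      constructor
      · intro h3
        by_contra h4
        exact h2 n (Finset.mem_sdiff.2 ⟨hn, h4⟩) h3
      · intro h3
        exact h1 n h3
    · intro h
      refine ⟨fun n hn => (h n (hP t ht hn)).2 hn, fun n hn h3 => ?_⟩
      have hn' := Finset.mem_sdiff.1 hn
      exact hn'.2 ((h n hn'.1).1 h3)
  have hdis : (P : Set (Finset ι)).PairwiseDisjoint T := by
    intro t ht t' ht' hne
    rw [Function.onFun, Set.disjoint_left]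
    intro ω h1 h2
    apply hne
    have h3 := (hTi t ht ω).1 h1
    have h4 := (hTi t' ht' ω).1 h2
    ext n
    constructor
    · intro h5
      have h6 := hP t ht h5
      exact (h4 n h6).1 ((h3 n h6).2 h5)
    · intro h5
      have h6 := hP t' ht' h5
      exact (h3 n h6).1 ((h4 n h6).2 h5)
  have hsub : {ω | ∃ t ∈ P, (∀ n ∈ J, n ∈ A ω ↔ n ∈ t) ∧ ω ∈ B t} ⊆ ⋃ t ∈ P, T t ∩ B t := by
    rintro ω ⟨t, ht, h1, h2⟩
    exact Set.mem_biUnion (x := t) ht ⟨(hTi t ht ω).2 h1, h2⟩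
  refine (measureReal_mono hsub (measure_ne_top _ _)).trans ((measureReal_biUnion_finset_le _ _).trans ?_)
  have h1 : ∀ t ∈ P, μ.real (T t ∩ B t) ≤ μ.real (T t) * β := by
    intro t ht
    have h2 : MeasurableSet[F A (J : Set ι)] (T t) := by
      rw [hT]
      refine MeasurableSet.inter (F_all (fun i hi => hP t ht hi)) (F_free (fun n hn => ?_))
      exact (Finset.mem_sdiff.1 hn).1
    rw [indep_real hA hS h2 (hB t ht)]
    exact mul_le_mul_of_nonneg_left (hβ t ht) measureReal_nonneg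
  refine (sum_le_sum h1).trans ?_
  rw [← sum_mul, ← measureReal_biUnion_finset hdis (fun t _ => hTm t)]
  calc μ.real (⋃ t ∈ P, T t) * β ≤ 1 * β := mul_le_mul_of_nonneg_right measureReal_le_one hβ0
    _ = β := one_mul β

theorem cf_single (J : Finset ι) : cf J (fun n => ({n} : Finset ι)) = ∅ := by
  unfold cf
  rw [filter_eq_empty_iff]
  intro e _ h
  exact h.2 (Finset.disjoint_singleton.2 h.1)

/-- The number of elements of the random set in a finite set. -/
theorem conc_up (hA : IsModel μ p A) (J : Finset ι) {M η δ : ℝ} (hη : 0 ≤ η) (hM : 0 ≤ M)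
    (hm : ∑ n ∈ J, p n ≤ (1 + δ) * M) :
    μ.real {ω | (1 + η) * M ≤ nm A J (fun n => ({n} : Finset ι)) ω} ≤ Real.exp (-(M * (II (1 + η) - η * δ))) := by
  have h1 := fam hA J (fun n => ({n} : Finset ι)) (m := (1 + δ) * M) (z := 1 + η) (by
    unfold pT
    simp only [prod_singleton]
    exact hm) (by linarith) ⌈(1 + η) * M⌉₊
  have h2 : {ω | (1 + η) * M ≤ nm A J (fun n => ({n} : Finset ι)) ω} ⊆ {ω | ∃ S ⊆ oc A J (fun n => ({n} : Finset ι)) ω,
      ⌈(1 + η) * M⌉₊ ≤ S.card ∧ ∀ i ∈ S, ∀ j ∈ S, i ≠ j → Disjoint ({i} : Finset ι) {j}} := by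
    intro ω hω
    have hω' : (1 + η) * M ≤ nm A J (fun n => ({n} : Finset ι)) ω := hω
    rw [nm_card] at hω'
    exact ⟨oc A J (fun n => ({n} : Finset ι)) ω, le_refl _, Nat.ceil_le.2 hω', fun i _ j _ hij =>
      Finset.disjoint_singleton.2 hij⟩
  refine (measureReal_mono h2 (measure_ne_top _ _)).trans (h1.trans ?_)
  have hp0 : 0 < 1 + η := by linarith
  have h3 : ((1 + η) ^ ⌈(1 + η) * M⌉₊)⁻¹ ≤ Real.exp (-((1 + η) * M * Real.log (1 + η))) := by
    have h4 : Real.exp ((1 + η) * M * Real.log (1 + η)) ≤ (1 + η) ^ ⌈(1 + η) * M⌉₊ := by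
      rw [← Real.rpow_natCast (1 + η), Real.rpow_def_of_pos hp0]
      refine Real.exp_le_exp.2 ?_
      rw [mul_comm (Real.log (1 + η))]
      exact mul_le_mul_of_nonneg_right (Nat.le_ceil _) (Real.log_nonneg (by linarith))
    rw [Real.exp_neg]
    exact inv_anti₀ (Real.exp_pos _) h4
  rw [div_eq_mul_inv]
  refine (mul_le_mul_of_nonneg_left h3 (Real.exp_pos _).le).trans (le_of_eq ?_)
  rw [← Real.exp_add]
  congr 1
  unfold II
  ring

theorem conc_dn (hA : IsModel μ p A) (J J' : Finset ι) (hJ : J' ⊆ J) {M η δ : ℝ} (hη0 : 0 ≤ η) (hη : η < 1) (hM : 0 ≤ M)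
    (hδ0 : 0 ≤ δ) (hδ1 : δ ≤ 1) (hm : (1 - δ) * M ≤ ∑ n ∈ J', p n) (hp : ∀ n ∈ J', p n ≤ δ) :
    μ.real {ω | nm A J (fun n => ({n} : Finset ι)) ω ≤ (1 - η) * M} ≤ Real.exp (-(M * (II (1 - η) - 2 * η * δ))) := by
  have hu0 : 0 < 1 - η := by linarith
  have h1 := lower hA J' (fun n => ({n} : Finset ι)) (m := (1 - δ) * M) (D := 0) (δ := δ) (u := 1 - η) (by
    unfold pT
    simp only [prod_singleton]
    exact hm) (fun n hn => by
      unfold pT
      rw [prod_singleton]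
      exact hp n hn) hδ1 (by rw [cf_single, sum_empty]) hu0 (by linarith) ⌊(1 - η) * M⌋₊
  have h2 : {ω | nm A J (fun n => ({n} : Finset ι)) ω ≤ (1 - η) * M} ⊆
      {ω | nm A J' (fun n => ({n} : Finset ι)) ω ≤ ⌊(1 - η) * M⌋₊} := by
    intro ω hω
    have hω' : nm A J (fun n => ({n} : Finset ι)) ω ≤ (1 - η) * M := hω
    show nm A J' (fun n => ({n} : Finset ι)) ω ≤ ⌊(1 - η) * M⌋₊
    have h3 : nm A J' (fun n => ({n} : Finset ι)) ω ≤ nm A J (fun n => ({n} : Finset ι)) ω :=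
      sum_le_sum_of_subset_of_nonneg hJ (fun n _ _ => ind_nonneg _ _)
    have h4 := h3.trans hω'
    rw [nm_card] at h4 ⊢
    have h5 := Nat.le_floor h4
    exact_mod_cast h5
  refine (measureReal_mono h2 (measure_ne_top _ _)).trans (h1.trans ?_)
  have hlu : Real.log (1 - η) ≤ 0 := Real.log_nonpos hu0.le (by linarith)
  have h3 : ((1 - η) ^ ⌊(1 - η) * M⌋₊)⁻¹ ≤ Real.exp (-((1 - η) * M * Real.log (1 - η))) := by
    have h4 : Real.exp ((1 - η) * M * Real.log (1 - η)) ≤ (1 - η) ^ ⌊(1 - η) * M⌋₊ := by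
      rw [← Real.rpow_natCast (1 - η), Real.rpow_def_of_pos hu0]
      refine Real.exp_le_exp.2 ?_
      rw [mul_comm (Real.log (1 - η))]
      exact mul_le_mul_of_nonpos_right (Nat.floor_le (by positivity)) hlu
    rw [Real.exp_neg]
    exact inv_anti₀ (Real.exp_pos _) h4
  rw [div_eq_mul_inv]
  refine (mul_le_mul_of_nonneg_left h3 (Real.exp_pos _).le).trans ?_
  rw [← Real.exp_add]
  refine Real.exp_le_exp.2 ?_
  unfold II
  have h5 : (1 - (1 - η)) * ((1 - δ) * ((1 - δ) * M)) ≥ η * M - 2 * η * δ * M := by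
    have h6 : (1 - δ) * ((1 - δ) * M) ≥ M - 2 * δ * M := by nlinarith [mul_nonneg hM (sq_nonneg δ)]
    have h7 := mul_le_mul_of_nonneg_left h6 hη0
    linarith
  linarith

/-- The good integers up to `x`. -/
def JJ (Q : ℕ) (S : Finset ℕ) (x : ℕ) : Finset ℕ := (Icc 1 x).filter (Good Q S)

/-- The expected number of good elements up to `x`. -/
noncomputable def w0 (Q : ℕ) (S : Finset ℕ) (x : ℕ) : ℝ := x * ((cc Q S : ℝ) / Q * qq Q) / Real.log x

theorem cc_pos {Q : ℕ} {S : Finset ℕ} (hs : 0 < sing Q S) : 1 ≤ cc Q S := by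
  by_contra hcon
  have h0 : cc Q S = 0 := by omega
  unfold sing at hs
  rw [h0] at hs
  norm_num at hs

/-- **The number of good elements of the random set.** -/
theorem trace_typ {Ω : Type*} [MeasurableSpace Ω] {μ : Measure Ω} [IsProbabilityMeasure μ] {A : Ω → Set ℕ}
    {Q : ℕ} (hA : IsModel μ (level Q) A) (hQ : 1 ≤ Q) {S : Finset ℕ} (hs : 0 < sing Q S) (h0S : 0 ∈ S) {η : ℝ}
    (hη : 0 < η) (hη1 : η < 1) : ∀ᶠ x : ℕ in atTop,
    μ.real {ω | nm A (JJ Q S x) (fun n => ({n} : Finset ℕ)) ω ≤ (1 - η) * w0 Q S x ∨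
      (1 + η) * w0 Q S x ≤ nm A (JJ Q S x) (fun n => ({n} : Finset ℕ)) ω} ≤ 1 / (x : ℝ) ^ 2 := by
  have hq := qq_pos hQ
  have hQ0 : (0 : ℝ) < Q := by exact_mod_cast hQ
  have hcc : (1 : ℝ) ≤ cc Q S := by exact_mod_cast cc_pos hs
  have hq1 : 1 ≤ qq Q := by
    unfold qq
    have h1 : 0 < Nat.totient Q := Nat.totient_pos.2 hQ
    have h2 : (0 : ℝ) < Nat.totient Q := by exact_mod_cast h1
    rw [le_div_iff₀ h2, one_mul]
    exact_mod_cast Nat.totient_le Q
  obtain ⟨r, hr⟩ : ∃ r, r = (cc Q S : ℝ) / Q := ⟨_, rfl⟩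
  have hr0 : 0 < r := by rw [hr]; positivity
  have hr1 : 1 ≤ Q * r := by
    rw [hr]
    field_simp
    exact hcc
  -- the rates
  have hI1 := II_pos (show 0 ≤ 1 + η by linarith) (by linarith : 1 + η ≠ 1)
  have hI2 := II_pos (show 0 ≤ 1 - η by linarith) (by linarith : 1 - η ≠ 1)
  obtain ⟨κ, hκ⟩ : ∃ κ, κ = min (II (1 + η)) (II (1 - η)) := ⟨_, rfl⟩
  have hκ0 : 0 < κ := by rw [hκ]; exact lt_min hI1 hI2
  have hκ1 : κ ≤ II (1 + η) := by rw [hκ]; exact min_le_left _ _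
  have hκ2 : κ ≤ II (1 - η) := by rw [hκ]; exact min_le_right _ _
  obtain ⟨δ, hδ⟩ : ∃ δ, δ = min 1 (κ / 4) := ⟨_, rfl⟩
  have hδ0 : 0 < δ := by rw [hδ]; exact lt_min one_pos (by positivity)
  have hδ1 : δ ≤ 1 := by rw [hδ]; exact min_le_left _ _
  have hδ2 : 4 * δ ≤ κ := by
    have : δ ≤ κ / 4 := by rw [hδ]; exact min_le_right _ _
    linarith
  obtain ⟨τ, hτ0, hτ1, hτδ, hτ⟩ := exists_eps 2 (B := (Q : ℝ)) hδ0
  have hlin : ∀ᶠ x : ℕ in atTop, 3 * Real.log x ≤ w0 Q S x * (κ / 2) := by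
    filter_upwards [ev_log_pow 2 (show 0 < κ / (6 * Q) by positivity), log_tendsto.eventually_ge_atTop 1] with x h1 h2
    have hl : 0 < Real.log x := by linarith
    unfold w0
    rw [← hr, div_mul_eq_mul_div, le_div_iff₀ hl]
    have h3 : 6 * Q * Real.log x ^ 2 ≤ κ * x := by
      have h4 := mul_le_mul_of_nonneg_left h1 (show 0 ≤ 6 * (Q : ℝ) by positivity)
      have h5 : 6 * (Q : ℝ) * (κ / (6 * Q) * x) = κ * x := by field_simp
      linarith
    have h4 : κ * x ≤ κ * x * (Q * r * qq Q) := by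
      have h5 : 1 ≤ Q * r * qq Q := by nlinarith
      have h6 : 0 ≤ κ * x := by positivity
      nlinarith
    have h5 : 6 * Q * Real.log x ^ 2 ≤ Q * (κ * x * (r * qq Q)) := by linarith
    have h6 : 6 * Real.log x ^ 2 ≤ κ * x * (r * qq Q) := by
      have h7 : Q * (6 * Real.log x ^ 2) ≤ Q * (κ * x * (r * qq Q)) := by linarith
      exact le_of_mul_le_mul_left h7 hQ0
    nlinarith
  filter_upwards [yy_facts 1 Q (B := qq Q + qq Q / τ) hτ0, hlin, log_tendsto.eventually_ge_atTop (Real.log 2)] with x hx hlx hl2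
  obtain ⟨hx1, hy1, hyl, hyB, hyd, hyQ, hly⟩ := hx
  have hx0 : (0 : ℝ) < x := by
    rcases Nat.eq_zero_or_pos x with h0 | h0
    · rw [h0] at hx1
      norm_num at hx1
    · exact_mod_cast h0
  have hl : 0 < Real.log x := by linarith
  have hyr : (yy 1 x : ℝ) ≤ x := by nlinarith
  have hyx : yy 1 x ≤ x := by exact_mod_cast hyr
  have hy0 : (0 : ℝ) < yy 1 x := by exact_mod_cast hy1
  have hly0 : 0 < Real.log (yy 1 x) := by linarith
  have hcnt := count_real hQ S (yy 1 x) (x + 1 - yy 1 x)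
  rw [show yy 1 x + (x + 1 - yy 1 x) = x + 1 by omega] at hcnt
  have hcast : (((x + 1 - yy 1 x : ℕ)) : ℝ) = x + 1 - yy 1 x := by
    rw [Nat.cast_sub (by omega)]
    push_cast
    ring
  rw [hcast, ← hr] at hcnt
  have hM : w0 Q S x = x * (r * qq Q) / Real.log x := by unfold w0; rw [← hr]
  have hM0 : 0 < w0 Q S x := by rw [hM]; positivity
  obtain ⟨J', hJ'⟩ : ∃ J', J' = (Ico (yy 1 x) (x + 1)).filter (Good Q S) := ⟨_, rfl⟩
  have hJsub : J' ⊆ JJ Q S x := by
    intro n hn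
    rw [hJ', mem_filter, mem_Ico] at hn
    unfold JJ
    rw [mem_filter, mem_Icc]
    exact ⟨⟨by omega, by omega⟩, hn.2⟩
  have hlev : ∀ n ∈ J', level Q n ≤ qq Q / Real.log (yy 1 x) ∧ qq Q / Real.log x ≤ level Q n := by
    intro n hn
    rw [hJ', mem_filter, mem_Ico] at hn
    have hn1 : (yy 1 x : ℝ) ≤ n := by exact_mod_cast hn.1.1
    have hn2 : (n : ℝ) ≤ x := by
      have : n ≤ x := by omega
      exact_mod_cast this
    refine ⟨level_le hly0 hy0 hn1, ?_⟩
    have hco : n.Coprime Q := by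
      have := hn.2 0 h0S
      rwa [add_zero] at this
    refine le_level (x := (yy 1 x : ℝ)) ?_ hly0 hy0 hn1 hn2 hco
    have : 0 ≤ qq Q / τ := by positivity
    linarith
  have hratio : qq Q / Real.log (yy 1 x) ≤ (1 + τ) * (qq Q / Real.log x) := by
    rw [mul_div_assoc', div_le_div_iff₀ hly0 hl]
    have h1 : Real.log x ≤ (1 + τ) * Real.log (yy 1 x) := by linarith
    have h2 := mul_le_mul_of_nonneg_left h1 hq.le
    linarith
  have hup : ∑ n ∈ JJ Q S x, level Q n ≤ (1 + δ) * w0 Q S x := by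
    have h1 : JJ Q S x ⊆ Ico 1 (yy 1 x) ∪ J' := by
      intro n hn
      unfold JJ at hn
      rw [mem_filter, mem_Icc] at hn
      rw [mem_union, hJ', mem_filter, mem_Ico, mem_Ico]
      by_cases h2 : n < yy 1 x
      · left
        exact ⟨hn.1.1, h2⟩
      · right
        exact ⟨⟨by omega, by omega⟩, hn.2⟩
    refine (sum_le_sum_of_subset_of_nonneg h1 (fun n _ _ => level_nonneg Q n)).trans ?_
    have hdj : Disjoint (Ico 1 (yy 1 x)) J' := by
      rw [hJ']
      exact (Ico_disjoint_Ico_consecutive _ _ _).mono_right (filter_subset _ _)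
    rw [sum_union hdj]
    have h2 : ∑ n ∈ Ico 1 (yy 1 x), level Q n ≤ yy 1 x := by
      refine (sum_le_sum (fun n _ => level_le_one Q n)).trans ?_
      rw [sum_const, nsmul_eq_mul, mul_one, Nat.card_Ico]
      exact_mod_cast Nat.sub_le _ _
    have h3 : ∑ n ∈ J', level Q n ≤ (J'.card : ℝ) * ((1 + τ) * (qq Q / Real.log x)) := by
      rw [← nsmul_eq_mul, ← sum_const]
      exact sum_le_sum (fun n hn => (hlev n hn).1.trans hratio)
    have h4 : (J'.card : ℝ) ≤ (1 + τ) * x * r := by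
      rw [hJ']
      refine hcnt.2.trans ?_
      have : (1 : ℝ) ≤ yy 1 x := by exact_mod_cast hy1
      refine mul_le_mul_of_nonneg_right ?_ hr0.le
      nlinarith
    have h5 : (J'.card : ℝ) * ((1 + τ) * (qq Q / Real.log x)) ≤ (1 + τ) * x * r * ((1 + τ) * (qq Q / Real.log x)) :=
      mul_le_mul_of_nonneg_right h4 (by positivity)
    have h6 : (1 + τ) * x * r * ((1 + τ) * (qq Q / Real.log x)) = (1 + τ) ^ 2 * w0 Q S x := by
      rw [hM]
      field_simp
    have h7 : (yy 1 x : ℝ) ≤ Q * τ * w0 Q S x := by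
      rw [pow_one] at hyl
      have h8 : (yy 1 x : ℝ) ≤ τ * x / Real.log x := by
        rw [le_div_iff₀ hl]
        exact hyl
      refine h8.trans ?_
      rw [hM]
      have h9 : τ * x / Real.log x ≤ τ * x / Real.log x * (Q * r * qq Q) := by
        have h10 : 1 ≤ Q * r * qq Q := by nlinarith
        have h11 : 0 ≤ τ * x / Real.log x := by positivity
        nlinarith
      refine h9.trans (le_of_eq ?_)
      field_simp
    have h8 := mul_le_mul_of_nonneg_right hτ hM0.le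
    linarith
  have hlo : (1 - δ) * w0 Q S x ≤ ∑ n ∈ J', level Q n := by
    have h3 : (J'.card : ℝ) * (qq Q / Real.log x) ≤ ∑ n ∈ J', level Q n := by
      rw [← nsmul_eq_mul, ← sum_const]
      exact sum_le_sum (fun n hn => (hlev n hn).2)
    refine le_trans ?_ h3
    have h4 : (1 - δ) * x * r ≤ (J'.card : ℝ) := by
      rw [hJ']
      refine le_trans ?_ hcnt.1
      refine mul_le_mul_of_nonneg_right ?_ hr0.le
      nlinarith
    have h5 := mul_le_mul_of_nonneg_right h4 (show 0 ≤ qq Q / Real.log x by positivity)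
    refine le_trans (le_of_eq ?_) h5
    rw [hM]
    field_simp
  have hsmall : ∀ n ∈ J', level Q n ≤ δ := by
    intro n hn
    refine (hlev n hn).1.trans ?_
    rw [div_le_iff₀ hly0]
    have h5 : qq Q / τ ≤ Real.log (yy 1 x) := by linarith
    rw [div_le_iff₀ hτ0] at h5
    have h6 := mul_le_mul_of_nonneg_left hτδ hly0.le
    linarith
  have e1 := conc_up hA (JJ Q S x) hη.le hM0.le hup
  have e2 := conc_dn hA (JJ Q S x) J' hJsub hη.le hη1 hM0.le hδ0.le hδ1 hlo hsmall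
  have hun : {ω | nm A (JJ Q S x) (fun n => ({n} : Finset ℕ)) ω ≤ (1 - η) * w0 Q S x ∨
      (1 + η) * w0 Q S x ≤ nm A (JJ Q S x) (fun n => ({n} : Finset ℕ)) ω} =
      {ω | nm A (JJ Q S x) (fun n => ({n} : Finset ℕ)) ω ≤ (1 - η) * w0 Q S x} ∪
      {ω | (1 + η) * w0 Q S x ≤ nm A (JJ Q S x) (fun n => ({n} : Finset ℕ)) ω} := rfl
  rw [hun]
  refine (measureReal_union_le _ _).trans ((add_le_add e2 e1).trans ?_)
  have b1 : Real.exp (-(w0 Q S x * (II (1 - η) - 2 * η * δ))) ≤ Real.exp (-(3 * Real.log x)) := by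
    refine Real.exp_le_exp.2 (neg_le_neg (hlx.trans (mul_le_mul_of_nonneg_left ?_ hM0.le)))
    have : η * δ ≤ δ := by nlinarith
    linarith
  have b2 : Real.exp (-(w0 Q S x * (II (1 + η) - η * δ))) ≤ Real.exp (-(3 * Real.log x)) := by
    refine Real.exp_le_exp.2 (neg_le_neg (hlx.trans (mul_le_mul_of_nonneg_left ?_ hM0.le)))
    have : η * δ ≤ δ := by nlinarith
    linarith
  have b3 : Real.exp (-(3 * Real.log x)) = 1 / (x : ℝ) ^ 3 := by
    rw [Real.exp_neg, mul_comm, Real.exp_mul, Real.exp_log hx0, one_div]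
    norm_num
  rw [b3] at b1 b2
  have hx2 : (2 : ℝ) ≤ x := (Real.log_le_log_iff (by norm_num) hx0).1 hl2
  have b4 : 1 / (x : ℝ) ^ 3 + 1 / (x : ℝ) ^ 3 ≤ 1 / (x : ℝ) ^ 2 := by
    rw [← add_div, div_le_div_iff₀ (by positivity) (by positivity)]
    nlinarith [sq_nonneg (x : ℝ)]
  linarith

end Pool.Agent.Q106.UR
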