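import Pool.Agent.Q106.UR.Chern

/-!
# Upper and lower tails with the constants of the Poisson law, for weakly dependent events
-/

set_option autoImplicit false

namespace Pool.Agent.Q106.UR

open Finset MeasureTheory ProbabilityTheory Filter Pool.Agent.Q120.GM

variable {Ω : Type*} [MeasurableSpace Ω] {μ : Measure Ω} [IsProbabilityMeasure μ] {ι κ : Type*} [DecidableEq ι]
  [DecidableEq κ] {p : ι → ℝ} {A : Ω → Set ι}

/-- The pairs of different indices whose sets meet. -/
def cf (J : Finset κ) (T : κ → Finset ι) : Finset (κ × κ) :=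
  (J ×ˢ J).filter (fun e => e.1 ≠ e.2 ∧ ¬ Disjoint (T e.1) (T e.2))

theorem comb (O : Finset κ) (T : κ → Finset ι) {K : ℕ} (hK : ∀ j ∈ O, (T j).card ≤ K)
    (hb : ∀ b, (O.filter (fun j => b ∈ T j)).card ≤ K) (r : ℕ) :
    (∃ S ⊆ O, O.card ≤ S.card + 2 * K ^ 2 * r ∧ ∀ i ∈ S, ∀ j ∈ S, i ≠ j → Disjoint (T i) (T j)) ∨
    ∃ F ⊆ cf O T, r + 1 ≤ F.card ∧
      ∀ e ∈ F, ∀ e' ∈ F, e ≠ e' → Disjoint (T e.1 ∪ T e.2) (T e'.1 ∪ T e'.2) := by
  obtain ⟨P, hP⟩ : ∃ P : Finset (Finset (κ × κ)), P = (cf O T).powerset.filter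
    (fun F => ∀ e ∈ F, ∀ e' ∈ F, e ≠ e' → Disjoint (T e.1 ∪ T e.2) (T e'.1 ∪ T e'.2)) := ⟨_, rfl⟩
  have hne : P.Nonempty := by
    refine ⟨∅, ?_⟩
    rw [hP, mem_filter, mem_powerset]
    exact ⟨empty_subset _, fun e he => absurd he (notMem_empty e)⟩
  obtain ⟨F, hF, hmax⟩ := Finset.exists_max_image P (fun F => F.card) hne
  have hF' := hF
  rw [hP, mem_filter, mem_powerset] at hF'
  by_cases hr : r + 1 ≤ F.card
  · exact Or.inr ⟨F, hF'.1, hr, hF'.2⟩
  · left
    obtain ⟨B, hB⟩ : ∃ B, B = F.biUnion (fun e => T e.1 ∪ T e.2) := ⟨_, rfl⟩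
    have hBc : B.card ≤ F.card * (2 * K) := by
      rw [hB]
      refine card_biUnion_le_card_mul _ _ _ (fun e he => ?_)
      have h1 := hF'.1 he
      unfold cf at h1
      rw [mem_filter, mem_product] at h1
      have h2 := hK e.1 h1.1.1
      have h3 := hK e.2 h1.1.2
      have h4 := card_union_le (T e.1) (T e.2)
      omega
    refine ⟨O.filter (fun j => Disjoint (T j) B), filter_subset _ _, ?_, ?_⟩
    · have h1 : O = O.filter (fun j => Disjoint (T j) B) ∪ O.filter (fun j => ¬ Disjoint (T j) B) :=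
        (filter_union_filter_not_eq _ _).symm
      have h2 : (O.filter (fun j => ¬ Disjoint (T j) B)).card ≤ B.card * K := by
        have h3 : O.filter (fun j => ¬ Disjoint (T j) B) ⊆ B.biUnion (fun b => O.filter (fun j => b ∈ T j)) := by
          intro j hj
          rw [mem_filter, Finset.not_disjoint_iff] at hj
          obtain ⟨hj, b, hb1, hb2⟩ := hj
          exact mem_biUnion.2 ⟨b, hb2, mem_filter.2 ⟨hj, hb1⟩⟩
        exact (card_le_card h3).trans (card_biUnion_le_card_mul _ _ _ (fun b _ => hb b))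
      have h4 : O.card ≤ (O.filter (fun j => Disjoint (T j) B)).card + (O.filter (fun j => ¬ Disjoint (T j) B)).card := by
        conv_lhs => rw [h1]
        exact card_union_le _ _
      have h5 : B.card * K ≤ 2 * K ^ 2 * r := by
        have h6 : F.card ≤ r := by omega
        calc B.card * K ≤ F.card * (2 * K) * K := Nat.mul_le_mul_right _ hBc
          _ ≤ r * (2 * K) * K := Nat.mul_le_mul_right _ (Nat.mul_le_mul_right _ h6)
          _ = 2 * K ^ 2 * r := by ring
      omega
    · intro i hi j hj hij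
      by_contra hcon
      rw [mem_filter] at hi hj
      have h1 : (i, j) ∈ cf O T := by
        unfold cf
        rw [mem_filter, mem_product]
        exact ⟨⟨hi.1, hj.1⟩, hij, hcon⟩
      have hdB : Disjoint (T i ∪ T j) B := disjoint_union_left.2 ⟨hi.2, hj.2⟩
      have h2 : (i, j) ∉ F := by
        intro h3
        have h4 : T i ∪ T j ⊆ B := by
          rw [hB]
          exact subset_biUnion_of_mem (fun e : κ × κ => T e.1 ∪ T e.2) h3
        rw [Finset.not_disjoint_iff] at hcon
        obtain ⟨b, hb1, _⟩ := hcon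
        exact Finset.disjoint_left.1 hdB (mem_union_left _ hb1) (h4 (mem_union_left _ hb1))
      have hdF : ∀ e ∈ F, Disjoint (T e.1 ∪ T e.2) (T i ∪ T j) := by
        intro e he
        refine (disjoint_of_subset_right ?_ hdB).symm
        rw [hB]
        exact subset_biUnion_of_mem (fun e : κ × κ => T e.1 ∪ T e.2) he
      have h3 : insert (i, j) F ∈ P := by
        rw [hP, mem_filter, mem_powerset]
        refine ⟨insert_subset h1 hF'.1, ?_⟩
        intro e he e' he' hne'
        rw [mem_insert] at he he'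
        rcases he with rfl | he <;> rcases he' with rfl | he'
        · exact absurd rfl hne'
        · exact (hdF e' he').symm
        · exact hdF e he
        · exact hF'.2 e he e' he' hne'
      have h4 := hmax _ h3
      rw [card_insert_of_notMem h2] at h4
      omega

/-- **The upper tail.** -/
theorem upper (hA : IsModel μ p A) (J : Finset κ) (T : κ → Finset ι) {m D z y : ℝ} {K : ℕ}
    (hK : ∀ j ∈ J, (T j).card ≤ K) (hb : ∀ b, (J.filter (fun j => b ∈ T j)).card ≤ K)
    (hm : ∑ j ∈ J, pT p (T j) ≤ m) (hD : ∑ e ∈ cf J T, pT p (T e.1 ∪ T e.2) ≤ D) (hz : 1 ≤ z) (hy : 1 ≤ y)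
    (a r : ℕ) : μ.real {ω | (a : ℝ) + 2 * (K : ℝ) ^ 2 * r ≤ nm A J T ω} ≤
      Real.exp ((z - 1) * m) / z ^ a + Real.exp ((y - 1) * D) / y ^ (r + 1) := by
  have h1 := fam hA J T hm hz a
  have h2 := fam hA (cf J T) (fun e => T e.1 ∪ T e.2) hD hy (r + 1)
  refine (measureReal_mono (μ := μ) ?_ (measure_ne_top _ _)).trans ((measureReal_union_le _ _).trans (add_le_add h1 h2))
  intro ω hω
  have hω' : (a : ℝ) + 2 * (K : ℝ) ^ 2 * r ≤ nm A J T ω := hω
  rw [nm_card] at hω'
  have h3 : a + 2 * K ^ 2 * r ≤ (oc A J T ω).card := by exact_mod_cast hω'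
  have hsub : oc A J T ω ⊆ J := fun j hj => (mem_oc.1 hj).1
  rcases comb (oc A J T ω) T (K := K) (fun j hj => hK j (hsub hj))
    (fun b => (card_le_card (filter_subset_filter _ hsub)).trans (hb b)) r with ⟨S, hS1, hS2, hS3⟩ | ⟨F, hF1, hF2, hF3⟩
  · left
    exact ⟨S, hS1, by omega, hS3⟩
  · right
    refine ⟨F, ?_, hF2, hF3⟩
    intro e he
    have h4 := hF1 he
    unfold cf at h4
    rw [mem_filter, mem_product, mem_oc, mem_oc] at h4
    rw [mem_oc]
    refine ⟨?_, ?_⟩
    · unfold cf
      rw [mem_filter, mem_product]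
      exact ⟨⟨h4.1.1.1, h4.1.2.1⟩, h4.2⟩
    · intro i hi
      rw [mem_union] at hi
      rcases hi with hi | hi
      · exact h4.1.1.2 i hi
      · exact h4.1.2.2 i hi

theorem sum_cf (J : Finset κ) (T : κ → Finset ι) (f : κ × κ → ℝ) :
    ∑ e ∈ cf J T, f e = ∑ j ∈ J, ∑ l ∈ J with j ≠ l ∧ ¬ Disjoint (T j) (T l), f (j, l) := by
  unfold cf
  rw [sum_filter, sum_product]
  refine sum_congr rfl (fun j _ => ?_)
  rw [sum_filter]

theorem cf_mono {J J' : Finset κ} (h : J ⊆ J') (T : κ → Finset ι) : cf J T ⊆ cf J' T := by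
  unfold cf
  exact filter_subset_filter _ (product_subset_product h h)

/-- Janson's inequality in terms of `cf`. -/
theorem janson' (hA : IsModel μ p A) (J : Finset κ) (T : κ → Finset ι) :
    μ.real (none A J T) ≤ Real.exp (-(∑ j ∈ J, pT p (T j)) + ∑ e ∈ cf J T, pT p (T e.1 ∪ T e.2)) := by
  refine (janson hA J T).trans (le_of_eq ?_)
  rw [sum_cf]
  unfold pT
  congr 2
  refine sum_congr rfl (fun j _ => ?_)
  refine sum_congr ?_ (fun l _ => ?_)
  · ext l
    rw [mem_filter, mem_filter]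
    refine and_congr_right (fun _ => ?_)
    rw [ne_comm, disjoint_comm]
  · rw [union_comm]

omit [MeasurableSpace Ω] in
omit [DecidableEq ι] [DecidableEq κ] in
theorem prod_pow (J : Finset κ) (T : κ → Finset ι) (u : ℝ) (ω : Ω) :
    ∏ j ∈ J, (1 - (1 - u) * ind A (T j) ω) = u ^ (oc A J T ω).card := by
  classical
  have h1 : oc A J T ω = J.filter (fun j => ω ∈ all A (T j)) := by
    ext j
    rw [mem_oc, mem_filter]
  rw [h1, ← prod_const, prod_filter]
  refine prod_congr rfl (fun j _ => ?_)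
  rcases ind_zero_or (A := A) (T j) ω with h | h
  · rw [h.1, if_neg h.2]
    ring
  · rw [h.1, if_pos h.2]
    ring

/-- **The lower tail.** -/
theorem lower (hA : IsModel μ p A) (J : Finset κ) (T : κ → Finset ι) {m D δ u : ℝ}
    (hm : m ≤ ∑ j ∈ J, pT p (T j)) (hδ : ∀ j ∈ J, pT p (T j) ≤ δ) (hδ1 : δ ≤ 1)
    (hD : ∑ e ∈ cf J T, pT p (T e.1 ∪ T e.2) ≤ D) (hu0 : 0 < u) (hu1 : u ≤ 1) (v : ℕ) :
    μ.real {ω | nm A J T ω ≤ v} ≤ Real.exp (D - (1 - u) * ((1 - δ) * m)) / u ^ v := by
  have hint : Integrable (fun ω => ∏ j ∈ J, (1 - (1 - u) * ind A (T j) ω)) μ := by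
    refine Integrable.of_bound (C := 1) ?_ ?_
    · exact (Finset.measurable_fun_prod J (fun j _ => ((meas_ind hA (T j)).const_mul _).const_sub _)).aestronglyMeasurable
    · refine Eventually.of_forall (fun ω => ?_)
      rw [prod_pow, Real.norm_of_nonneg (by positivity)]
      exact pow_le_one₀ hu0.le hu1
  have hE : ∫ ω, ∏ j ∈ J, (1 - (1 - u) * ind A (T j) ω) ∂μ ≤ Real.exp (D - (1 - u) * ((1 - δ) * m)) := by
    have h1 : ∀ ω, ∏ j ∈ J, (1 - (1 - u) * ind A (T j) ω) =
        ∑ S ∈ J.powerset, ((1 - u) ^ S.card * u ^ (J \ S).card) * (none A S T).indicator (fun _ => (1 : ℝ)) ω := by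
      intro ω
      have h2 : ∀ j ∈ J, 1 - (1 - u) * ind A (T j) ω = (1 - u) * (1 - ind A (T j) ω) + u := fun j _ => by ring
      rw [prod_congr rfl h2, Finset.prod_add]
      refine sum_congr rfl (fun S _ => ?_)
      rw [prod_mul_distrib, prod_const, prod_const]
      have h3 : ∏ j ∈ S, (1 - ind A (T j) ω) = (none A S T).indicator (fun _ => (1 : ℝ)) ω := by
        by_cases h4 : ω ∈ none A S T
        · rw [Set.indicator_of_mem h4]
          refine prod_eq_one (fun j hj => ?_)
          rcases ind_zero_or (A := A) (T j) ω with h | h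
          · rw [h.1]
            ring
          · exact absurd h.2 (h4 j hj)
        · rw [Set.indicator_of_notMem h4]
          have h5 : ¬ ∀ j ∈ S, ω ∉ all A (T j) := h4
          push Not at h5
          obtain ⟨j, hj, h5⟩ := h5
          refine prod_eq_zero hj ?_
          rcases ind_zero_or (A := A) (T j) ω with h | h
          · exact absurd h5 h.2
          · rw [h.1]
            ring
      rw [h3]
      ring
    simp_rw [h1]
    have hi : ∀ S ∈ J.powerset, Integrable (fun ω => ((1 - u) ^ S.card * u ^ (J \ S).card) *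
        (none A S T).indicator (fun _ => (1 : ℝ)) ω) μ := fun S _ =>
      ((integrable_const (1 : ℝ)).indicator (meas_none hA S T)).const_mul _
    rw [integral_finsetSum _ hi]
    have h2 : ∀ S ∈ J.powerset, ∫ ω, ((1 - u) ^ S.card * u ^ (J \ S).card) *
        (none A S T).indicator (fun _ => (1 : ℝ)) ω ∂μ ≤
        Real.exp D * ((∏ j ∈ S, ((1 - u) * Real.exp (-pT p (T j)))) * ∏ _j ∈ J \ S, u) := by
      intro S hS
      rw [mem_powerset] at hS
      rw [integral_const_mul, integral_indicator_const _ (meas_none hA S T), smul_eq_mul, mul_one,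
        prod_mul_distrib, prod_const, prod_const, ← Real.exp_sum, sum_neg_distrib]
      have h3 : μ.real (none A S T) ≤ Real.exp D * Real.exp (-∑ j ∈ S, pT p (T j)) := by
        refine (janson' hA S T).trans ?_
        rw [← Real.exp_add]
        refine Real.exp_le_exp.2 ?_
        have h4 : ∑ e ∈ cf S T, pT p (T e.1 ∪ T e.2) ≤ D :=
          (sum_le_sum_of_subset_of_nonneg (cf_mono hS T) (fun e _ _ => pT_nonneg hA _)).trans hD
        linarith
      have h5 : 0 ≤ (1 - u) ^ S.card * u ^ (J \ S).card := mul_nonneg (pow_nonneg (by linarith) _) (by positivity)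
      calc (1 - u) ^ S.card * u ^ (J \ S).card * μ.real (none A S T) ≤
          (1 - u) ^ S.card * u ^ (J \ S).card * (Real.exp D * Real.exp (-∑ j ∈ S, pT p (T j))) :=
            mul_le_mul_of_nonneg_left h3 h5
        _ = _ := by ring
    refine (sum_le_sum h2).trans ?_
    rw [← mul_sum, ← Finset.prod_add]
    have h6 : ∏ j ∈ J, ((1 - u) * Real.exp (-pT p (T j)) + u) ≤ ∏ j ∈ J, Real.exp (-((1 - u) * ((1 - δ) * pT p (T j)))) := by
      refine prod_le_prod (fun j _ => ?_) (fun j hj => ?_)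
      · have := mul_nonneg (show (0 : ℝ) ≤ 1 - u by linarith) (Real.exp_pos (-pT p (T j))).le
        linarith
      · have hp0 := pT_nonneg hA (T j)
        have hp1 := hδ j hj
        have h7 : Real.exp (-pT p (T j)) ≤ 1 - (1 - δ) * pT p (T j) := by
          have h8 := Real.abs_exp_sub_one_sub_id_le (x := -pT p (T j)) (by
            rw [abs_neg, abs_of_nonneg hp0]
            linarith)
          have h9 := (abs_le.1 h8).2
          nlinarith
        have h8 := Real.add_one_le_exp (-((1 - u) * ((1 - δ) * pT p (T j))))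
        nlinarith
    have h7 := mul_le_mul_of_nonneg_left h6 (Real.exp_pos D).le
    refine h7.trans ?_
    rw [← Real.exp_sum, ← Real.exp_add]
    refine Real.exp_le_exp.2 ?_
    rw [sum_neg_distrib, ← mul_sum, ← mul_sum]
    have h8 : (1 - u) * ((1 - δ) * m) ≤ (1 - u) * ((1 - δ) * ∑ j ∈ J, pT p (T j)) :=
      mul_le_mul_of_nonneg_left (mul_le_mul_of_nonneg_left hm (by linarith)) (by linarith)
    linarith
  have h5 := mul_meas_ge_le_integral_of_nonneg (μ := μ) (f := fun ω => ∏ j ∈ J, (1 - (1 - u) * ind A (T j) ω))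
    (Eventually.of_forall (fun ω => by
      rw [Pi.zero_apply]
      show 0 ≤ ∏ j ∈ J, (1 - (1 - u) * ind A (T j) ω)
      rw [prod_pow]
      positivity)) hint (u ^ v)
  have h6 : μ.real {ω | nm A J T ω ≤ v} ≤ μ.real {ω | u ^ v ≤ ∏ j ∈ J, (1 - (1 - u) * ind A (T j) ω)} := by
    refine measureReal_mono (fun ω hω => ?_) (measure_ne_top _ _)
    have hω' : nm A J T ω ≤ v := hω
    rw [nm_card] at hω'
    show u ^ v ≤ ∏ j ∈ J, (1 - (1 - u) * ind A (T j) ω)
    rw [prod_pow]
    exact pow_le_pow_of_le_one hu0.le hu1 (by exact_mod_cast hω')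
  rw [le_div_iff₀ (by positivity), mul_comm]
  exact (mul_le_mul_of_nonneg_left h6 (by positivity)).trans (h5.trans hE)

end Pool.Agent.Q106.UR
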